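import Pool.Agent.Work.MP_44129c_co.M2.Per

/-!
# MP_44129c_co/M2, Choose (size M): an aperiodic `W`-cube, or a problematic root

PROOF.  `e = |BB| ≤ 2 s - 1`, `|BB.erase y| = e - 1 ≥ s - 1`.  `μ ≥ M + 2 - s ≥ 3` (`2 M ≥ 3 s - 2`).  Suppose there is no `H` as in the first alternative.  For every `H` with `c w y ∉ H` and `PT c s w y H` there is `x ∈ XK` with `c y x ∉ H`.  By `PT` such an `H` has index 2, or (`m = 3 s`) order 3 or order `s`, or (`m = 16`, `s = 5`, so `m ≠ 3 s`)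
order 4; subgroups of `ZMod m` with the same order (index) are equal (`sub_unique`, `sub_index_unique`), so there are at most 3 such `H`: there is a set `W0 ⊆ XK` with at most 3 elements such that every such `H` has an `x ∈ W0` with `c y x ∉ H` (take one element for the index 2, one for the order 3 or 4, one for the order `s`; if there is no such `H` of this kind take none).
Choose `P0` with `W0 ⊆ P0 ⊆ XK`, `|P0| = μ`, and `J0 ⊆ BB.erase y` with `s - 1` elements.  If the cube is not aperiodic `per_even` gives `H` with `c w y ∉ H`, `PT`, and `c y x ∈ H` for all `x ∈ P0 ⊇ W0`: contradiction.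
-/

set_option autoImplicit false

namespace ZS44129
namespace M2

open Finset E W

variable {V : Type} [Fintype V] [DecidableEq V] {m : ℕ} {c : V → V → ZMod m} {s M : ℕ} {w : V}

omit [Fintype V] in
private theorem ch_one (X : Finset V) (f : V → ZMod m) (Q : AddSubgroup (ZMod m) → Prop)
    (huniq : ∀ H H', Q H → Q H' → H = H') (hQ : ∀ H, Q H → ∃ x ∈ X, f x ∉ H) :
    ∃ W0 ⊆ X, W0.card ≤ 1 ∧ ∀ H, Q H → ∃ x ∈ W0, f x ∉ H := by
  by_cases hex : ∃ H, Q H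
  · obtain ⟨H, hH⟩ := hex
    obtain ⟨x, hx, hxH⟩ := hQ H hH
    refine ⟨{x}, Finset.singleton_subset_iff.2 hx, le_of_eq (Finset.card_singleton x), ?_⟩
    intro H' hH'
    refine ⟨x, Finset.mem_singleton_self x, ?_⟩
    rw [huniq H' H hH' hH]
    exact hxH
  · refine ⟨∅, Finset.empty_subset _, by rw [Finset.card_empty]; exact Nat.zero_le _, ?_⟩
    intro H hH
    exact absurd ⟨H, hH⟩ hex

theorem prob_or_aper [NeZero m] (h : EW c s M w) {y : V} (hy : y ∈ BB c w) (μ : ℕ) (h1 : M + 2 ≤ μ + s)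
    (h2 : μ + (BB c w).card ≤ m) (h3 : μ ≤ (XK c w y).card) :
    (∃ H : AddSubgroup (ZMod m), c w y ∉ H ∧ (∀ x ∈ XK c w y, c y x ∈ H) ∧ PT c s w y H) ∨
      AP c s μ w y := by
  by_cases hex : ∃ H : AddSubgroup (ZMod m), c w y ∉ H ∧ (∀ x ∈ XK c w y, c y x ∈ H) ∧ PT c s w y H
  · exact Or.inl hex
  right
  have hs5 := h.s5
  have he1 := h.e1
  have hmM := h.hM
  have hm1 := h.m1
  have hbad : ∀ H : AddSubgroup (ZMod m), (c w y ∉ H ∧ PT c s w y H) → ∃ x ∈ XK c w y, c y x ∉ H := by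
    intro H hH
    by_contra hno
    push Not at hno
    exact hex ⟨H, hH.1, hno, hH.2⟩
  obtain ⟨W1, hW1, hW1c, hW1p⟩ := ch_one (XK c w y) (c y)
    (fun H => (c w y ∉ H ∧ PT c s w y H) ∧ H.index = 2)
    (fun H H' hH hH' => sub_index_unique H H' (by rw [hH.2, hH'.2])) (fun H hH => hbad H hH.1)
  obtain ⟨W2, hW2, hW2c, hW2p⟩ := ch_one (XK c w y) (c y)
    (fun H => (c w y ∉ H ∧ PT c s w y H) ∧ ((m = 3 * s ∧ Nat.card H = 3) ∨
      (m = 16 ∧ s = 5 ∧ Nat.card H = 4)))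
    (fun H H' hH hH' => sub_unique H H' (by
      rcases hH.2 with h4 | h4 <;> rcases hH'.2 with h5 | h5 <;> omega)) (fun H hH => hbad H hH.1)
  obtain ⟨W3, hW3, hW3c, hW3p⟩ := ch_one (XK c w y) (c y)
    (fun H => (c w y ∉ H ∧ PT c s w y H) ∧ Nat.card H = s)
    (fun H H' hH hH' => sub_unique H H' (by rw [hH.2, hH'.2])) (fun H hH => hbad H hH.1)
  have hWsub : W1 ∪ W2 ∪ W3 ⊆ XK c w y := Finset.union_subset (Finset.union_subset hW1 hW2) hW3
  have hWc : (W1 ∪ W2 ∪ W3).card ≤ μ := by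
    have h4 := Finset.card_union_le (W1 ∪ W2) W3
    have h5 := Finset.card_union_le W1 W2
    omega
  obtain ⟨P0, hWP, hPX, hPc⟩ := Finset.exists_subsuperset_card_eq hWsub hWc h3
  have hyc := Finset.card_erase_add_one hy
  obtain ⟨J0, hJ0, hJ0c⟩ := Finset.exists_subset_card_eq
    (show s - 1 ≤ ((BB c w).erase y).card by omega)
  have hJs : J0.card + 1 = s := by omega
  refine ⟨J0, P0, hJ0, hJs, hPX, hPc, ?_⟩
  by_contra hper
  obtain ⟨H, g1, g2, g3⟩ := per_even h hy J0 P0 hJ0 hJs hPX (by rw [hPc]; exact h2)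
    (by rw [hPc]; exact h1) hper
  have hcon : ∃ x ∈ W1 ∪ W2 ∪ W3, c y x ∉ H := by
    have g3' := g3
    unfold PT at g3'
    rcases g3' with h4 | h4 | h4 | h4
    · obtain ⟨x, hx, hxH⟩ := hW1p H ⟨⟨g1, g3⟩, h4.1⟩
      exact ⟨x, Finset.mem_union_left _ (Finset.mem_union_left _ hx), hxH⟩
    · obtain ⟨x, hx, hxH⟩ := hW2p H ⟨⟨g1, g3⟩, Or.inl ⟨h4.1, h4.2.1⟩⟩
      exact ⟨x, Finset.mem_union_left _ (Finset.mem_union_right _ hx), hxH⟩
    · obtain ⟨x, hx, hxH⟩ := hW3p H ⟨⟨g1, g3⟩, h4.2.1⟩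
      exact ⟨x, Finset.mem_union_right _ hx, hxH⟩
    · obtain ⟨x, hx, hxH⟩ := hW2p H ⟨⟨g1, g3⟩, Or.inr ⟨h4.1, h4.2.1, h4.2.2.1⟩⟩
      exact ⟨x, Finset.mem_union_left _ (Finset.mem_union_right _ hx), hxH⟩
  obtain ⟨x, hx, hxH⟩ := hcon
  exact hxH (g2 x (hWP hx))

/-- an aperiodic cube gives the lift. -/
theorem lift_AP [NeZero m] (h : EW c s M w) {y : V} (hy : y ∈ BB c w) (μ : ℕ) (h1 : M + 2 ≤ μ + s)
    (h2 : μ + (BB c w).card ≤ m) (hap : AP c s μ w y) :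
    ∃ (g : (ZMod m)ˣ) (z0 : ℤ) (n : V → ℤ), RL (fun a b => (g : ZMod m) * c a b) s μ w y z0 n := by
  obtain ⟨J0, P0, g1, g2, g3, g4, g5⟩ := hap
  have hs5 := h.s5
  have hmM := h.hM
  have hm1 := h.m1
  have hX : P0 ⊆ X0 c w y := by
    intro x hx
    obtain ⟨h3, h4⟩ := mem_XK.1 (g3 hx)
    unfold X0
    refine Finset.mem_filter.2 ⟨h3, fun h5 => h4 ?_⟩
    rw [h5, add_zero]
  obtain ⟨g, z0, n, hR⟩ := root_lift h.toWS0 hy J0 P0 g1 g2 hX (by omega) (by omega) (by omega) g5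
  rw [g4] at hR
  exact ⟨g, z0, n, hR⟩

end M2
end ZS44129
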