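import Pool.Agent.Work.MP_44129c_co.W.Concl
import Pool.Agent.Work.MP_44129c_co.W.NumEE

/-!
# MP_44129c_co/M2, RB (size M): conclusions of `W` with general sets of slots

`e = |BB|`, `n = m + s - 1`.
PROOF of `ws_of_ws0`.  With `e = 2 s - 1 - i` (`0 ≤ i`) and `m = 3 s + 1 + t`: `s n - e (n - e) = (1 + i)(1 + t + i) - s t` (ring).  `t = 0`: `(1 + i)^2 > 0`; `t = -1`: `(1 + i) i + s > 0`; `t = -2`: `(1 + i)(i - 1) + 2 s ≥ 2 s - 1`; `t = -3`: `(1 + i)(i - 2) + 3 s ≥ 3 s - 2`.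
PROOF of `root_beta`.  As in the proof of `W.ws_false`: normalise the lift (`norm_root` there is private: copy it: `wstruct`, and if the second alternative holds replace `g` by `- g` and use `rl_neg`) to get `PosT`; `hole`: `z0 ≥ s + NN + EE + 2`; `beta_le` (for the colouring `g * c`; `X0` does not change: `ws_scale`) and `EE, NN ≥ 0` (`posT_facts`).
PROOF of `ws_falseG`.  Copy of `W.ws_false` with `X1 y` instead of `X0 c w y`: some `y ∈ BB` has `m ≤ |X1 y| + e` (otherwise `|X1| ≤ m - e - 1` for all `y ∈ BB` and `hsum` contradicts `e3`, see `W.exists_bad`).  Its lift is normalised, `hole` gives `z0 ≥ s + 2`, no other `y1 ∈ BB` has `m ≤ |X1 y1| + e`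
(`hroot` gives a lift, normalise it, `far_unique`), and `|X1 y| ≤ |X0 c w y| ≤ m - 1 - s - EE - NN` (`beta_le`).  The counting and the end are the same.
-/

set_option autoImplicit false

namespace ZS44129
namespace M2

open Finset E W

variable {V : Type} [Fintype V] [DecidableEq V] {m : ℕ} {c : V → V → ZMod m} {s : ℕ} {w : V}

theorem ws_of_ws0 (h : WS0 c s w) (hm : m ≤ 3 * s + 1) : WS c s w := by
  refine ⟨h.sym, h.zsf, h.card, h.s4, h.m1, h.m2, h.e1, h.e2, ?_⟩
  have hs4 := h.s4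
  have hm1 := h.m1
  have he2 := h.e2
  obtain ⟨i, hi⟩ : ∃ i : ℤ, i = 2 * s - 1 - (BB c w).card := ⟨_, rfl⟩
  have hi0 : 0 ≤ i := by omega
  have he : ((BB c w).card : ℤ) = 2 * s - 1 - i := by linarith
  have hs4' : (4 : ℤ) ≤ s := by exact_mod_cast hs4
  have h1 : (m : ℤ) = 3 * s + 1 ∨ (m : ℤ) = 3 * s ∨ (m : ℤ) = 3 * s - 1 ∨
      (m : ℤ) = 3 * s - 2 := by omega
  rw [he]
  rcases h1 with h1 | h1 | h1 | h1 <;> rw [h1] <;> nlinarith

private theorem rb_posT_congr {c c' : V → V → ZMod m} {y : V} {n : V → ℤ}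
    (hB : BB c' w = BB c w) (P : PosT c s w y n) : PosT c' s w y n := by
  obtain ⟨h1, h2⟩ := P
  refine ⟨?_, ?_⟩
  · rw [hB]; exact h1
  · unfold EE NN Pp Qn at h2 ⊢
    rw [hB]; exact h2

/-- a lift can be normalised -/
private theorem rb_norm [NeZero m] (h : WS c s w) {y : V}
    (hroot : ∃ (g : (ZMod m)ˣ) (z0 : ℤ) (n : V → ℤ),
      RL (fun a b => (g : ZMod m) * c a b) s (m - (BB c w).card) w y z0 n) :
    ∃ (g : (ZMod m)ˣ) (z0 : ℤ) (n : V → ℤ),
      RL (fun a b => (g : ZMod m) * c a b) s (m - (BB c w).card) w y z0 n ∧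
        PosT (fun a b => (g : ZMod m) * c a b) s w y n := by
  obtain ⟨g, z0, n, R⟩ := hroot
  obtain ⟨h', -, hB, -⟩ := ws_scale h g
  have he2 := h.e2
  have hm1 := h.m1
  have hs4 := h.s4
  rcases wstruct h'.toWS0 R (by rw [hB]; omega) with P | P
  · exact ⟨g, z0, n, R, P⟩
  · have hfun : (fun a b => ((-g : (ZMod m)ˣ) : ZMod m) * c a b) =
        fun a b => - ((g : ZMod m) * c a b) := by
      funext a b
      rw [Units.val_neg, neg_mul]
    refine ⟨-g, m - z0, fun x => - n x, ?_, ?_⟩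
    · rw [hfun]
      exact rl_neg R
    · refine rb_posT_congr ?_ P
      rw [(ws_scale h (-g)).2.2.1, hB]

theorem root_beta [NeZero m] (h : WS c s w) (hn : NumE m s) {y : V} (hy : y ∈ BB c w)
    (hroot : ∃ (g : (ZMod m)ˣ) (z0 : ℤ) (n : V → ℤ),
      RL (fun a b => (g : ZMod m) * c a b) s (m - (BB c w).card) w y z0 n) :
    (X0 c w y).card + s + 1 ≤ m := by
  obtain ⟨g, z0, n, R, P⟩ := rb_norm h hroot
  obtain ⟨h', hA, hB, hX⟩ := ws_scale h g
  have he2 := h.e2
  have hm1 := h.m1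
  have hs4 := h.s4
  have hem : m - (BB c w).card + (BB c w).card = m := by omega
  have hhole := hole h' hn R P
  obtain ⟨-, -, -, hE0, hN0, -⟩ := posT_facts h'.toWS0 R P
  have hz0 : (s : ℤ) + 2 ≤ z0 := by linarith
  have hbeta := beta_le h'.toWS0 R (by rw [hB]; exact hem) P hz0
  rw [hX y] at hbeta
  have h1 : ((X0 c w y).card : ℤ) + s + 1 ≤ m := by linarith
  exact_mod_cast h1

theorem ws_falseG [NeZero m] (h : WS c s w) (hn : NumE m s) (h5 : m ≤ 3 * s ∨ 5 ≤ s)
    (h20 : m ≠ 20 ∨ s ≠ 6) (h17 : ¬ (m = 17 ∧ s = 5 ∧ (BB c w).card = 8)) (X1 : V → Finset V)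
    (hX1 : ∀ y ∈ BB c w, X1 y ⊆ X0 c w y) (hsum : s * (AA c w).card ≤ ∑ y ∈ BB c w, (X1 y).card)
    (hroot : ∀ y ∈ BB c w, m ≤ (X1 y).card + (BB c w).card →
      ∃ (g : (ZMod m)ˣ) (z0 : ℤ) (n : V → ℤ),
        RL (fun a b => (g : ZMod m) * c a b) s (m - (BB c w).card) w y z0 n) : False := by
  have he1 := h.e1
  have he2 := h.e2
  have he3 := h.e3
  have hm1 := h.m1
  have hm2 := h.m2
  have hs4 := h.s4
  have hc := cardAB h.toWS0
  have hem : m - (BB c w).card + (BB c w).card = m := by omega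
  obtain ⟨k, hk⟩ := Nat.exists_eq_add_of_le (show (BB c w).card + 1 ≤ m by omega)
  have hk1 : m - (BB c w).card - 1 = k := by omega
  have hA4 : ((AA c w).card : ℤ) = m + s - 1 - (BB c w).card := by omega
  have hk4 : (k : ℤ) = m - (BB c w).card - 1 := by omega
  -- a root with many elements of X1
  obtain ⟨y, hyB, hbad⟩ : ∃ y ∈ BB c w, m ≤ (X1 y).card + (BB c w).card := by
    by_contra hcon
    push Not at hcon
    have h1 : ∀ y ∈ BB c w, (X1 y).card ≤ k := by
      intro y hy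
      have h2 := hcon y hy
      omega
    have h2 := Finset.sum_le_card_nsmul _ _ _ h1
    rw [smul_eq_mul] at h2
    have h3 : (s : ℤ) * (AA c w).card ≤ (BB c w).card * k := by exact_mod_cast hsum.trans h2
    rw [hA4, hk4] at h3
    have hem2 : ((BB c w).card : ℤ) + 1 ≤ 2 * s := by exact_mod_cast he2
    nlinarith
  obtain ⟨g, z0, n, R, P⟩ := rb_norm h (hroot y hyB hbad)
  obtain ⟨h', hA, hB, hX⟩ := ws_scale h g
  have hhole := hole h' hn R P
  obtain ⟨-, -, -, hE0, hN0, -⟩ := posT_facts h'.toWS0 R P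
  have hz0 : (s : ℤ) + 2 ≤ z0 := by linarith
  -- the other roots do not have many elements
  have hnb : ∀ y1 ∈ (BB c w).erase y, (X1 y1).card ≤ k := by
    intro y1 hy1
    obtain ⟨hne, hy1B⟩ := Finset.mem_erase.1 hy1
    by_contra hcon
    obtain ⟨g1, z1, n1, R1, P1⟩ := rb_norm h (hroot y1 hy1B (by omega))
    have hfun : (fun a b => ((g1 * g⁻¹ : (ZMod m)ˣ) : ZMod m) * ((g : ZMod m) * c a b)) =
        fun a b => (g1 : ZMod m) * c a b := by
      funext a b
      rw [← mul_assoc, ← Units.val_mul, inv_mul_cancel_right]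
    refine far_unique h'.toWS0 R P hz0 (g1 * g⁻¹) hne (μ1 := m - (BB c w).card) (z1 := z1) (n1 := n1)
      ?_ ?_
    · rw [hfun]; exact R1
    · rw [hfun]; exact P1
  have hbeta := beta_le h'.toWS0 R (by rw [hB]; exact hem) P hz0
  rw [hX y] at hbeta
  have hX1y : ((X1 y).card : ℤ) ≤ (X0 c w y).card := by
    exact_mod_cast Finset.card_le_card (hX1 y hyB)
  -- the counting
  rw [← Finset.add_sum_erase _ _ hyB] at hsum
  have hsum2 := Finset.sum_le_card_nsmul _ _ _ hnb
  rw [smul_eq_mul] at hsum2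
  have hce := Finset.card_erase_add_one hyB
  have hsum3 : s * (AA c w).card ≤ (X1 y).card + ((BB c w).erase y).card * k :=
    hsum.trans (Nat.add_le_add_left hsum2 _)
  have hsum4 : (s : ℤ) * (AA c w).card ≤ (X1 y).card + ((BB c w).erase y).card * k := by
    exact_mod_cast hsum3
  have hE4 : (((BB c w).erase y).card : ℤ) = (BB c w).card - 1 := by omega
  rw [hA4, hE4, hk4] at hsum4
  obtain ⟨F, hexL, hxH, hii⟩ := far h' hn R P
  rw [hB] at hii
  set e : ℤ := ((BB c w).card : ℤ) with he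
  set EEv := EE (fun a b => (g : ZMod m) * c a b) w y n with hEE
  set NNv := NN (fun a b => (g : ZMod m) * c a b) w y n with hNN
  have hei : e + 1 ≤ 2 * s := by rw [he]; exact_mod_cast he2
  have hone : (1 + (2 * s - 1 - e)) * ((2 * s - 1 - e) + m - 3 * s) - s * (m - 3 * s - 1) ≤
      s - 1 - (2 * s - 1 - e) - NNv - EEv := by
    nlinarith
  by_cases hcase : m ≤ 3 * s
  · -- impossible
    have h1 : (m : ℤ) = 3 * s ∨ (m : ℤ) = 3 * s - 1 ∨ (m : ℤ) = 3 * s - 2 := by omega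
    have hs4' : (4 : ℤ) ≤ s := by exact_mod_cast hs4
    obtain ⟨i, hi⟩ : ∃ i : ℤ, i = 2 * s - 1 - e := ⟨_, rfl⟩
    have hi0 : 0 ≤ i := by omega
    rw [← hi] at hone
    rcases h1 with h1 | h1 | h1 <;> rw [h1] at hone <;> nlinarith
  · push Not at hcase
    have hs5 : 5 ≤ s := by
      rcases h5 with h6 | h6
      · omega
      · exact h6
    refine FR.no_far h'.sym h'.zsf F hs5 (by omega) (fun h6 h7 => ?_) (fun h6 => ?_) ?_
    · rcases h20 with h8 | h8
      · exact h8 (by omega)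
      · exact h8 h7
    · rw [hii] at h6
      exact h17 ⟨h6.1, by omega, by omega⟩
    · rw [hii, hexL, hxH]
      exact hone

end M2
end ZS44129
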