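import Pool.Agent.Work.MP_44129c_co.M2.F3B
import Pool.Agent.Work.MP_44129c_co.M2.Choose
import Pool.Agent.Work.MP_44129c_co.M2.RB

/-!
# MP_44129c_co/M2, Excl (size M-L): the problematic types with `H` of order 3, `s`, 4 are impossible

`e = |BB|`, `|AA| = m + s - 1 - e ≥ m - s`, `|AA| ≥ m - e`, `M + 2 ≤ (m - e) + s` (`ew_card`: `s + 1 ≤ M`, `e ≤ 2 s - 1`).
PROOF of `full_false` (`m ≤ 3 s + 1`): `lift_AP` and `root_beta` (`ws_of_ws0`, `numE_of`): `|X0 c w z| + s + 1 ≤ m`, but `X0 c w z ⊇ XK c w z = AA c w` has at least `m - s` elements.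
`full_prob`: so by `prob_or_aper` with `μ = m - e` every `z ∈ BB` with `XK c w z = AA c w` has a subgroup `H'` with `c w z ∉ H'`, `c z x ∈ H'` for all `x ∈ AA`, `PT c s w z H'`.
PROOF of `f3_false`.  `f3_data`: `Z`, `|Z| = s - 2 ≥ 4` (`s` even, `s ≥ 6`).  For `z ∈ Z` `full_prob` gives `H'`.  Its type: not index 2 (`f3_data`); not order 3 (`H' = H` by `sub_unique`, but `c z x ∉ H`, `AA` nonempty); not order 4 (`m = 16 ≠ 3 s`).  So `|H'| = s`, and `outK (c w) (BB.erase z) H'` has one element, `c w z ∉ H'`.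
All these `H'` are equal (`sub_unique`), so `Z ⊆ outK (c w) BB H'`, which has at most `2` elements: contradiction.
PROOF of `fq_false`.  `Q` has order `s`, index 3.  `M ∈ Q`: `s` is even, `M = 3 (s / 2)` and `3 • a ∈ Q` for every `a` (index 3: Lagrange in the quotient).  So `c x y ∈ Q` for all `x ∈ AA` (`x ∈ XK`: hypothesis; otherwise `c y x ∈ {0, M}`).  `outK (c w) (BB.erase y) Q = {b1}`.  `coreA` (`2 s ≤ m + 1`): for every `x ∈ AA` some `z ∈ outK (c w) BB Q = {y, b1}` has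
`c x z ∉ Q`: `z = b1`.  So `c b1 x ∉ Q` for all `x ∈ AA`, `XK c w b1 = AA c w` (`0, M ∈ Q`).  `full_prob` for `b1`: `H'`.  Order `s`: `H' = Q`: contradiction.  Order 3: `f3_false` (`|XK c w b1| = |AA| ≥ 2`).  Order 4: `m ≠ 16`.  Index 2: all `c w b`, `b ∈ BB.erase b1`, in `H'`: `L = Q ⊓ H'`: `|L|` divides `s` and `3 s / 2`, so `|L| ≠ s`,
`2 |L| ≤ s`; `outK (c w) BB L ⊆ {y, b1}`; `coset_w`: `s + 1 ≤ |L| + 2 ≤ s / 2 + 2`: `s ≤ 2`: contradiction.
PROOF of `f4_false` (`m = 16`, `s = 5`, `M = 8`).  `P4` has order 4; `a + a = 0 → a ∈ P4` (`P4` = all `a` with `4 • a = 0`, or: an element of order 2 exists in `P4`, `two_tor`).  As before `c x y ∈ P4` for all `x ∈ AA`; `outK (c w) (BB.erase y) P4 = {b1, b2}`; `coreA` (`8 ≤ 17`): `6 ≤ 4 + #…`: both `b1`, `b2`: `c x b_i ∉ P4` for all `x ∈ AA`, so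
`XK c w b_i = AA c w`.  `full_prob` for `b1`, `b2`: not order 4 (`H' = P4`), `m ≠ 3 s`: index 2 for both, the same `H'` (`sub_index_unique`): `c w b1 ∉ H'`, and `c w b1 ∈ H'` (`b1 ∈ BB.erase b2`): contradiction.
-/

set_option autoImplicit false

namespace ZS44129
namespace M2

open Finset E W

variable {V : Type} [Fintype V] [DecidableEq V] {m : ℕ} {c : V → V → ZMod m} {s M : ℕ} {w : V}

private theorem ex_ne (h : EW c s M w) : ∃ x, x ∈ AA c w := by
  have hcard := ew_card h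
  have s5 := h.s5
  have m1 := h.m1
  have h1 : 0 < (AA c w).card := by omega
  exact card_pos.1 h1

theorem full_false [NeZero m] (h : EW c s M w) (hm : m ≤ 3 * s + 1) {z : V} (hz : z ∈ BB c w)
    (hX : XK c w z = AA c w) (hap : AP c s (m - (BB c w).card) w z) : False := by
  have hcard := ew_card h
  have hM := h.hM
  have s5 := h.s5
  have m1 := h.m1
  have e2 := h.e2
  have hroot := lift_AP h hz (m - (BB c w).card) (by omega) (by omega) hap
  have h1 := root_beta (ws_of_ws0 h.toWS0 hm) (numE_of h.s4 h.m1 h.m2 (Or.inr h.s5) h.h20) hz hroot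
  have h2 : (AA c w).card ≤ (X0 c w z).card := by
    refine card_le_card fun x hx => ?_
    have h3 := hx
    rw [← hX, mem_XK] at h3
    unfold X0
    refine mem_filter.2 ⟨hx, fun h4 => h3.2 ?_⟩
    rw [h4, add_zero]
  omega

theorem full_prob [NeZero m] (h : EW c s M w) (hm : m ≤ 3 * s + 1) {z : V} (hz : z ∈ BB c w)
    (hX : XK c w z = AA c w) :
    ∃ H : AddSubgroup (ZMod m), c w z ∉ H ∧ (∀ x ∈ AA c w, c z x ∈ H) ∧ PT c s w z H := by
  have hcard := ew_card h
  have hM := h.hM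
  have s5 := h.s5
  have m1 := h.m1
  have e2 := h.e2
  rcases prob_or_aper h hz (m - (BB c w).card) (by omega) (by omega) (by rw [hX]; omega) with h1 | h1
  · rw [hX] at h1
    exact h1
  · exact (full_false h hm hz hX h1).elim

theorem f3_false [NeZero m] (h : EW c s M w) (hm : m = 3 * s) (H : AddSubgroup (ZMod m))
    (hH : Nat.card H = 3) {y : V} (hy : y ∈ BB c w) (hyH : c w y ∉ H) (hX : ∀ x ∈ XK c w y, c y x ∈ H)
    (hX2 : 2 ≤ (XK c w y).card) (hk : (outK (c w) ((BB c w).erase y) H).card + 2 = s) : False := by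
  have hcard := ew_card h
  have s5 := h.s5
  obtain ⟨Z, hZ, hZc, hZA, hZX, hZ2⟩ := f3_data h hm H hH hy hyH hX hX2 hk
  obtain ⟨x0, hx0⟩ := ex_ne h
  have key : ∀ z ∈ Z, ∃ H' : AddSubgroup (ZMod m), Nat.card H' = s ∧ c w z ∉ H' ∧
      (outK (c w) ((BB c w).erase z) H').card = 1 := by
    intro z hz
    obtain ⟨H', h1, h2, h3⟩ := full_prob h (by omega) (hZ hz) (hZX z hz)
    rcases h3 with h3 | h3 | h3 | h3
    · exact (hZ2 z hz H' h3.1 h3.2).elim
    · have h4 : H' = H := sub_unique _ _ (by rw [h3.2.1, hH])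
      refine (hZA z hz x0 hx0 ?_).elim
      rw [← h4]
      exact h2 x0 hx0
    · exact ⟨H', h3.2.1, h1, h3.2.2⟩
    · omega
  have hne : 0 < Z.card := by omega
  obtain ⟨z1, hz1⟩ := card_pos.1 hne
  obtain ⟨H1, hH1, -, hH1o⟩ := key z1 hz1
  have hsub : Z ⊆ insert z1 (outK (c w) ((BB c w).erase z1) H1) := by
    intro z hz
    rw [mem_insert]
    by_cases hzz : z = z1
    · exact Or.inl hzz
    · right
      obtain ⟨H', hH', hz', -⟩ := key z hz
      have h4 : H' = H1 := sub_unique _ _ (by rw [hH', hH1])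
      exact mem_outK.2 ⟨mem_erase.2 ⟨hzz, hZ hz⟩, h4 ▸ hz'⟩
  have h5 := (card_le_card hsub).trans (card_insert_le _ _)
  omega

theorem fq_false [NeZero m] (h : EW c s M w) (hm : m = 3 * s) (Q : AddSubgroup (ZMod m))
    (hQ : Nat.card Q = s) {y : V} (hy : y ∈ BB c w) (hyQ : c w y ∉ Q) (hX : ∀ x ∈ XK c w y, c y x ∈ Q)
    (hk : (outK (c w) ((BB c w).erase y) Q).card = 1) : False := by
  have hM := h.hM
  have hcard := ew_card h
  have s5 := h.s5
  obtain ⟨x0, hx0⟩ := ex_ne h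
  have hidx : Q.index = 3 := by
    have h1 := card_mul_index' Q
    rw [hQ] at h1
    have h2 : s * Q.index = s * 3 := by omega
    exact Nat.eq_of_mul_eq_mul_left (by omega) h2
  have htor : ∀ a : ZMod m, a + a = 0 → a ∈ Q := by
    intro a ha
    have h1 := AddSubgroup.nsmul_index_mem Q a
    rw [hidx] at h1
    have h2 : (3 : ℕ) • a = a := by
      rw [show (3 : ℕ) • a = a + (a + a) by rw [succ_nsmul, two_nsmul]; abel, ha, add_zero]
    rwa [h2] at h1
  have hall : ∀ x ∈ AA c w, c x y ∈ Q := by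
    intro x hx
    rw [h.sym x y]
    by_cases h1 : c y x + c y x = 0
    · exact htor _ h1
    · exact hX x (mem_XK.2 ⟨hx, h1⟩)
  obtain ⟨b1, hb1⟩ := card_eq_one.1 hk
  have hb1m : b1 ∈ outK (c w) ((BB c w).erase y) Q := by
    rw [hb1]
    exact mem_singleton_self b1
  obtain ⟨hb1e, hb1Q⟩ := mem_outK.1 hb1m
  have hb1B : b1 ∈ BB c w := mem_of_mem_erase hb1e
  have hout : ∀ z ∈ BB c w, c w z ∉ Q → z ≠ y → z = b1 := by
    intro z hz hzQ hzy
    have h1 : z ∈ outK (c w) ((BB c w).erase y) Q := mem_outK.2 ⟨mem_erase.2 ⟨hzy, hz⟩, hzQ⟩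
    rw [hb1] at h1
    exact mem_singleton.1 h1
  have hnb : ∀ x ∈ AA c w, c x b1 ∉ Q := by
    intro x hx
    have h1 := coreA h.toWS0 Q (by rw [hQ]; omega) hx
    rw [hQ] at h1
    have h2 : 0 < (outK (fun z => c x z) (outK (c w) (BB c w) Q) Q).card := by omega
    obtain ⟨z, hz⟩ := card_pos.1 h2
    obtain ⟨h3, h4⟩ := mem_outK.1 hz
    obtain ⟨h5, h6⟩ := mem_outK.1 h3
    have h7 : z ≠ y := by
      rintro rfl
      exact h4 (hall x hx)
    rw [← hout z h5 h6 h7]
    exact h4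
  have hXb : XK c w b1 = AA c w := by
    refine subset_antisymm (fun x hx => (mem_XK.1 hx).1) fun x hx => mem_XK.2 ⟨hx, fun h1 => ?_⟩
    refine hnb x hx ?_
    rw [h.sym x b1]
    exact htor _ h1
  obtain ⟨H', g1, g2, g3⟩ := full_prob h (by omega) hb1B hXb
  rcases g3 with g3 | g3 | g3 | g3
  · have hcH : 2 * Nat.card H' = m := by
      have h1 := card_mul_index' H'
      rw [g3.1] at h1
      omega
    have hLQ : Nat.card (Q ⊓ H' : AddSubgroup (ZMod m)) ∣ s := by
      rw [← hQ]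
      exact AddSubgroup.card_dvd_of_le inf_le_left
    have hLH : Nat.card (Q ⊓ H' : AddSubgroup (ZMod m)) ∣ Nat.card H' :=
      AddSubgroup.card_dvd_of_le inf_le_right
    have hL2 : 2 * Nat.card (Q ⊓ H' : AddSubgroup (ZMod m)) ≤ s := by
      obtain ⟨k, hk1⟩ := hLQ
      obtain ⟨l, hl⟩ := hLH
      obtain ⟨L, hL⟩ : ∃ L, L = Nat.card (Q ⊓ H' : AddSubgroup (ZMod m)) := ⟨_, rfl⟩
      rw [← hL] at hk1 hl ⊢
      rcases Nat.lt_or_ge k 2 with h2 | h2
      · interval_cases k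
        · omega
        · rw [mul_one] at hk1
          rw [← hk1] at hl
          have h3 : s * (2 * l) = s * 3 := by
            calc s * (2 * l) = 2 * (s * l) := by ring
              _ = m := by rw [← hl, hcH]
              _ = s * 3 := by omega
          have h4 := Nat.eq_of_mul_eq_mul_left (show 0 < s by omega) h3
          omega
      · have h3 := Nat.mul_le_mul_left L h2
        omega
    have h1 := coset_w h.toWS0 (Q ⊓ H') (by omega)
    have h2 : outK (c w) (BB c w) (Q ⊓ H') ⊆ {y, b1} := by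
      intro z hz
      obtain ⟨h3, h4⟩ := mem_outK.1 hz
      rw [mem_insert, mem_singleton]
      by_cases hzy : z = y
      · exact Or.inl hzy
      right
      by_contra hzb
      refine h4 (AddSubgroup.mem_inf.2 ⟨?_, g3.2 z (mem_erase.2 ⟨hzb, h3⟩)⟩)
      by_contra hzQ
      exact hzb (hout z h3 hzQ hzy)
    have h3 := (card_le_card h2).trans (card_le_two)
    omega
  · refine f3_false h hm H' g3.2.1 hb1B g1 (fun x hx => g2 x (mem_XK.1 hx).1) ?_ g3.2.2
    rw [hXb]
    have m1 := h.m1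
    have e2 := h.e2
    omega
  · have h4 : H' = Q := sub_unique _ _ (by rw [g3.2.1, hQ])
    refine hnb x0 hx0 ?_
    rw [h.sym x0 b1, ← h4]
    exact g2 x0 hx0
  · omega

theorem f4_false [NeZero m] (h : EW c s M w) (hm : m = 16) (hs : s = 5) (P4 : AddSubgroup (ZMod m))
    (hP : Nat.card P4 = 4) {y : V} (hy : y ∈ BB c w) (hyP : c w y ∉ P4)
    (hX : ∀ x ∈ XK c w y, c y x ∈ P4)
    (hk : (outK (c w) ((BB c w).erase y) P4).card = 2) : False := by
  have hM := h.hM
  have hcard := ew_card h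
  obtain ⟨x0, hx0⟩ := ex_ne h
  have hidx : P4.index = 4 := by
    have h1 := card_mul_index' P4
    rw [hP] at h1
    omega
  have htor : ∀ a : ZMod m, a + a = 0 → a ∈ P4 := by
    intro a ha
    rcases two_tor hM ha with h1 | h1
    · rw [h1]
      exact P4.zero_mem
    · have h2 := AddSubgroup.nsmul_index_mem P4 (2 : ZMod m)
      rw [hidx] at h2
      have h3 : (4 : ℕ) • (2 : ZMod m) = a := by
        have h4 : M = 8 := by omega
        rw [h1, h4, nsmul_eq_mul]
        norm_num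
      rwa [h3] at h2
  have hall : ∀ x ∈ AA c w, c x y ∈ P4 := by
    intro x hx
    rw [h.sym x y]
    by_cases h1 : c y x + c y x = 0
    · exact htor _ h1
    · exact hX x (mem_XK.2 ⟨hx, h1⟩)
  obtain ⟨b1, b2, hb12, hb⟩ := card_eq_two.1 hk
  have hb1m : b1 ∈ outK (c w) ((BB c w).erase y) P4 := by
    rw [hb]
    exact mem_insert_self b1 _
  have hb2m : b2 ∈ outK (c w) ((BB c w).erase y) P4 := by
    rw [hb]
    exact mem_insert_of_mem (mem_singleton_self b2)
  have hb1B : b1 ∈ BB c w := mem_of_mem_erase (mem_outK.1 hb1m).1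
  have hb2B : b2 ∈ BB c w := mem_of_mem_erase (mem_outK.1 hb2m).1
  have hnb : ∀ x ∈ AA c w, c x b1 ∉ P4 ∧ c x b2 ∉ P4 := by
    intro x hx
    have h1 := coreA h.toWS0 P4 (by rw [hP]; omega) hx
    rw [hP] at h1
    have h2 : outK (fun z => c x z) (outK (c w) (BB c w) P4) P4 ⊆ {b1, b2} := by
      intro z hz
      obtain ⟨h3, h4⟩ := mem_outK.1 hz
      obtain ⟨h5, h6⟩ := mem_outK.1 h3
      have h7 : z ≠ y := by
        rintro rfl
        exact h4 (hall x hx)
      rw [← hb]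
      exact mem_outK.2 ⟨mem_erase.2 ⟨h7, h5⟩, h6⟩
    have h3 := eq_of_subset_of_card_le h2 (by
      rw [card_pair hb12]
      omega)
    constructor
    · have h4 : b1 ∈ outK (fun z => c x z) (outK (c w) (BB c w) P4) P4 := by
        rw [h3]
        exact mem_insert_self b1 _
      exact (mem_outK.1 h4).2
    · have h4 : b2 ∈ outK (fun z => c x z) (outK (c w) (BB c w) P4) P4 := by
        rw [h3]
        exact mem_insert_of_mem (mem_singleton_self b2)
      exact (mem_outK.1 h4).2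
  have hfull : ∀ b ∈ BB c w, (∀ x ∈ AA c w, c x b ∉ P4) →
      ∃ H' : AddSubgroup (ZMod m), H'.index = 2 ∧ c w b ∉ H' ∧ ∀ b' ∈ (BB c w).erase b, c w b' ∈ H' := by
    intro b hbB hbP
    have hXb : XK c w b = AA c w := by
      refine subset_antisymm (fun x hx => (mem_XK.1 hx).1) fun x hx => mem_XK.2 ⟨hx, fun h1 => ?_⟩
      refine hbP x hx ?_
      rw [h.sym x b]
      exact htor _ h1
    obtain ⟨H', g1, g2, g3⟩ := full_prob h (by omega) hbB hXb
    rcases g3 with g3 | g3 | g3 | g3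
    · exact ⟨H', g3.1, g1, g3.2⟩
    · omega
    · omega
    · have h4 : H' = P4 := sub_unique _ _ (by rw [g3.2.2.1, hP])
      refine (hbP x0 hx0 ?_).elim
      rw [h.sym x0 b, ← h4]
      exact g2 x0 hx0
  obtain ⟨H1, i1, i2, -⟩ := hfull b1 hb1B (fun x hx => (hnb x hx).1)
  obtain ⟨H2, j1, -, j3⟩ := hfull b2 hb2B (fun x hx => (hnb x hx).2)
  have h4 : H1 = H2 := sub_index_unique _ _ (by rw [i1, j1])
  refine i2 ?_
  rw [h4]
  exact j3 b1 (mem_erase.2 ⟨hb12, hb1B⟩)

end M2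
end ZS44129
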