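import Mathlib
import Pool.Agent.Work.MP_44129c_co.P1.KnA

/-!
# MP_44129c_co/M2, Grow (size S-M): subset sums modulo a subgroup, double stars with centre in the class

PROOFS.  `dav`: order `S` as `s_1, …, s_k` (`k = |S| ≥ H.index`); the `k + 1` partial sums `0, f s_1, f s_1 + f s_2, …` lie in `H.index < k + 1` cosets, two are in the same coset, their difference is the sum over a nonempty subset.  (Induction is awkward; e.g. `S.equivFin` or a list without duplicates and
`Finset.exists_ne_map_eq_of_card_lt_of_maps_to` with values in `ZMod m ⧸ H`, whose cardinality is `H.index`.)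
`grow`: induction over `S`.  Let `Cos S` be the set of the `x` with `x - g ∈ H` for some `g ∈ cube f S`, a union of cosets of `H`.  Claim `|Cos S| ≥ (|S| + 1) |H|`.  Step `insert i S`: `Cos (insert i S) = Cos S ∪ (Cos S + f i)`.  If it is equal to `Cos S` then `Cos S + f i ⊆ Cos S`, so `Cos S + f i = Cos S` (finite) and
`- f i ∈ Cos S` (as `0 ∈ Cos S`): `- f i = ∑_{T} f + h`, `T ⊆ S`, so `∑_{insert i T} f ∈ H`: contradiction.  Otherwise it is larger, and the difference is a nonempty union of cosets of `H`, so it has at least `|H|` elements.  (The hypothesis for `S` follows from the one for `insert i S`.)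
`p3`: `H` of order 3, `a, b ∈ H`, `a ≠ 0`, `b ≠ 0`: `b = a` or `b = - a` (`H = {0, a, 2 a}`, `3 a = 0`): `{0, a, b, a + b}` is `{0, a, 2 a}`, in both cases all of `H`.
-/

set_option autoImplicit false

namespace ZS44129
namespace M2

open Finset

variable {m : ℕ} {ι : Type} [DecidableEq ι]

private theorem cardH (H : AddSubgroup (ZMod m)) [NeZero m] [DecidablePred (fun x => x ∈ H)] :
    ((Finset.univ : Finset (ZMod m)).filter (fun x => x ∈ H)).card = Nat.card H := by
  rw [Nat.card_eq_fintype_card, Fintype.card_subtype]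

private theorem coset_gap [NeZero m] (H : AddSubgroup (ZMod m)) {A B : Finset (ZMod m)} (hAB : A ⊆ B)
    (hne : A ≠ B) (hA : ∀ x ∈ A, ∀ h ∈ H, x + h ∈ A) (hB : ∀ x ∈ B, ∀ h ∈ H, x + h ∈ B) :
    A.card + Nat.card H ≤ B.card := by
  classical
  obtain ⟨x, hxB, hxA⟩ : ∃ x ∈ B, x ∉ A := by
    by_contra hcon
    push Not at hcon
    exact hne (Finset.Subset.antisymm hAB hcon)
  have h1 : (((Finset.univ : Finset (ZMod m)).filter (fun y => y ∈ H)).image (fun y => x + y)) ⊆ B \ A := by
    intro y hy
    rw [Finset.mem_image] at hy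
    obtain ⟨h, hh, rfl⟩ := hy
    rw [Finset.mem_filter] at hh
    rw [Finset.mem_sdiff]
    refine ⟨hB x hxB h hh.2, fun hc => hxA ?_⟩
    have h2 := hA _ hc (-h) (H.neg_mem hh.2)
    rw [add_neg_cancel_right] at h2
    exact h2
  have h2 := Finset.card_le_card h1
  rw [Finset.card_image_of_injective _ (add_right_injective x), cardH, Finset.card_sdiff_of_subset hAB] at h2
  have h3 := Finset.card_le_card hAB
  omega

open Classical in
private theorem grow' [NeZero m] (f : ι → ZMod m) (H : AddSubgroup (ZMod m)) (S : Finset ι) :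
    (∀ T ⊆ S, T.Nonempty → ∑ i ∈ T, f i ∉ H) →
    (S.card + 1) * Nat.card H ≤
      ((Finset.univ : Finset (ZMod m)).filter (fun x => ∃ T ⊆ S, x - ∑ i ∈ T, f i ∈ H)).card := by
  induction S using Finset.induction_on with
  | empty =>
    intro _
    rw [Finset.card_empty, zero_add, one_mul, ← cardH H]
    apply Finset.card_le_card
    intro x hx
    rw [Finset.mem_filter] at hx ⊢
    exact ⟨Finset.mem_univ _, ∅, Finset.Subset.refl _, by simpa using hx.2⟩
  | insert i S hi ih =>
    intro h
    have hS : ∀ T ⊆ S, T.Nonempty → ∑ i ∈ T, f i ∉ H := fun T hT hT' =>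
      h T (hT.trans (Finset.subset_insert i S)) hT'
    have h1 := ih hS
    set A := (Finset.univ : Finset (ZMod m)).filter (fun x => ∃ T ⊆ S, x - ∑ i ∈ T, f i ∈ H) with hAdef
    set B := (Finset.univ : Finset (ZMod m)).filter (fun x => ∃ T ⊆ insert i S, x - ∑ i ∈ T, f i ∈ H)
      with hBdef
    have memA : ∀ x, x ∈ A ↔ ∃ T ⊆ S, x - ∑ i ∈ T, f i ∈ H := fun x => by
      rw [hAdef, Finset.mem_filter]
      exact ⟨fun h => h.2, fun h => ⟨Finset.mem_univ _, h⟩⟩
    have memB : ∀ x, x ∈ B ↔ ∃ T ⊆ insert i S, x - ∑ i ∈ T, f i ∈ H := fun x => by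
      rw [hBdef, Finset.mem_filter]
      exact ⟨fun h => h.2, fun h => ⟨Finset.mem_univ _, h⟩⟩
    have hAB : A ⊆ B := by
      intro x hx
      rw [memA] at hx
      rw [memB]
      obtain ⟨T, hT, hx⟩ := hx
      exact ⟨T, hT.trans (Finset.subset_insert i S), hx⟩
    have key : ∀ (U : Finset ι) (x : ZMod m) (g : ZMod m), g ∈ H → x - ∑ i ∈ U, f i ∈ H →
        x + g - ∑ i ∈ U, f i ∈ H := by
      intro U x g hg hx
      have : x + g - ∑ i ∈ U, f i = (x - ∑ i ∈ U, f i) + g := by ring
      rw [this]
      exact H.add_mem hx hg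
    have hA : ∀ x ∈ A, ∀ g ∈ H, x + g ∈ A := by
      intro x hx g hg
      rw [memA] at hx ⊢
      obtain ⟨T, hT, hx⟩ := hx
      exact ⟨T, hT, key T x g hg hx⟩
    have hB : ∀ x ∈ B, ∀ g ∈ H, x + g ∈ B := by
      intro x hx g hg
      rw [memB] at hx ⊢
      obtain ⟨T, hT, hx⟩ := hx
      exact ⟨T, hT, key T x g hg hx⟩
    have hne : A ≠ B := by
      intro hEq
      have hcl : ∀ x ∈ A, x + f i ∈ A := by
        intro x hx
        rw [hEq, memB]
        rw [memA] at hx
        obtain ⟨T, hT, hx⟩ := hx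
        refine ⟨insert i T, Finset.insert_subset_insert i hT, ?_⟩
        rw [Finset.sum_insert (fun hc => hi (hT hc))]
        have : x + f i - (f i + ∑ i ∈ T, f i) = x - ∑ i ∈ T, f i := by ring
        rw [this]
        exact hx
      have hn : ∀ n : ℕ, (n : ZMod m) * f i ∈ A := by
        intro n
        induction n with
        | zero =>
          rw [memA]
          exact ⟨∅, Finset.empty_subset _, by simp⟩
        | succ n ihn =>
          have := hcl _ ihn
          have h3 : ((n + 1 : ℕ) : ZMod m) * f i = (n : ZMod m) * f i + f i := by push_cast; ring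
          rw [h3]
          exact this
      have h4 := hn (m - 1)
      have h5 : ((m - 1 : ℕ) : ZMod m) * f i = - f i := by
        have hm : 1 ≤ m := Nat.one_le_iff_ne_zero.mpr (NeZero.ne m)
        rw [Nat.cast_sub hm, ZMod.natCast_self]
        push_cast
        ring
      rw [h5, memA] at h4
      obtain ⟨T, hT, h4⟩ := h4
      apply h (insert i T) (Finset.insert_subset_insert i hT) (Finset.insert_nonempty i T)
      rw [Finset.sum_insert (fun hc => hi (hT hc))]
      have h6 := H.neg_mem h4
      have h7 : -(-f i - ∑ i ∈ T, f i) = f i + ∑ i ∈ T, f i := by ring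
      rw [h7] at h6
      exact h6
    have h2 := coset_gap H hAB hne hA hB
    rw [Finset.card_insert_of_notMem hi]
    calc (S.card + 1 + 1) * Nat.card H = (S.card + 1) * Nat.card H + Nat.card H := by ring
      _ ≤ A.card + Nat.card H := Nat.add_le_add_right h1 _
      _ ≤ B.card := h2

theorem dav [NeZero m] (f : ι → ZMod m) (S : Finset ι) (H : AddSubgroup (ZMod m)) (h : H.index ≤ S.card) :
    ∃ T ⊆ S, T.Nonempty ∧ ∑ i ∈ T, f i ∈ H := by
  classical
  by_contra hcon
  push Not at hcon
  have h1 := grow' f H S (fun T hT hT' => hcon T hT hT')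
  have h2 : ((Finset.univ : Finset (ZMod m)).filter (fun x => ∃ T ⊆ S, x - ∑ i ∈ T, f i ∈ H)).card ≤ m := by
    refine le_trans (Finset.card_filter_le _ _) ?_
    rw [Finset.card_univ, ZMod.card]
  have h3 : Nat.card H * H.index = m := by
    have := AddSubgroup.card_mul_index H
    rw [Nat.card_eq_fintype_card (α := ZMod m), ZMod.card] at this
    exact this
  have h4 : 0 < Nat.card H := Nat.card_pos
  have h5 : (S.card + 1) * Nat.card H ≤ H.index * Nat.card H := by
    rw [mul_comm H.index, h3]
    exact h1.trans h2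
  have h6 := Nat.le_of_mul_le_mul_right h5 h4
  omega

open Classical in
theorem grow [NeZero m] (f : ι → ZMod m) (S : Finset ι) (H : AddSubgroup (ZMod m))
    (h : ∀ T ⊆ S, T.Nonempty → ∑ i ∈ T, f i ∉ H) :
    (S.card + 1) * Nat.card H ≤
      ((Finset.univ : Finset (ZMod m)).filter (fun x => ∃ T ⊆ S, x - ∑ i ∈ T, f i ∈ H)).card :=
  grow' f H S h

theorem p3 [NeZero m] (H : AddSubgroup (ZMod m)) (hH : Nat.card H = 3) {a b x : ZMod m} (ha : a ∈ H)
    (ha0 : a ≠ 0) (hb : b ∈ H) (hb0 : b ≠ 0) (hx : x ∈ H) : x = 0 ∨ x = a ∨ x = b ∨ x = a + b := by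
  classical
  have h3 : a + a + a = 0 := by
    have h1 : Nat.card H • (⟨a, ha⟩ : H) = 0 := card_nsmul_eq_zero'
    rw [hH] at h1
    have h2 := congrArg (Subtype.val) h1
    rw [AddSubgroup.coe_nsmul, AddSubgroup.coe_zero] at h2
    rw [← h2]
    simp only [succ_nsmul, zero_nsmul, zero_add]
  have hna : a ≠ -a := by
    intro hc
    have h4 : a + a = 0 := by
      nth_rewrite 2 [hc]
      exact add_neg_cancel a
    rw [h4, zero_add] at h3
    exact ha0 h3
  have hsub : ({0, a, -a} : Finset (ZMod m)) ⊆ (Finset.univ : Finset (ZMod m)).filter (fun y => y ∈ H) := by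
    intro y hy
    rw [Finset.mem_filter]
    simp only [Finset.mem_insert, Finset.mem_singleton] at hy
    refine ⟨Finset.mem_univ _, ?_⟩
    rcases hy with rfl | rfl | rfl
    · exact H.zero_mem
    · exact ha
    · exact H.neg_mem ha
  have hc3 : ({0, a, -a} : Finset (ZMod m)).card = 3 := by
    rw [Finset.card_eq_three]
    exact ⟨0, a, -a, fun h => ha0 h.symm, fun h => ha0 (neg_eq_zero.mp h.symm), hna, rfl⟩
  have heq := Finset.eq_of_subset_of_card_le hsub (by rw [cardH, hH, hc3])
  have hmem : ∀ y ∈ H, y = 0 ∨ y = a ∨ y = -a := by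
    intro y hy
    have : y ∈ ({0, a, -a} : Finset (ZMod m)) := by
      rw [heq, Finset.mem_filter]
      exact ⟨Finset.mem_univ _, hy⟩
    simpa using this
  have h2a : a + a = -a := by
    rw [eq_neg_iff_add_eq_zero]
    exact h3
  rcases hmem b hb with h | h | h
  · exact absurd h hb0
  · subst h
    rcases hmem x hx with h | h | h
    · exact Or.inl h
    · exact Or.inr (Or.inl h)
    · exact Or.inr (Or.inr (Or.inr (by rw [h, h2a])))
  · subst h
    rcases hmem x hx with h | h | h
    · exact Or.inl h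
    · exact Or.inr (Or.inl h)
    · exact Or.inr (Or.inr (Or.inl h))

end M2
end ZS44129
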