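import Pool.Agent.Work.MP_44129c_co.M2.XlA
import Pool.Agent.Work.MP_44129c_co.M2.Grow

/-!
# MP_44129c_co/M2, F3A (size M-L): `m = 3 s` even, a root of order 3: zero-sum free colours

Text: helper43 (`/team-store/44129c_helper43_10.md`, (1b)-(1d)).  `s` is even, `s ≥ 6`, `m = 3 s`; `H` has order 3, `M ∉ H` (order 2), `y ∈ BB`, `c w y ∉ H`, `c y x ∈ H` for `x ∈ XK c w y`, `|XK c w y| ≥ 2`; `Z = outK (c w) (BB.erase y) H` has `s - 2` elements; `e = |BB| ≥ s`, so `B3 = {b ∈ BB : c w b ∈ H}` has `e - s + 1 ≥ 1` elements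
(`BB` is the disjoint union of `Z`, `{y}`, `B3`), with `c w b ≠ 0`.
PROOF of `st_x` (any `x ∈ AA`): double star with centre edge `w x` (colour `0`), leaves `I1 ∪ A1` at `w`, `I2` at `x`, where `A1 ⊆ (AA.erase x)` has `m - 1 - |I1| - |I2|` elements (`≥ 0`: `|I1| + |I2| ≤ e ≤ 2 s - 1 ≤ m - 1`; `|AA.erase x| = m + s - 2 - e`, enough because at most `s - 1` elements of `BB` are outside `I1 ∪ I2`).
PROOF of `zf`.  Suppose `Z' ⊆ Z` is nonempty with `∑_{Z'} c w z ∈ H`.  `x ∈ XK c w y`: `c x y = c y x ∈ H`, `≠ 0`.  `b1 ∈ B3`.  By `p3` the element `- ∑_{Z'} c w z - ∑_{B3.erase b1} c w b` of `H` is `0`, `c x y`, `c w b1` or `c x y + c w b1`: in `st_x` take `I1 = Z' ∪ B3.erase b1` (and `b1` in the last two cases), `I2 = ∅` or `{y}`: at most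
`(s - 2 - |Z'|) + 2 ≤ s - 1` elements of `BB` are outside; the sum is `0`: contradiction.
PROOF of `zy`.  Suppose `c x3 y = M`, `x3 ∈ AA`; `x1 ≠ x2` in `XK c w y` (both `≠ x3`: `M + M = 0`), `c y x1`, `c y x2 ∈ H \ 0`.  For every `Z' ⊆ Z` and `u ∈ {0, M}`: `c w y + u + ∑_{Z'} c w z ∉ H`: otherwise `W.av` (root `y`) with `J = Z \ Z'` (`≤ s - 2` elements, `BB.erase y \ J = Z' ∪ B3`) and `P` = a subset of `{x1, x2}`, together with `x3` if
`u = M` (`|P| + e ≤ 3 + e ≤ m`), chosen by `p3` such that the total `c w y + ∑_{Z'} + ∑_{B3} c w b + ∑_P c y x` is `0`.  So the set of `grow` (with `f = c w`, `S = Z`) does not meet the cosets `- c w y + H`, `- c w y - M + H`, which are different (`M ∉ H`): it has at most `3 s - 6` elements, but at least `3 (s - 1)`: contradiction.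
So `c x y ∈ H` for all `x ∈ AA` (`x ∉ XK c w y`: `c y x + c y x = 0`, so `c y x = 0`).
-/

set_option autoImplicit false

namespace ZS44129
namespace M2

open Finset E W

variable {V : Type} [Fintype V] [DecidableEq V] {m : ℕ} {c : V → V → ZMod m} {s M : ℕ} {w : V}

theorem st_x (h : EW c s M w) {x : V} (hx : x ∈ AA c w) (I1 I2 : Finset V) (h1 : I1 ⊆ BB c w)
    (h2 : I2 ⊆ BB c w) (hd : Disjoint I1 I2) (hc : (BB c w).card + 1 ≤ I1.card + I2.card + s) :
    ∑ b ∈ I1, c w b + ∑ b ∈ I2, c x b ≠ 0 := by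
  obtain ⟨hcard, hA, hsM⟩ := ew_card h
  have hM := h.hM
  have he2 := h.e2
  have c2 := Finset.card_erase_add_one hx
  have hu : I1.card + I2.card ≤ (BB c w).card := by
    rw [← Finset.card_union_of_disjoint hd]
    exact Finset.card_le_card (Finset.union_subset h1 h2)
  have hsz : m - 1 - I1.card - I2.card ≤ ((AA c w).erase x).card := by omega
  obtain ⟨A', hA', hA'c⟩ := Finset.exists_subset_card_eq hsz
  have hA1 : ∀ z ∈ A', z ≠ x ∧ z ∈ AA c w := fun z hz => Finset.mem_erase.1 (hA' hz)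
  have hAB : ∀ z, z ∈ AA c w → z ∈ BB c w → False := fun z k1 k2 =>
    (mem_BB'.1 k2).2 (mem_AA'.1 k1).2
  have hxw : w ≠ x := (mem_AA'.1 hx).1.symm
  have hdis : Disjoint I1 A' := by
    rw [Finset.disjoint_left]
    intro z k1 k2
    exact hAB z (hA1 z k2).2 (h1 k1)
  have hz := h.zsf w x hxw (I1 ∪ A') I2 (by
    rw [Finset.disjoint_left]
    intro z k1 k2
    rcases Finset.mem_union.1 k1 with k3 | k3
    · exact (Finset.disjoint_left.1 hd) k3 k2
    · exact hAB z (hA1 z k3).2 (h2 k2)) (by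
    intro k1
    rcases Finset.mem_union.1 k1 with k3 | k3
    · exact (mem_BB'.1 (h1 k3)).1 rfl
    · exact (mem_AA'.1 (hA1 w k3).2).1 rfl) (by
    intro k1
    rcases Finset.mem_union.1 k1 with k3 | k3
    · exact hAB x hx (h1 k3)
    · exact (hA1 x k3).1 rfl) (fun k1 => (mem_BB'.1 (h2 k1)).1 rfl)
    (fun k1 => hAB x hx (h2 k1)) (by
    rw [Finset.card_union_of_disjoint hdis, hA'c]
    omega)
  rw [Finset.sum_union hdis, Finset.sum_eq_zero (s := A') (fun z hz => (mem_AA'.1 (hA1 z hz).2).2),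
    add_zero, (mem_AA'.1 hx).2, zero_add] at hz
  exact hz

private theorem F3A_split (c : V → V → ZMod m) (w y : V) (H : AddSubgroup (ZMod m))
    {Z' : Finset V} (hZ : Z' ⊆ outK (c w) ((BB c w).erase y) H) :
    Disjoint Z' (inK (c w) ((BB c w).erase y) H) ∧
      (BB c w).erase y \ (outK (c w) ((BB c w).erase y) H \ Z') =
        Z' ∪ inK (c w) ((BB c w).erase y) H := by
  constructor
  · rw [Finset.disjoint_left]
    intro z k1 k2
    exact (mem_outK.1 (hZ k1)).2 (mem_inK.1 k2).2
  · ext z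
    rw [Finset.mem_sdiff, Finset.mem_sdiff, Finset.mem_union, mem_inK, mem_outK]
    constructor
    · rintro ⟨k1, k2⟩
      by_cases k3 : z ∈ Z'
      · exact Or.inl k3
      · refine Or.inr ⟨k1, ?_⟩
        by_contra k4
        exact k2 ⟨⟨k1, k4⟩, k3⟩
    · rintro (k1 | k1)
      · exact ⟨(mem_outK.1 (hZ k1)).1, fun k2 => k2.2 k1⟩
      · exact ⟨k1.1, fun k2 => k2.1.2 k1.2⟩

theorem zf [NeZero m] (h : EW c s M w) (hm : m = 3 * s) (H : AddSubgroup (ZMod m)) (hH : Nat.card H = 3)
    {y : V} (hy : y ∈ BB c w) (hyH : c w y ∉ H) (hX : ∀ x ∈ XK c w y, c y x ∈ H)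
    (hX2 : 2 ≤ (XK c w y).card) (hk : (outK (c w) ((BB c w).erase y) H).card + 2 = s)
    (Z' : Finset V) (hZ : Z' ⊆ outK (c w) ((BB c w).erase y) H) (hne : Z'.Nonempty) :
    ∑ b ∈ Z', c w b ∉ H := by
  intro hS
  obtain ⟨hdis, -⟩ := F3A_split c w y H hZ
  have hio := inK_add_outK (c w) ((BB c w).erase y) H
  have hey := Finset.card_erase_add_one hy
  have he1 := h.e1
  obtain ⟨x, hx⟩ := Finset.card_pos.1 (show 0 < (XK c w y).card by omega)
  obtain ⟨hxA, hxx⟩ := mem_XK.1 hx
  obtain ⟨b1, hb1⟩ := Finset.card_pos.1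
    (show 0 < (inK (c w) ((BB c w).erase y) H).card by omega)
  have hb1' := mem_inK.1 hb1
  have hb1B : b1 ∈ BB c w := Finset.mem_of_mem_erase hb1'.1
  have hcx : c y x ≠ 0 := fun k => hxx (by rw [k, add_zero])
  have hce := Finset.card_erase_add_one hb1
  have hnc := Finset.card_pos.2 hne
  have hZB : Z' ⊆ BB c w := fun z hz => Finset.mem_of_mem_erase (mem_outK.1 (hZ hz)).1
  have hIB : inK (c w) ((BB c w).erase y) H ⊆ BB c w := fun z hz =>
    Finset.mem_of_mem_erase (mem_inK.1 hz).1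
  have hyZ : y ∉ Z' := fun hz => (Finset.mem_erase.1 (mem_outK.1 (hZ hz)).1).1 rfl
  have hyI : y ∉ inK (c w) ((BB c w).erase y) H := fun hz =>
    (Finset.mem_erase.1 (mem_inK.1 hz).1).1 rfl
  have hdis1 : Disjoint Z' ((inK (c w) ((BB c w).erase y) H).erase b1) :=
    Finset.disjoint_of_subset_right (Finset.erase_subset _ _) hdis
  have hIH : ∑ b ∈ (inK (c w) ((BB c w).erase y) H).erase b1, c w b ∈ H :=
    H.sum_mem fun b hb => (mem_inK.1 (Finset.mem_of_mem_erase hb)).2
  have hIs := Finset.add_sum_erase (inK (c w) ((BB c w).erase y) H) (fun b => c w b) hb1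
  have hXH : - (∑ b ∈ Z', c w b + ∑ b ∈ (inK (c w) ((BB c w).erase y) H).erase b1, c w b) ∈ H :=
    H.neg_mem (H.add_mem hS hIH)
  have hsm : c x y = c y x := h.sym x y
  have hne1 : y ∉ Z' ∪ (inK (c w) ((BB c w).erase y) H).erase b1 := by
    intro k
    rcases Finset.mem_union.1 k with k | k
    · exact hyZ k
    · exact hyI (Finset.mem_of_mem_erase k)
  have hne2 : y ∉ Z' ∪ (inK (c w) ((BB c w).erase y) H) := by
    intro k
    rcases Finset.mem_union.1 k with k | k
    · exact hyZ k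
    · exact hyI k
  have hs1 : Z' ∪ (inK (c w) ((BB c w).erase y) H).erase b1 ⊆ BB c w :=
    Finset.union_subset hZB ((Finset.erase_subset _ _).trans hIB)
  have hs2 : Z' ∪ (inK (c w) ((BB c w).erase y) H) ⊆ BB c w := Finset.union_subset hZB hIB
  have hk1 : (Z' ∪ (inK (c w) ((BB c w).erase y) H).erase b1).card =
      Z'.card + ((inK (c w) ((BB c w).erase y) H).erase b1).card :=
    Finset.card_union_of_disjoint hdis1
  have hk2 : (Z' ∪ (inK (c w) ((BB c w).erase y) H)).card =
      Z'.card + (inK (c w) ((BB c w).erase y) H).card :=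
    Finset.card_union_of_disjoint hdis
  rcases p3 H hH (hX x hx) hcx hb1'.2 (mem_BB'.1 hb1B).2 hXH with k | k | k | k
  · refine st_x h hxA (Z' ∪ (inK (c w) ((BB c w).erase y) H).erase b1) ∅ hs1
      (Finset.empty_subset _) (Finset.disjoint_empty_right _) (by
        rw [hk1, Finset.card_empty]
        omega) ?_
    rw [Finset.sum_union hdis1, Finset.sum_empty, add_zero]
    exact neg_eq_zero.1 k
  · refine st_x h hxA (Z' ∪ (inK (c w) ((BB c w).erase y) H).erase b1) {y} hs1
      (Finset.singleton_subset_iff.2 hy) (Finset.disjoint_singleton_right.2 hne1) (by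
        rw [hk1, Finset.card_singleton]
        omega) ?_
    rw [Finset.sum_union hdis1, Finset.sum_singleton, hsm, ← k]
    exact add_neg_cancel _
  · refine st_x h hxA (Z' ∪ (inK (c w) ((BB c w).erase y) H)) ∅ hs2
      (Finset.empty_subset _) (Finset.disjoint_empty_right _) (by
        rw [hk2, Finset.card_empty]
        omega) ?_
    rw [Finset.sum_union hdis, Finset.sum_empty, add_zero, ← hIs, ← k]
    ring
  · refine st_x h hxA (Z' ∪ (inK (c w) ((BB c w).erase y) H)) {y} hs2
      (Finset.singleton_subset_iff.2 hy) (Finset.disjoint_singleton_right.2 hne2) (by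
        rw [hk2, Finset.card_singleton]
        omega) ?_
    rw [Finset.sum_union hdis, Finset.sum_singleton, hsm, ← hIs]
    linear_combination (-1 : ZMod m) * k

private theorem F3A_coset [NeZero m] (H : AddSubgroup (ZMod m)) (t : ZMod m)
    [DecidablePred fun x : ZMod m => x + t ∈ H] :
    ((Finset.univ : Finset (ZMod m)).filter (fun x => x + t ∈ H)).card = Nat.card H := by
  classical
  rw [Nat.card_eq_fintype_card]
  refine Finset.card_bij' (s := (Finset.univ : Finset (ZMod m)).filter (fun x => x + t ∈ H))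
    (t := (Finset.univ : Finset H)) (fun x hx => ⟨x + t, (Finset.mem_filter.1 hx).2⟩)
    (fun z _ => (z : ZMod m) - t) ?_ ?_ ?_ ?_
  · intro x hx
    exact Finset.mem_univ _
  · intro z hz
    rw [Finset.mem_filter, sub_add_cancel]
    exact ⟨Finset.mem_univ _, z.2⟩
  · intro x hx
    exact add_sub_cancel_right _ _
  · intro z hz
    exact Subtype.ext (sub_add_cancel _ _)

private theorem F3A_three [NeZero m] (H : AddSubgroup (ZMod m)) (hH : Nat.card H = 3) {a : ZMod m}
    (ha : a ∈ H) : a + a + a = 0 := by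
  have h1 : Nat.card H • (⟨a, ha⟩ : H) = 0 := card_nsmul_eq_zero'
  rw [hH] at h1
  have h2 := congrArg (fun z : H => (z : ZMod m)) h1
  simp only [AddSubgroup.coe_nsmul, AddSubgroup.coe_zero] at h2
  rw [← h2]
  ring

theorem zy [NeZero m] (h : EW c s M w) (hm : m = 3 * s) (H : AddSubgroup (ZMod m)) (hH : Nat.card H = 3)
    {y : V} (hy : y ∈ BB c w) (hyH : c w y ∉ H) (hX : ∀ x ∈ XK c w y, c y x ∈ H)
    (hX2 : 2 ≤ (XK c w y).card) (hk : (outK (c w) ((BB c w).erase y) H).card + 2 = s)
    {x : V} (hx : x ∈ AA c w) : c x y ∈ H := by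
  classical
  have hsm : c x y = c y x := h.sym x y
  rw [hsm]
  by_cases hxX : x ∈ XK c w y
  · exact hX x hxX
  have hxx : c y x + c y x = 0 := by
    by_contra k
    exact hxX (mem_XK.2 ⟨hx, k⟩)
  rcases two_tor h.hM hxx with k0 | kM
  · rw [k0]
    exact H.zero_mem
  exfalso
  have hMH : (M : ZMod m) ∉ H := by
    intro k
    have h3 := F3A_three H hH k
    rw [M_add h.hM, zero_add] at h3
    exact M_ne h.hM h3
  obtain ⟨x1, hx1, x2, hx2, h12⟩ := Finset.one_lt_card.1 (show 1 < (XK c w y).card by omega)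
  have h1x : x1 ≠ x := fun k => hxX (k ▸ hx1)
  have h2x : x2 ≠ x := fun k => hxX (k ▸ hx2)
  obtain ⟨hA1, hn1⟩ := mem_XK.1 hx1
  obtain ⟨hA2, hn2⟩ := mem_XK.1 hx2
  have hc1 : c y x1 ≠ 0 := fun k => hn1 (by rw [k, add_zero])
  have hc2 : c y x2 ≠ 0 := fun k => hn2 (by rw [k, add_zero])
  have he1 := h.e1
  have he2 := h.e2
  have hs5 := h.s5
  -- the double stars with root y
  have key : ∀ Z' ⊆ outK (c w) ((BB c w).erase y) H, ∀ P ⊆ AA c w, P.card ≤ 3 →
      c w y + (∑ b ∈ Z', c w b + ∑ b ∈ inK (c w) ((BB c w).erase y) H, c w b) +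
        ∑ z ∈ P, c y z ≠ 0 := by
    intro Z' hZ P hP hPc
    obtain ⟨hdis, heq⟩ := F3A_split c w y H hZ
    have hJ : outK (c w) ((BB c w).erase y) H \ Z' ⊆ (BB c w).erase y :=
      Finset.sdiff_subset.trans (outK_sub _ _ _)
    have hJc := Finset.card_le_card
      (Finset.sdiff_subset : outK (c w) ((BB c w).erase y) H \ Z' ⊆ outK (c w) ((BB c w).erase y) H)
    have := W.av h.toWS0 hy (outK (c w) ((BB c w).erase y) H \ Z') hJ (by omega) P hP (by omega)
    rw [heq, Finset.sum_union hdis] at this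
    exact this
  have hBH : ∑ b ∈ inK (c w) ((BB c w).erase y) H, c w b ∈ H :=
    H.sum_mem fun b hb => (mem_inK.1 hb).2
  -- no u = 0
  have cl0 : ∀ Z' ⊆ outK (c w) ((BB c w).erase y) H, c w y + ∑ b ∈ Z', c w b ∉ H := by
    intro Z' hZ hS
    have hXH : - (c w y + ∑ b ∈ Z', c w b + ∑ b ∈ inK (c w) ((BB c w).erase y) H, c w b) ∈ H :=
      H.neg_mem (H.add_mem hS hBH)
    rcases p3 H hH (hX x1 hx1) hc1 (hX x2 hx2) hc2 hXH with k | k | k | k
    · refine key Z' hZ ∅ (Finset.empty_subset _) (by simp) ?_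
      rw [Finset.sum_empty]
      linear_combination (-1 : ZMod m) * k
    · refine key Z' hZ {x1} (Finset.singleton_subset_iff.2 hA1) (by simp) ?_
      rw [Finset.sum_singleton]
      linear_combination (-1 : ZMod m) * k
    · refine key Z' hZ {x2} (Finset.singleton_subset_iff.2 hA2) (by simp) ?_
      rw [Finset.sum_singleton]
      linear_combination (-1 : ZMod m) * k
    · refine key Z' hZ {x1, x2} ?_ (by rw [Finset.card_pair h12]; omega) ?_
      · intro z hz
        rw [Finset.mem_insert, Finset.mem_singleton] at hz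
        rcases hz with rfl | rfl
        · exact hA1
        · exact hA2
      rw [Finset.sum_pair h12]
      linear_combination (-1 : ZMod m) * k
  -- no u = M
  have clM : ∀ Z' ⊆ outK (c w) ((BB c w).erase y) H,
      c w y + (M : ZMod m) + ∑ b ∈ Z', c w b ∉ H := by
    intro Z' hZ hS
    have hXH : - (c w y + (M : ZMod m) + ∑ b ∈ Z', c w b +
        ∑ b ∈ inK (c w) ((BB c w).erase y) H, c w b) ∈ H :=
      H.neg_mem (H.add_mem hS hBH)
    rcases p3 H hH (hX x1 hx1) hc1 (hX x2 hx2) hc2 hXH with k | k | k | k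
    · refine key Z' hZ {x} (Finset.singleton_subset_iff.2 hx) (by simp) ?_
      rw [Finset.sum_singleton, kM]
      linear_combination (-1 : ZMod m) * k
    · refine key Z' hZ {x1, x} ?_ (by rw [Finset.card_pair h1x]; omega) ?_
      · intro z hz
        rw [Finset.mem_insert, Finset.mem_singleton] at hz
        rcases hz with rfl | rfl
        · exact hA1
        · exact hx
      rw [Finset.sum_pair h1x, kM]
      linear_combination (-1 : ZMod m) * k
    · refine key Z' hZ {x2, x} ?_ (by rw [Finset.card_pair h2x]; omega) ?_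
      · intro z hz
        rw [Finset.mem_insert, Finset.mem_singleton] at hz
        rcases hz with rfl | rfl
        · exact hA2
        · exact hx
      rw [Finset.sum_pair h2x, kM]
      linear_combination (-1 : ZMod m) * k
    · have hn : x1 ∉ ({x2, x} : Finset V) := by
        rw [Finset.mem_insert, Finset.mem_singleton]
        rintro (k5 | k5)
        · exact h12 k5
        · exact h1x k5
      refine key Z' hZ (insert x1 {x2, x}) ?_ (by
        rw [Finset.card_insert_of_notMem hn, Finset.card_pair h2x]) ?_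
      · intro z hz
        rw [Finset.mem_insert, Finset.mem_insert, Finset.mem_singleton] at hz
        rcases hz with rfl | rfl | rfl
        · exact hA1
        · exact hA2
        · exact hx
      rw [Finset.sum_insert hn, Finset.sum_pair h2x, kM]
      linear_combination (-1 : ZMod m) * k
  have hg := grow (c w) (outK (c w) ((BB c w).erase y) H) H (fun T hT hTn =>
    zf h hm H hH hy hyH hX hX2 hk T hT hTn)
  rw [hH] at hg
  have d1 := F3A_coset H (c w y)
  have d2 := F3A_coset H (c w y + (M : ZMod m))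
  rw [hH] at d1 d2
  have hdis1 : Disjoint ((Finset.univ : Finset (ZMod m)).filter
      (fun x => ∃ T ⊆ outK (c w) ((BB c w).erase y) H, x - ∑ i ∈ T, c w i ∈ H))
      ((Finset.univ : Finset (ZMod m)).filter (fun x => x + c w y ∈ H)) := by
    rw [Finset.disjoint_left]
    intro a k1 k2
    obtain ⟨-, T, hT, k3⟩ := Finset.mem_filter.1 k1
    have k4 := H.sub_mem (Finset.mem_filter.1 k2).2 k3
    refine cl0 T hT ?_
    have k5 : a + c w y - (a - ∑ i ∈ T, c w i) = c w y + ∑ i ∈ T, c w i := by ring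
    rwa [k5] at k4
  have hdis2 : Disjoint (((Finset.univ : Finset (ZMod m)).filter
      (fun x => ∃ T ⊆ outK (c w) ((BB c w).erase y) H, x - ∑ i ∈ T, c w i ∈ H)) ∪
      ((Finset.univ : Finset (ZMod m)).filter (fun x => x + c w y ∈ H)))
      ((Finset.univ : Finset (ZMod m)).filter (fun x => x + (c w y + (M : ZMod m)) ∈ H)) := by
    rw [Finset.disjoint_left]
    intro a k1 k2
    have k6 := (Finset.mem_filter.1 k2).2
    rcases Finset.mem_union.1 k1 with k1 | k1
    · obtain ⟨-, T, hT, k3⟩ := Finset.mem_filter.1 k1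
      have k4 := H.sub_mem k6 k3
      refine clM T hT ?_
      have k5 : a + (c w y + (M : ZMod m)) - (a - ∑ i ∈ T, c w i) =
          c w y + (M : ZMod m) + ∑ i ∈ T, c w i := by ring
      rwa [k5] at k4
    · have k4 := H.sub_mem k6 (Finset.mem_filter.1 k1).2
      have k5 : a + (c w y + (M : ZMod m)) - (a + c w y) = (M : ZMod m) := by ring
      rw [k5] at k4
      exact hMH k4
  have hle := Finset.card_le_univ (((Finset.univ : Finset (ZMod m)).filter
      (fun x => ∃ T ⊆ outK (c w) ((BB c w).erase y) H, x - ∑ i ∈ T, c w i ∈ H)) ∪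
      ((Finset.univ : Finset (ZMod m)).filter (fun x => x + c w y ∈ H)) ∪
      ((Finset.univ : Finset (ZMod m)).filter (fun x => x + (c w y + (M : ZMod m)) ∈ H)))
  rw [Finset.card_union_of_disjoint hdis2, Finset.card_union_of_disjoint hdis1, d1, d2,
    ZMod.card] at hle
  have hg2 : ((outK (c w) ((BB c w).erase y) H).card + 1) * 3 ≤
      ((Finset.univ : Finset (ZMod m)).filter
      (fun x => ∃ T ⊆ outK (c w) ((BB c w).erase y) H, x - ∑ i ∈ T, c w i ∈ H)).card := hg
  omega

end M2
end ZS44129
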