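import Pool.Agent.Work.MP_44129c_co.M2.Rho

/-!
# MP_44129c_co/M2, PPM (size M-L): periodic cubes modulo `M`, `|P| + (s - 2) ≥ M - 1` slots

PROOF.  Choose `P0 ⊆ P` with `M + 1 - s` elements and `J0 ⊆ Y` with `s - 2` elements, `F0 = J0 ∪ P0`, `|F0| = M - 1`.  The cube of `F0` is not aperiodic: otherwise `cube_zmod` (`M + 1 ≤ 2 (M - 1)`) gives integers `n i ≠ 0` on `F0` with `∑ |n i| + 1 = |cube| ≤ M - 1`, but
`∑ |n i| ≥ |F0| = M - 1`.  `lemPP` with `r = s - 2` gives `H1`, `F1`.  Notation `h = |H1|`, `j = H1.index`, `h j = M` (`h, j ≥ 2`), `ρ = |F1 ∩ Y| ≤ h - 1`, `p = #(P \ H1)`, `k = #(Y \ H1)`; the inequality is `p + min (s - 2 - ρ, k) + 2 ≤ j`.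
CLAIM: `s - 2 - ρ + p + 2 > j`.  Suppose `s + p ≤ j + ρ`.  Then `s + p + 1 ≤ j + h`; `(h - 2)(j - 2) ≥ 0`: `M ≥ 2 (h + j) - 4 ≥ 2 s - 2 + 2 p`, `2 M ≤ 3 s + 2`: `s + 4 p ≤ 6`: `p = 0`, and `s = 6`, `M ≥ 10`, `2 M ≤ 20`: `M = 10` is excluded; or `s = 5`, `M ≥ 8`, `2 M ≤ 17`: `M = 8`, `h j = 8`, `h + j ≥ 6`,
so `{h, j} = {2, 4}`, and `ρ ≥ s - j`, i.e. `ρ = h - 1`.  `|P| ≥ M + 1 - s = 4`, all in `H1` (`p = 0`).  `rho_bd`: a family `F` (`F ∩ Y ⊆ F1 ∩ Y`, so it is admissible in the last property of `lemPP`: `ρ ≤ |F ∩ Y|`) with `2 (ρ + 1) ≤ h` (false: `ρ + 1 = h`) or `ρ + 1 + 4 ≤ h` (false).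
So the minimum is `k`: `p + k + 2 ≤ j`, and with the claim `k + ρ + 2 ≤ (j - 2 - p) + ρ + 2 ≤ s - 1 < s`... (from the claim `ρ + j ≤ s + p - 1 + …`: `k + ρ + 2 ≤ j - p + ρ ≤ s - 1`).
-/

set_option autoImplicit false

namespace ZS44129
namespace M2

open Finset

theorem ppM {ι : Type} [DecidableEq ι] {M s : ℕ} [NeZero M] (hs : 5 ≤ s) (h1 : 3 * s ≤ 2 * M + 2)
    (h2 : 2 * M ≤ 3 * s + 2) (h3 : M ≠ 10 ∨ s ≠ 6) (P Y : Finset ι) (hPY : Disjoint P Y)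
    (d : ι → ZMod M) (hd : ∀ i ∈ P ∪ Y, d i ≠ 0) (hP : M + 1 ≤ P.card + s) (hY : s ≤ Y.card + 2)
    (hno : ∀ F ⊆ P ∪ Y, (F ∩ Y).card + 2 ≤ s → ¬ Gen d F ⊥ ⊤) :
    ∃ (H1 : AddSubgroup (ZMod M)) (F1 : Finset ι), H1 ≠ ⊥ ∧ H1 ≠ ⊤ ∧ F1 ⊆ P ∪ Y ∧
      (∀ i ∈ F1, d i ∈ H1) ∧ Gen d F1 ⊥ H1 ∧ (F1 ∩ Y).card + (outK d Y H1).card + 2 ≤ s ∧
      (outK d P H1).card + (outK d Y H1).card + 2 ≤ H1.index := by
  classical
  have hM7 : 7 ≤ M := by omega
  obtain ⟨P0, hP0, hP0c⟩ := Finset.exists_subset_card_eq (show M + 1 - s ≤ P.card by omega)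
  obtain ⟨J0, hJ0, hJ0c⟩ := Finset.exists_subset_card_eq (show s - 2 ≤ Y.card by omega)
  have hdis : Disjoint P0 J0 :=
    Finset.disjoint_of_subset_left hP0 (Finset.disjoint_of_subset_right hJ0 hPY)
  have hF0c : (P0 ∪ J0).card = M - 1 := by
    rw [Finset.card_union_of_disjoint hdis, hP0c, hJ0c]
    omega
  have hF0s : P0 ∪ J0 ⊆ P ∪ Y := Finset.union_subset_union hP0 hJ0
  have hF0Y : ((P0 ∪ J0) ∩ Y).card ≤ s - 2 := by
    have h4 : (P0 ∪ J0) ∩ Y ⊆ J0 := by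
      intro i hi
      obtain ⟨h5, h6⟩ := Finset.mem_inter.1 hi
      rcases Finset.mem_union.1 h5 with h7 | h7
      · exact absurd h6 (Finset.disjoint_left.1 hPY (hP0 h7))
      · exact h7
    exact (Finset.card_le_card h4).trans hJ0c.le
  have hper : ¬ Aper (cube d (P0 ∪ J0)) := by
    intro hap
    obtain ⟨g, n, hn, hsum, hle⟩ := cube_zmod d (P0 ∪ J0) (fun i hi => hd i (hF0s hi)) hap
      (by omega)
    have h4 : ∀ i ∈ P0 ∪ J0, (1 : ℤ) ≤ |n i| := by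
      intro i hi
      refine Int.one_le_abs fun h0 => ?_
      apply hd i (hF0s hi)
      rw [hn i hi, h0, zero_smul]
    have h5 := Finset.sum_le_sum h4
    rw [Finset.sum_const, hF0c, nsmul_eq_mul, mul_one] at h5
    omega
  obtain ⟨H1, F1, hb, ht, hF1, hF1Y, hF1H, hgen, hF1c, hineq, hmin⟩ :=
    W.lemPP P Y hPY d hd (s - 2) (fun F hF hFY => hno F hF (by omega)) (P0 ∪ J0) hF0s hF0Y
      (by omega) hper
  have hM0 : Nat.card (ZMod M) = M := Nat.card_zmod M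
  have hhj : Nat.card H1 * H1.index = M := (AddSubgroup.card_mul_index H1).trans hM0
  have hh2 : 2 ≤ Nat.card H1 := (AddSubgroup.one_lt_card_iff_ne_bot H1).2 hb
  have hj2 : 2 ≤ H1.index := by
    have h4 : H1.index ≠ 1 := fun h => ht (AddSubgroup.index_eq_one.1 h)
    have h5 : H1.index ≠ 0 := by
      intro h
      rw [h] at hhj
      omega
    omega
  have hcan : (outK d P H1).card + min (s - 2 - (F1 ∩ Y).card) (outK d Y H1).card + 2 ≤
      H1.index := by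
    have h4 := hineq.trans hhj.ge
    rw [mul_comm] at h4
    exact Nat.le_of_mul_le_mul_left h4 (by omega)
  have hρF : (F1 ∩ Y).card ≤ F1.card := Finset.card_le_card Finset.inter_subset_left
  refine ⟨H1, F1, hb, ht, hF1, hF1H, hgen, ?_⟩
  rcases Nat.lt_or_ge (s - 2 - (F1 ∩ Y).card) (outK d Y H1).card with hc | hc
  · exfalso
    rw [min_eq_left hc.le] at hcan
    obtain ⟨a, ha⟩ : ∃ a, Nat.card H1 = a + 2 := ⟨Nat.card H1 - 2, by omega⟩
    obtain ⟨b, hb'⟩ : ∃ b, H1.index = b + 2 := ⟨H1.index - 2, by omega⟩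
    have hM4 : M + 4 = a * b + 2 * (a + 2) + 2 * (b + 2) := by
      rw [← hhj, ha, hb']; ring
    have hab : 0 ≤ a * b := Nat.zero_le _
    have hp0 : (outK d P H1).card = 0 := by omega
    have hs5 : s = 5 := by
      rcases h3 with h3 | h3 <;> omega
    have hM8 : M = 8 := by omega
    have hsum : a + 2 + (b + 2) = 6 := by
      have h6 : a + b ≤ 4 := by omega
      have h7 : 2 ≤ a + b := by omega
      have h8 : a ≤ 4 := by omega
      have h9 : b ≤ 4 := by omega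
      interval_cases a <;> interval_cases b <;> omega
    have hP4 : 4 ≤ (inK d P H1).card := by
      have h6 := inK_add_outK d P H1
      omega
    obtain ⟨F, hF, hFH, hFg, hFc, hFY, hor⟩ := rho_bd P Y hPY d
      (fun i hi => hd i (Finset.mem_union_left _ hi)) H1 F1 hF1 hF1H hgen
    have hFYc := Finset.card_le_card hFY
    have h6 := hmin F hF (by omega) hFH hFg hFc
    omega
  · rw [min_eq_right hc] at hcan
    exact ⟨by omega, hcan⟩

end M2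
end ZS44129
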