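import Pool.Agent.Work.MP_44129c_co.M2.T2L
import Pool.Agent.Work.MP_44129c_co.M2.Xl

/-!
# MP_44129c_co/M2, T2 (size M-L): not exactly one odd colour outside the class

`e = |BB|`, `a = |AA| = m + s - 1 - e`, `s ≤ e ≤ 2 s - 1`, `s + 1 ≤ M`, `m = 2 M ∈ [3 s - 2, 3 s + 2]` (`ew_card`).  `β y = |XK c w y|`.
PROOF of `t2_beta` (`y ≠ y2`): if `β + s < M + 2`: `β + 2 s ≤ M + 1 + s ≤ m`.  Otherwise let `μ = min (β, m - e)`, `M + 2 ≤ μ + s` (`m - e + s ≥ 2 M - s + 1 ≥ M + 2`); `hap` and `lift_AP` give a lift, `t2_bound`: `μ + 2 s ≤ m` or `μ + 2 e ≤ m + 1`.  In both cases `μ < m - e` (`e ≤ 2 s - 1`; `e ≥ s ≥ 5 > 1`), so `μ = β`.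
PROOF of `t2_false`.  `sum_XK`: `s a ≤ β y2 + ∑_{y ≠ y2} β y ≤ a + ∑_{y ∈ BB.erase y2} β y`, so (S) `(s - 1) a ≤ ∑_{y ∈ BB.erase y2} β y`.
(1) `e = s`: `β y + 2 s ≤ m + 1`: `(s - 1)(m - 1) ≤ (s - 1)(m + 1 - 2 s)`: false.
(2) `s + 1 ≤ e ≤ 2 s - 2`: `β y + 2 s ≤ m` (also in the second alternative, `2 e ≥ 2 s + 2`): `(s - 1)(m + s - 1 - e) ≤ (e - 1)(m - 2 s)`, so `(s - 1)(m - s + 1) ≤ (2 s - 3)(m - 2 s)`; but `(2 s - 3)(m - 2 s) - (s - 1)(m - s + 1) = s (m - 3 s) - 2 m + 4 s + 1 ≤ -3` (increasing in `m ≤ 3 s + 2`).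
(3) `e = 2 s - 1`: `a = m - s`, `β y + 2 s ≤ m` for `y ≠ y2`: `(s - 1)(m - s) ≤ (2 s - 2)(m - 2 s)`: `m ≥ 3 s`.  There are two different `y, y' ∈ BB.erase y2` with `m ≤ β + 2 s + 1`: otherwise `(s - 1)(m - s) ≤ (m - 2 s) + (2 s - 3)(m - 2 s - 2)`, i.e. `(s - 1)(m - 3 s) ≥ 4 s - 6`, but `m - 3 s ≤ 2`: `2 s ≤ 4`: false.
    For both take `μ = β` (`β ≤ m - 2 s < m - e`; `M + 2 ≤ β + s`: `m - s - 1 ≥ M + 2` because `M ≥ s + 3`: `2 M ≥ 3 s`, `s ≥ 6`, or `s = 5` and `m = 16`), `hap`, `lift_AP`, `t2_shape`: units `g, g'`, signs `ε, ε'`: `g c w b = 2 ε` for `b ∈ BB \ {y, y2}`, `g' c w b = 2 ε'` for `b ∈ BB \ {y', y2}` (in `ZMod m`).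
    A common `b` (`2 s - 1 - 3 ≥ 1`): `2 ε g⁻¹ = 2 ε' g'⁻¹` (as elements of `ZMod m`).  `y ∈ BB \ {y', y2}`: `c w y = 2 ε' g'⁻¹ = 2 ε g⁻¹`, so `g c w y = 2 ε`: `(z0 : ZMod m) = 2 ε` (`RL.h0`).
    `ε = 1` (the case `ε = -1` is the same for `m - z0`, `- n`: `rl_neg`).  `gap` with `P = ∅`, `J = {y2}` if `n y2 < 0`, `J = ∅` otherwise: `z0 + 2 (2 s - 3) ≤ z0 + 2 (2 s - 3) + max (n y2, 0) ≤ m - 1`.  `gap` with `J` = `s - 1` elements of `Y'` (all `n b = 2`): `1 ≤ z0 + 2 (2 s - 3) - 2 (s - 1) + n y2 ≤ z0 + 2 s - 1`.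
    So `-2 s ≤ z0 - 2 ≤ m - 4 s + 3`, `m ∣ z0 - 2`, `m ≥ 3 s > 2 s` and `m - 4 s + 3 < m`: `z0 = 2`, `0 ≤ m - 4 s + 3`: `4 s - 3 ≤ m ≤ 3 s + 2`: `s ≤ 5`, `s = 5`, `m = 17`: `m` is even: contradiction.
-/

set_option autoImplicit false

namespace ZS44129
namespace M2

open Finset E W

variable {V : Type} [Fintype V] [DecidableEq V] {m : ℕ} {c : V → V → ZMod m} {s M : ℕ} {w : V}

private theorem t2_XK_le (c : V → V → ZMod m) (w y : V) : (XK c w y).card ≤ (AA c w).card :=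
  card_le_card (filter_subset _ _)

theorem t2_beta [NeZero m] (h : EW c s M w) (H : AddSubgroup (ZMod m)) (hH : H.index = 2) {y2 : V}
    (hy2 : y2 ∈ BB c w) (ho : c w y2 ∉ H) (hev : ∀ b ∈ (BB c w).erase y2, c w b ∈ H)
    (hap : ∀ y ∈ (BB c w).erase y2, ∀ μ : ℕ, M + 2 ≤ μ + s → μ + (BB c w).card ≤ m →
      μ ≤ (XK c w y).card → AP c s μ w y) {y : V} (hy : y ∈ (BB c w).erase y2) :
    (XK c w y).card + 2 * s ≤ m ∨ (XK c w y).card + 2 * (BB c w).card ≤ m + 1 := by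
  obtain ⟨hc1, hc2, hc3⟩ := ew_card h
  have hM := h.hM
  have he1 := h.e1
  have he2 := h.e2
  have hs5 := h.s5
  by_cases hb : (XK c w y).card + s < M + 2
  · left
    omega
  · have hmu : ∀ μ : ℕ, M + 2 ≤ μ + s → μ + (BB c w).card ≤ m → μ ≤ (XK c w y).card →
        μ + 2 * s ≤ m ∨ μ + 2 * (BB c w).card ≤ m + 1 := by
      intro μ h1 h2 h3
      obtain ⟨g, z0, n, R⟩ := lift_AP h (mem_of_mem_erase hy) μ h1 h2 (hap y hy μ h1 h2 h3)
      exact t2_bound h H hH ho hev hy hy2 R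
    by_cases hb2 : (XK c w y).card + (BB c w).card ≤ m
    · exact hmu _ (by omega) hb2 le_rfl
    · exfalso
      rcases hmu (m - (BB c w).card) (by omega) (by omega) (by omega) with h1 | h1 <;> omega

/-- the last step of case (3), sign `+`. -/
private theorem t2_fin {c0 : V → V → ZMod m} {μ : ℕ} {y y2 : V} {z0 : ℤ} {n : V → ℤ}
    (R : RL c0 s μ w y z0 n) (hy2 : y2 ∈ (BB c0 w).erase y)
    (hn : ∀ b ∈ ((BB c0 w).erase y).erase y2, n b = 2) (h2 : n y2 ≤ 3)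
    (hz : ((z0 - 2 : ℤ) : ZMod m) = 0) (he : (BB c0 w).card + 1 = 2 * s) (hs : 5 ≤ s)
    (h3 : 3 * s ≤ m) (h4 : m ≤ 3 * s + 2) (hev : m = 2 * M) : False := by
  have hY := card_erase_add_one R.yB
  have hY2 := card_erase_add_one hy2
  set Y := (BB c0 w).erase y with hYdef
  have hsY' : ∑ b ∈ Y.erase y2, n b = 2 * (2 * s - 3) := by
    rw [sum_congr rfl hn, sum_const, nsmul_eq_mul]
    have h5 : (((Y.erase y2).card : ℕ) : ℤ) = 2 * s - 3 := by omega
    rw [h5]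
    ring
  have hsY : ∑ b ∈ Y, n b = 2 * (2 * s - 3) + n y2 := by
    rw [← sum_erase_add _ _ hy2, hsY']
  -- J = {y2}
  have h6 := (R.gap {y2} (singleton_subset_iff.2 hy2) (by rw [card_singleton]; omega) ∅
    (empty_subset _) (by rw [card_empty]; omega)).2
  rw [← hYdef, sdiff_singleton_eq_erase, hsY', sum_empty] at h6
  -- J = s - 1 elements of Y'
  obtain ⟨J, hJ, hJc⟩ := exists_subset_card_eq (s := Y.erase y2) (n := s - 1) (by omega)
  have hJY : J ⊆ Y := hJ.trans (erase_subset _ _)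
  have h7 := (R.gap J hJY (by omega) ∅ (empty_subset _) (by rw [card_empty]; omega)).1
  rw [← hYdef, sum_empty] at h7
  have h8 := sum_sdiff (f := n) hJY
  have h9 : ∑ b ∈ J, n b = 2 * (s - 1) := by
    rw [sum_congr rfl (fun b hb => hn b (hJ hb)), sum_const, nsmul_eq_mul, hJc]
    have h10 : ((s - 1 : ℕ) : ℤ) = s - 1 := by omega
    rw [h10]
    ring
  have hdvd : (m : ℤ) ∣ z0 - 2 := (ZMod.intCast_zmod_eq_zero_iff_dvd _ m).1 hz
  have hz2 : z0 - 2 = 0 := by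
    refine Int.eq_zero_of_abs_lt_dvd hdvd ?_
    rw [abs_lt]
    constructor <;> omega
  omega

private theorem t2_two (h : EW c s M w) (H : AddSubgroup (ZMod m)) (hH : H.index = 2) [NeZero m] {y2 : V}
    (hy2 : y2 ∈ BB c w) (ho : c w y2 ∉ H) (hev : ∀ b ∈ (BB c w).erase y2, c w b ∈ H)
    (hap : ∀ y ∈ (BB c w).erase y2, ∀ μ : ℕ, M + 2 ≤ μ + s → μ + (BB c w).card ≤ m →
      μ ≤ (XK c w y).card → AP c s μ w y) (he : (BB c w).card + 1 = 2 * s) (h3s : 3 * s ≤ m)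
    {y : V} (hy : y ∈ (BB c w).erase y2) (hβ : m ≤ (XK c w y).card + 2 * s + 1)
    (hβ2 : (XK c w y).card + 2 * s ≤ m) :
    ∃ (g : (ZMod m)ˣ) (μ : ℕ) (z0 : ℤ) (n : V → ℤ) (ε : ℤ),
      RL (fun a b => (g : ZMod m) * c a b) s μ w y z0 n ∧ (ε = 1 ∨ ε = -1) ∧
      (∀ b ∈ ((BB c w).erase y).erase y2, ε * n b = 2) ∧ ε * n y2 ≤ 3 ∧
      ∀ b ∈ ((BB c w).erase y).erase y2, (g : ZMod m) * c w b = ((2 * ε : ℤ) : ZMod m) := by
  have hM := h.hM
  have hs5 := h.s5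
  have h1 : M + 2 ≤ (XK c w y).card + s := by omega
  have h2 : (XK c w y).card + (BB c w).card ≤ m := by omega
  obtain ⟨g, z0, n, R⟩ := lift_AP h (mem_of_mem_erase hy) _ h1 h2 (hap y hy _ h1 h2 le_rfl)
  obtain ⟨ε, hε, hn, _, hn2⟩ := t2_shape h H hH ho hev hy hy2 R he hβ
  refine ⟨g, _, z0, n, ε, R, hε, hn, hn2, ?_⟩
  intro b hb
  have h5 := R.hb b (by
    rw [(ws0_scale h.toWS0 g).2.2.1]
    exact mem_of_mem_erase hb)
  have h6 : n b = 2 * ε := by
    have h7 := hn b hb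
    rcases hε with h8 | h8 <;> rw [h8] at h7 ⊢ <;> omega
  rw [← h6]
  exact h5.symm

private theorem t2_pair [NeZero m] (h : EW c s M w) (H : AddSubgroup (ZMod m)) (hH : H.index = 2) {y2 : V}
    (hy2 : y2 ∈ BB c w) (ho : c w y2 ∉ H) (hev : ∀ b ∈ (BB c w).erase y2, c w b ∈ H)
    (hap : ∀ y ∈ (BB c w).erase y2, ∀ μ : ℕ, M + 2 ≤ μ + s → μ + (BB c w).card ≤ m →
      μ ≤ (XK c w y).card → AP c s μ w y) (he : (BB c w).card + 1 = 2 * s) (h3s : 3 * s ≤ m)
    {y y' : V} (hyB : y ∈ (BB c w).erase y2) (hyβ : m ≤ (XK c w y).card + 2 * s + 1)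
    (hyβ2 : (XK c w y).card + 2 * s ≤ m)
    (hyB' : y' ∈ (BB c w).erase y2) (hyβ' : m ≤ (XK c w y').card + 2 * s + 1)
    (hyβ2' : (XK c w y').card + 2 * s ≤ m) (hyy : y ≠ y') : False := by
  have hs5 := h.s5
  have hm2 := h.m2
  have hM := h.hM
  obtain ⟨g, μ, z0, n, ε, R, hε, hn, hn2, hg⟩ :=
    t2_two h H hH hy2 ho hev hap he h3s hyB hyβ hyβ2
  obtain ⟨g', μ', z0', n', ε', R', hε', hn', hn2', hg'⟩ :=
    t2_two h H hH hy2 ho hev hap he h3s hyB' hyβ' hyβ2'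
  have hyne : y ≠ y2 := ne_of_mem_erase hyB
  have hyne' : y' ≠ y2 := ne_of_mem_erase hyB'
  -- a common b
  obtain ⟨b, hb⟩ : ((((BB c w).erase y).erase y2).erase y').Nonempty := by
    rw [← card_pos]
    have h1 := pred_card_le_card_erase (s := ((BB c w).erase y).erase y2) (a := y')
    have h2 := pred_card_le_card_erase (s := (BB c w).erase y) (a := y2)
    have h3 := pred_card_le_card_erase (s := BB c w) (a := y)
    omega
  have hb1 : b ∈ ((BB c w).erase y).erase y2 := mem_of_mem_erase hb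
  have hb2 : b ∈ ((BB c w).erase y').erase y2 := by
    rw [mem_erase, mem_erase, mem_erase] at hb
    rw [mem_erase, mem_erase]
    exact ⟨hb.2.1, hb.1, hb.2.2.2⟩
  have hyy2 : y ∈ ((BB c w).erase y').erase y2 := by
    rw [mem_erase, mem_erase]
    exact ⟨hyne, hyy, mem_of_mem_erase hyB⟩
  have e1 := hg b hb1
  have e2 := hg' b hb2
  have e3 := hg' y hyy2
  have e4 : c w y = c w b := by
    have : (g' : ZMod m) * c w y = (g' : ZMod m) * c w b := by rw [e2, e3]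
    exact (Units.mul_right_inj g').1 this
  have e5 : (z0 : ZMod m) = ((2 * ε : ℤ) : ZMod m) := by
    have h1 : (z0 : ZMod m) = (g : ZMod m) * c w y := R.h0
    rw [h1, e4, e1]
  obtain ⟨_, _, hB, _⟩ := ws0_scale h.toWS0 g
  have hy2Y : y2 ∈ (BB c w).erase y := mem_erase.2 ⟨hyne.symm, hy2⟩
  rcases hε with hε | hε
  · subst hε
    refine t2_fin R (y2 := y2) (by rw [hB]; exact hy2Y) ?_ (by rwa [one_mul] at hn2) ?_
      (by rw [hB]; exact he) hs5 h3s hm2 hM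
    · rw [hB]
      intro b hb
      have h5 := hn b hb
      rwa [one_mul] at h5
    · rw [Int.cast_sub, e5, mul_one, sub_self]
  · subst hε
    have R2 := rl_neg R
    have hB2 : BB (fun a b => - ((g : ZMod m) * c a b)) w = BB c w := by
      rw [← hB]
      unfold BB
      exact filter_congr fun x _ => not_congr neg_eq_zero
    refine t2_fin R2 (y2 := y2) (by rw [hB2]; exact hy2Y) ?_
      (by
        show - n y2 ≤ 3
        rwa [neg_one_mul] at hn2) ?_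
      (by rw [hB2]; exact he) hs5 h3s hm2 hM
    · rw [hB2]
      intro b hb
      show - n b = 2
      have h5 := hn b hb
      rwa [neg_one_mul] at h5
    · rw [Int.cast_sub, Int.cast_sub, e5, Int.cast_natCast, ZMod.natCast_self, zero_sub,
        ← Int.cast_neg, ← Int.cast_sub, show (-(2 * -1) - 2 : ℤ) = 0 by norm_num, Int.cast_zero]

theorem t2_false [NeZero m] (h : EW c s M w) (H : AddSubgroup (ZMod m)) (hH : H.index = 2) {y2 : V}
    (hy2 : y2 ∈ BB c w) (ho : c w y2 ∉ H) (hev : ∀ b ∈ (BB c w).erase y2, c w b ∈ H)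
    (hap : ∀ y ∈ (BB c w).erase y2, ∀ μ : ℕ, M + 2 ≤ μ + s → μ + (BB c w).card ≤ m →
      μ ≤ (XK c w y).card → AP c s μ w y) : False := by
  obtain ⟨hc1, hc2, hc3⟩ := ew_card h
  have hM := h.hM
  have he1 := h.e1
  have he2 := h.e2
  have hs5 := h.s5
  have hm1 := h.m1
  have hm2 := h.m2
  have hbeta : ∀ y ∈ (BB c w).erase y2, (XK c w y).card + 2 * s ≤ m ∨
      (XK c w y).card + 2 * (BB c w).card ≤ m + 1 := fun y hy =>
    t2_beta h H hH hy2 ho hev hap hy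
  have hsum := sum_XK h
  rw [← sum_erase_add _ _ hy2] at hsum
  have hX2 := t2_XK_le c w y2
  have hec := card_erase_add_one hy2
  have hS : ((s : ℤ) - 1) * (AA c w).card ≤ ∑ y ∈ (BB c w).erase y2, ((XK c w y).card : ℤ) := by
    have h1 : ((s * (AA c w).card : ℕ) : ℤ) ≤
        ((∑ y ∈ (BB c w).erase y2, (XK c w y).card + (XK c w y2).card : ℕ) : ℤ) := by
      exact_mod_cast hsum
    push_cast at h1
    have h2 : ((XK c w y2).card : ℤ) ≤ (AA c w).card := by exact_mod_cast hX2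
    linarith
  have hAz : ((AA c w).card : ℤ) = m + s - 1 - (BB c w).card := by omega
  have hs5z : (5 : ℤ) ≤ s := by exact_mod_cast hs5
  have hm1z : 3 * (s : ℤ) ≤ m + 2 := by exact_mod_cast hm1
  have hm2z : (m : ℤ) ≤ 3 * s + 2 := by exact_mod_cast hm2
  -- case 1
  rcases Nat.lt_or_ge s (BB c w).card with hes | hes
  swap
  · have hes' : (BB c w).card = s := by omega
    have h1 : ∑ y ∈ (BB c w).erase y2, ((XK c w y).card : ℤ) ≤
        ((BB c w).erase y2).card • ((m : ℤ) + 1 - 2 * s) := by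
      refine sum_le_card_nsmul _ _ _ fun y hy => ?_
      have := hbeta y hy
      omega
    have h2 : (((BB c w).erase y2).card : ℤ) = s - 1 := by omega
    rw [nsmul_eq_mul, h2] at h1
    have h3 := hS.trans h1
    rw [hAz, hes'] at h3
    nlinarith
  -- now e ≥ s + 1
  have hbeta2 : ∀ y ∈ (BB c w).erase y2, (XK c w y).card + 2 * s ≤ m := by
    intro y hy
    have := hbeta y hy
    omega
  have hub : ∑ y ∈ (BB c w).erase y2, ((XK c w y).card : ℤ) ≤
      ((BB c w).erase y2).card • ((m : ℤ) - 2 * s) := by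
    refine sum_le_card_nsmul _ _ _ fun y hy => ?_
    have := hbeta2 y hy
    omega
  have hec2 : (((BB c w).erase y2).card : ℤ) = (BB c w).card - 1 := by omega
  rw [nsmul_eq_mul, hec2] at hub
  have hS2 := hS.trans hub
  rw [hAz] at hS2
  rcases Nat.lt_or_ge ((BB c w).card + 1) (2 * s) with hes2 | hes2
  · -- case 2
    have h1 : ((BB c w).card : ℤ) ≤ 2 * s - 2 := by omega
    have h2 : ((BB c w).card - 1 : ℤ) * ((m : ℤ) - 2 * s) ≤ (2 * s - 3) * ((m : ℤ) - 2 * s) :=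
      mul_le_mul_of_nonneg_right (by linarith) (by linarith)
    have h3 : ((s : ℤ) - 1) * (m - s + 1) ≤ (s - 1) * (m + s - 1 - (BB c w).card) :=
      mul_le_mul_of_nonneg_left (by linarith) (by linarith)
    have h4 : ((s : ℤ) - 2) * m ≤ (s - 2) * (3 * s + 2) :=
      mul_le_mul_of_nonneg_left (by linarith) (by linarith)
    nlinarith
  · -- case 3
    have he : (BB c w).card + 1 = 2 * s := by omega
    have hez : ((BB c w).card : ℤ) = 2 * s - 1 := by omega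
    rw [hez] at hS2
    have h3s : 3 * s ≤ m := by
      have h1 : (s - 1 : ℤ) * (3 * s - m) ≤ 0 := by nlinarith
      by_contra hcon
      have h2 : (1 : ℤ) ≤ 3 * s - m := by omega
      nlinarith
    -- two roots with large beta
    have htwo : 2 ≤ (((BB c w).erase y2).filter fun y => m ≤ (XK c w y).card + 2 * s + 1).card := by
      by_contra hcon
      have h1 : ∑ y ∈ (BB c w).erase y2, ((XK c w y).card : ℤ) ≤
          ∑ y ∈ (BB c w).erase y2, (((m : ℤ) - 2 * s - 2) +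
            2 * (if m ≤ (XK c w y).card + 2 * s + 1 then (1 : ℤ) else 0)) := by
        refine sum_le_sum fun y hy => ?_
        have := hbeta2 y hy
        split_ifs with h2 <;> omega
      rw [sum_add_distrib, ← mul_sum, Finset.sum_boole, sum_const, nsmul_eq_mul, hec2, hez] at h1
      have h2 : ((((BB c w).erase y2).filter fun y => m ≤ (XK c w y).card + 2 * s + 1).card : ℤ) ≤ 1 := by
        omega
      have h3 := hS.trans h1
      rw [hAz, hez] at h3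
      have h4 : ((s : ℤ) - 1) * (m - 3 * s) ≤ (s - 1) * 2 :=
        mul_le_mul_of_nonneg_left (by linarith) (by linarith)
      nlinarith
    obtain ⟨y, hy, y', hy', hyy⟩ := one_lt_card.1 htwo
    obtain ⟨hyB, hyβ⟩ := mem_filter.1 hy
    obtain ⟨hyB', hyβ'⟩ := mem_filter.1 hy'
    exact t2_pair h H hH hy2 ho hev hap he h3s hyB hyβ (hbeta2 y hyB) hyB' hyβ' (hbeta2 y' hyB') hyy

end M2
end ZS44129
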