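import Pool.Agent.Work.MP_44129c_co.M2.Excl
import Pool.Agent.Work.MP_44129c_co.M2.T2
import Pool.Agent.Work.MP_44129c_co.M2.Mix

/-!
# MP_44129c_co/M2, Main (size M): even `m`, no large class modulo `K`

PROOF of `no_prob`.  `|XK| ≥ M + 2 - s ≥ 2`.  `PT`: the types order 3, order `s` (`m = 3 s`), order 4 are excluded by `f3_false`, `fq_false`, `f4_false`.  Index 2, for the root `y`: `t2_false` with `y2 = y`; `hap`: for `y' ∈ BB.erase y` and `μ` as there, `prob_or_aper` gives `AP` or a subgroup `H'` with `c w y' ∉ H'`, `c y' x ∈ H'` on `XK c w y'`, `PT c s w y' H'`: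
the types order 3, `s`, 4 are excluded in the same way (`|XK c w y'| ≥ μ ≥ 2`); index 2: `H' = H` (`sub_index_unique`), but `c w y' ∈ H` (`y' ∈ BB.erase y`): contradiction.
PROOF of `all_AP`.  `prob_or_aper`, `no_prob` (`|XK| ≥ μ`).
PROOF of `ew_false`.  `WS` = the fields of `h.toWS0` and `he3`.  `ws_falseG` with `X1 = XK c w` (`⊆ X0`), `sum_XK`, `numE_of`, and `hroot`: `μ = m - e` (`M + 2 ≤ m - e + s`): `all_AP`, `lift_AP`.
PROOF of `cls_mono`.  `x0, x1 ∈ cls c u K r`, suppose `c u x0 ≠ c u x1`.  Let `c' x y = c x y - c u x0` (`zsf_affine` with `g = 1`), `c' u x0 = 0`, `c' u x1 + c' u x1 = 0` (both colours are in `r + K`, `mem_of_card2`), `≠ 0`, so `c' u x1 = M` (`two_tor`); `AK c' u = cls c u K r` (`c u x - c u x0 ∈ K ↔ c u x - r ∈ K`).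
`MX c' s M u x0 x1`: `mix_false`.
PROOF of `ew_of_cls`.  `cls c u K r` is not empty (`m ≤ |cls| + s`, `s < m`): `x0` in it, `a = c u x0`; by `cls_mono` all its elements have colour `a`.  `c' = c - a` (`zsf_affine`): `AA c' u = cls c u K r` (`c u x = a` gives `c u x - r ∈ K`), for the other `x ≠ u`: `c u x - r ∉ K`, so `c' u x ∉ K` (`a - r ∈ K`).  `|BB| = m + s - 1 - |cls| ≤ 2 s - 1`: `e2`... (`|cls| ≥ m - s`).
`e1`: `coset_deg` with `L = ⊥`, `r = a`: `|cls| + 2 ≤ m + 1`, so `|BB| ≥ s`.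
PROOF of `even_big_false`.  `ew_of_cls`, `ew_false`.
-/

set_option autoImplicit false

namespace ZS44129
namespace M2

open Finset E W

variable {V : Type} [Fintype V] [DecidableEq V] {m : ℕ} {c : V → V → ZMod m} {s M : ℕ} {w : V}

theorem no_prob [NeZero m] (h : EW c s M w) {y : V} (hy : y ∈ BB c w) (hβ : M + 2 ≤ (XK c w y).card + s) :
    ¬ ∃ H : AddSubgroup (ZMod m), c w y ∉ H ∧ (∀ x ∈ XK c w y, c y x ∈ H) ∧ PT c s w y H := by
  have hM1 := (ew_card h).2.2
  have key : ∀ y' ∈ BB c w, M + 2 ≤ (XK c w y').card + s → ∀ H : AddSubgroup (ZMod m),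
      c w y' ∉ H → (∀ x ∈ XK c w y', c y' x ∈ H) → PT c s w y' H →
      H.index = 2 ∧ ∀ b ∈ (BB c w).erase y', c w b ∈ H := by
    intro y' hy' hβ' H h1 h2 h3
    rcases h3 with h3 | ⟨h3, h4, h5⟩ | ⟨h3, h4, h5⟩ | ⟨h3, h4, h5, h6⟩
    · exact h3
    · exact (f3_false h h3 H h4 hy' h1 h2 (by omega) h5).elim
    · exact (fq_false h h3 H h4 hy' h1 h2 h5).elim
    · exact (f4_false h h3 h4 H h5 hy' h1 h2 h6).elim
  rintro ⟨H, h1, h2, h3⟩
  obtain ⟨hH, hev⟩ := key y hy hβ H h1 h2 h3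
  refine t2_false h H hH hy h1 hev ?_
  intro y' hy' μ h4 h5 h6
  have hyB := Finset.mem_of_mem_erase hy'
  rcases prob_or_aper h hyB μ h4 h5 h6 with ⟨H', h7, h8, h9⟩ | h7
  · exfalso
    obtain ⟨h10, h11⟩ := key y' hyB (by omega) H' h7 h8 h9
    have h12 : H' = H := sub_index_unique H' H (h10.trans hH.symm)
    rw [h12] at h7
    exact h7 (hev y' hy')
  · exact h7

theorem all_AP [NeZero m] (h : EW c s M w) {y : V} (hy : y ∈ BB c w) (μ : ℕ) (h1 : M + 2 ≤ μ + s)
    (h2 : μ + (BB c w).card ≤ m) (h3 : μ ≤ (XK c w y).card) : AP c s μ w y := by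
  rcases prob_or_aper h hy μ h1 h2 h3 with h4 | h4
  · exact (no_prob h hy (by omega) h4).elim
  · exact h4

theorem ew_false [NeZero m] (h : EW c s M w)
    (he3 : ((BB c w).card : ℤ) * (m + s - 1 - (BB c w).card) < s * (m + s - 1)) : False := by
  have hM1 := (ew_card h).2.2
  have hMm := h.hM
  have he2 := h.e2
  have hW : WS c s w := ⟨h.sym, h.zsf, h.card, h.s4, h.m1, h.m2, h.e1, h.e2, he3⟩
  refine ws_falseG hW (numE_of h.s4 h.m1 h.m2 (Or.inr h.s5) h.h20) (Or.inr h.s5) h.h20 (by omega)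
    (XK c w) ?_ (sum_XK h) ?_
  · intro y hy x hx
    have h1 := mem_XK.1 hx
    unfold X0
    rw [Finset.mem_filter]
    refine ⟨h1.1, fun h2 => h1.2 ?_⟩
    rw [h2, add_zero]
  · intro y hy h1
    have h2 : M + 2 ≤ (m - (BB c w).card) + s := by omega
    have h3 : (m - (BB c w).card) + (BB c w).card ≤ m := by omega
    exact lift_AP h hy _ h2 h3 (all_AP h hy _ h2 h3 (by omega))

omit [Fintype V] in
private theorem zsf_sub (hz : ZSF m c) (a : ZMod m) : ZSF m (fun x y => c x y - a) := by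
  have h1 := zsf_affine c hz 1 a
  simp only [Units.val_one, one_mul] at h1
  exact h1

/-- a large class modulo `K` has one colour. -/
theorem cls_mono [NeZero m] (hsym : ∀ x y, c x y = c y x) (hz : ZSF m c)
    (hV : Fintype.card V = m + s) (hM : m = 2 * M) (hs : 5 ≤ s) (h1 : 3 * s ≤ m + 2) (h2 : m ≤ 3 * s + 2)
    (h20 : m ≠ 20 ∨ s ≠ 6) (K : AddSubgroup (ZMod m)) (hK : Nat.card K = 2) {u : V} {r : ZMod m}
    (hbig : m ≤ (G.cls c u K r).card + s) {x0 x1 : V} (hx0 : x0 ∈ G.cls c u K r)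
    (hx1 : x1 ∈ G.cls c u K r) : c u x0 = c u x1 := by
  by_contra hne
  have h3 := G.mem_cls.1 hx0
  have h4 := G.mem_cls.1 hx1
  have h5 : c u x1 - c u x0 ∈ K := by
    have := K.sub_mem h4.2 h3.2
    rwa [sub_sub_sub_cancel_right] at this
  have h6 := (mem_of_card2 hM K hK _).1 h5
  have h7 : c u x1 - c u x0 = (M : ZMod m) := by
    rcases two_tor hM h6 with h8 | h8
    · exact absurd (sub_eq_zero.1 h8).symm hne
    · exact h8
  have hAK : AK (fun x y => c x y - c u x0) u = G.cls c u K r := by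
    ext x
    rw [mem_AK, G.mem_cls]
    refine and_congr_right (fun _ => ?_)
    show (c u x - c u x0) + (c u x - c u x0) = 0 ↔ _
    rw [← mem_of_card2 hM K hK]
    constructor
    · intro h8
      have := K.add_mem h8 h3.2
      rwa [sub_add_sub_cancel] at this
    · intro h8
      have := K.sub_mem h8 h3.2
      rwa [sub_sub_sub_cancel_right] at this
  have hMX : MX (fun x y => c x y - c u x0) s M u x0 x1 := by
    refine ⟨fun x y => by rw [hsym x y], zsf_sub hz _, hV, hM, hs, h1, h2, h20, h3.1, h4.1, ?_,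
      h7, ?_⟩
    · exact sub_self _
    · rw [hAK]
      exact hbig
  exact mix_false hMX

/-- the situation `EW` at a large class modulo `K`. -/
theorem ew_of_cls [NeZero m] (hsym : ∀ x y, c x y = c y x) (hz : ZSF m c)
    (hV : Fintype.card V = m + s) (hM : m = 2 * M) (hs : 5 ≤ s) (h1 : 3 * s ≤ m + 2) (h2 : m ≤ 3 * s + 2)
    (h20 : m ≠ 20 ∨ s ≠ 6) (K : AddSubgroup (ZMod m)) (hK : Nat.card K = 2) {u : V} {r : ZMod m}
    (hbig : m ≤ (G.cls c u K r).card + s) :
    ∃ a : ZMod m, a - r ∈ K ∧ EW (fun x y => c x y - a) s M u ∧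
      AA (fun x y => c x y - a) u = G.cls c u K r := by
  have hpos : 0 < (G.cls c u K r).card := by omega
  obtain ⟨x0, hx0⟩ := Finset.card_pos.1 hpos
  have h3 := G.mem_cls.1 hx0
  have hmono : ∀ x ∈ G.cls c u K r, c u x = c u x0 := fun x hx =>
    cls_mono hsym hz hV hM hs h1 h2 h20 K hK hbig hx hx0
  have hAA : AA (fun x y => c x y - c u x0) u = G.cls c u K r := by
    ext x
    rw [mem_AA']
    constructor
    · rintro ⟨h4, h5⟩
      have h6 : c u x = c u x0 := sub_eq_zero.1 h5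
      rw [G.mem_cls, h6]
      exact ⟨h4, h3.2⟩
    · intro hx
      exact ⟨(G.mem_cls.1 hx).1, sub_eq_zero.2 (hmono x hx)⟩
  have hcard : (AA (fun x y => c x y - c u x0) u).card + (BB (fun x y => c x y - c u x0) u).card + 1 =
      m + s := by
    have h4 : (univ.erase u).card + 1 = m + s := by
      rw [Finset.card_erase_of_mem (Finset.mem_univ u), Finset.card_univ, hV]
      omega
    rw [← h4]
    unfold AA BB
    rw [Finset.card_filter_add_card_filter_not]
  have hdeg : (AA (fun x y => c x y - c u x0) u).card + 2 ≤ m + 1 := by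
    have h4 := G.coset_deg c hz u ⊥ (by rw [AddSubgroup.card_bot]; omega) (c u x0)
    rw [AddSubgroup.card_bot] at h4
    refine le_trans (Nat.add_le_add_right (Finset.card_le_card ?_) 2) h4
    intro x hx
    rw [mem_AA'] at hx
    classical
    exact Finset.mem_filter.2 ⟨Finset.mem_erase.2 ⟨hx.1, Finset.mem_univ x⟩,
      AddSubgroup.mem_bot.2 hx.2⟩
  refine ⟨c u x0, h3.2, ⟨⟨fun x y => by rw [hsym x y], zsf_sub hz _, hV, by omega, h1, h2, ?_, ?_⟩, hM,
    hs, h20, ?_⟩, hAA⟩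
  · omega
  · rw [← hAA] at hbig
    omega
  · intro b hb hcon
    rw [mem_BB'] at hb
    apply hb.2
    have h4 : c u b - c u x0 ∈ K := (mem_of_card2 hM K hK _).2 hcon
    have h5 : b ∈ G.cls c u K r := by
      rw [G.mem_cls]
      refine ⟨hb.1, ?_⟩
      have := K.add_mem h4 h3.2
      rwa [sub_add_sub_cancel] at this
    exact sub_eq_zero.2 (hmono b h5)

theorem even_big_false [NeZero m] (hsym : ∀ x y, c x y = c y x) (hz : ZSF m c)
    (hV : Fintype.card V = m + s) (hs : 5 ≤ s) (h1 : 3 * s ≤ m + 2) (h2 : m ≤ 3 * s + 2)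
    (h20 : m ≠ 20 ∨ s ≠ 6) (hev : 2 ∣ m) (K : AddSubgroup (ZMod m)) (hK : Nat.card K = 2) {u : V}
    {r : ZMod m} (hbig : m ≤ (G.cls c u K r).card + s)
    (he : ((m : ℤ) + s - 1 - (G.cls c u K r).card) * (G.cls c u K r).card < s * (m + s - 1)) : False := by
  obtain ⟨M, hM⟩ := hev
  obtain ⟨a, -, hE, hAA⟩ := ew_of_cls hsym hz hV hM hs h1 h2 h20 K hK hbig
  have h3 := (ew_card hE).1
  rw [hAA] at h3
  have h4 : ((G.cls c u K r).card : ℤ) + (BB (fun x y => c x y - a) u).card + 1 = m + s := by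
    exact_mod_cast h3
  refine ew_false hE ?_
  have h5 : ((BB (fun x y => c x y - a) u).card : ℤ) = m + s - 1 - (G.cls c u K r).card := by
    linarith
  rw [h5]
  have h6 : (m : ℤ) + s - 1 - (m + s - 1 - (G.cls c u K r).card) = (G.cls c u K r).card := by ring
  rw [h6]
  exact he

end M2
end ZS44129
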