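import Pool.Agent.Work.MP_44129c_co.M2.MixA
import Pool.Agent.Work.MP_44129c_co.G.C1K

/-!
# MP_44129c_co/M2, MixC (size M-L): counts for a mixed class modulo `K`

`A' = ((AK c w).erase x0).erase x1`, `a = |AK| = m + s - 1 - e`, `e = |BK| ≤ 2 s - 1` (`mx_card`), so `a ≥ m - s`.
PROOF of `mx_core` (`H` contains all `a` with `a + a = 0`, `3 |H| ≤ m`).  `a_v` = the number of `x ∈ AK` with `c w x = v` (`v = 0` or `v = M`; `a_0 + a_M = a`, `two_tor`).  Let `x ∈ AK` with `G.nb c w x H 0 + |H| ≤ s` (`x ∈ G.cls c w H 0`).  `G.c1_exc` (`K := H`, `r = 0`): `P1 < H`, `c w x - r1 ∉ P1`,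
`(#{z ∈ (cls c w H 0).erase x : c w z - r1 ∉ P1} + 2) |P1| ≤ |H|`.  The `z ∈ AK.erase x` with `c w z = c w x` are counted: `(a_v - 1 + 2) ≤ |H|` for `v = c w x`, i.e. `a_v + 1 ≤ |H|`.  Not both `a_0 + 1 ≤ |H|` and `a_M + 1 ≤ |H|`: otherwise `m - s ≤ a ≤ 2 |H| - 2`,
`3 m - 3 s ≤ 6 |H| - 6 ≤ 2 m - 6`, `m ≤ 3 s - 6`: false.  If `a_v + 1 ≤ |H|` (for one `v`) let `E = {x ∈ A' : c w x = v}`: one of `x0`, `x1` has the colour `v`, so `|E| ≤ a_v - 1 ≤ |H| - 2`; otherwise `E = ∅` (`|H| ≥ 2`: it contains `0` and `M`).  For `x ∈ A' \ E`: `s + 1 ≤ |H| + G.nb c w x H 0`, and the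
`z` counted in `nb` (`z ≠ w, x`, `c w z ∉ H`, `c x z ∉ H`) are in `BK` (`c w z ∈ K ⊆ H` otherwise).
PROOF of `mx_b`: `G.c1_exc` with `K` of order 2 (`exists_K`, `mem_of_card2`), `r = 0`: if `nb + 2 ≤ s` then `P1 < K`, so `P1 = ⊥` (a proper subgroup of a group of order 2), and `#{z ∈ (cls).erase x : c w z - r1 ∉ ⊥} + 2 ≤ 2`: all `z ∈ AK.erase x` have `c w z = r1`; but `x0, x1 ∈ AK.erase x` have the colours `0 ≠ M` (`M_ne`).
So `nb ≥ s - 1`; the `z` counted in `nb` are in `BK` and have `c x z ∉ K`.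
PROOF of `mx_two`.  Double counting (`sym`): `∑_{y ∈ BK} |PK y| = ∑_{x ∈ A'} #{y ∈ BK : c x y ∉ K} ≥ (s - 1)(a - 2)`.  Suppose at most one `y ∈ BK` has `M + 1 ≤ |PK y| + s`.  The others have `|PK| ≤ M - s`, this one `≤ |A'| = a - 2`:
`(s - 1)(a - 2) ≤ (a - 2) + (e - 1)(M - s)`, i.e. `(s - 2)(a - 2) ≤ (e - 1)(M - s)`; `a - 2 ≥ m - s - 2`, `e - 1 ≤ 2 s - 2`, `2 M = m`: `(s - 2)(m - s - 2) ≤ (s - 1)(m - 2 s)`; but the difference `(s - 2)(m - s - 2) - (s - 1)(m - 2 s) = s^2 - 2 s + 4 - m ≥ s^2 - 5 s + 2 > 0`.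
-/

set_option autoImplicit false

namespace ZS44129
namespace M2

open Finset E W

variable {V : Type} [Fintype V] [DecidableEq V] {m : ℕ} {c : V → V → ZMod m} {s M : ℕ} {w x0 x1 : V}

private theorem mc_key [NeZero m] (h : MX c s M w x0 x1) (H : AddSubgroup (ZMod m))
    (hK : ∀ a : ZMod m, a + a = 0 → a ∈ H) (hH : 2 * Nat.card H ≤ m + 1) {x : V} (hx : x ∈ AK c w)
    (hn : (outK (fun z => c x z) (outK (c w) (BK c w) H) H).card + Nat.card H ≤ s) :
    ((AK c w).filter (fun z => c w z = c w x)).card + 1 ≤ Nat.card H := by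
  classical
  obtain ⟨hxw, hx0⟩ := mem_AK.1 hx
  have hnb : G.nb c w x H 0 ≤ (outK (fun z => c x z) (outK (c w) (BK c w) H) H).card := by
    unfold G.nb
    refine Finset.card_le_card fun z hz => ?_
    rw [Finset.mem_filter, G.mem_XX, sub_zero, sub_zero] at hz
    obtain ⟨⟨h1, h2⟩, h3, h4⟩ := hz
    exact mem_outK.2 ⟨mem_outK.2 ⟨mem_BK.2 ⟨h1, fun h7 => h3 (hK _ h7)⟩, h3⟩, h4⟩
  obtain ⟨P1, r1, h1, h2, h3, h4⟩ := G.c1_exc c h.zsf h.card H hH w 0 (x := x)
    (G.mem_cls.2 ⟨hxw, by rw [sub_zero]; exact hK _ hx0⟩) (by omega)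
  have h5 : (((AK c w).filter (fun z => c w z = c w x)).erase x).card ≤
      (((G.cls c w H 0).erase x).filter (fun z => c w z - r1 ∉ P1)).card := by
    refine Finset.card_le_card fun z hz => ?_
    obtain ⟨hzx, hz1⟩ := Finset.mem_erase.1 hz
    obtain ⟨hzA, hzc⟩ := Finset.mem_filter.1 hz1
    obtain ⟨hzw, hz0⟩ := mem_AK.1 hzA
    rw [Finset.mem_filter, Finset.mem_erase, G.mem_cls]
    exact ⟨⟨hzx, hzw, by rw [sub_zero]; exact hK _ hz0⟩, by rw [hzc]; exact h3⟩
  have h6 : 0 < Nat.card P1 := Nat.card_pos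
  have h8 := Nat.le_mul_of_pos_right
    ((((G.cls c w H 0).erase x).filter (fun z => c w z - r1 ∉ P1)).card + 2) h6
  have h9 := Finset.card_erase_add_one (Finset.mem_filter.2 ⟨hx, rfl⟩ :
    x ∈ (AK c w).filter (fun z => c w z = c w x))
  omega

theorem mx_core [NeZero m] (h : MX c s M w x0 x1) (H : AddSubgroup (ZMod m))
    (hK : ∀ a : ZMod m, a + a = 0 → a ∈ H) (hH : 3 * Nat.card H ≤ m) :
    ∃ E ⊆ ((AK c w).erase x0).erase x1, E.card + 2 ≤ Nat.card H ∧
      ∀ x ∈ ((AK c w).erase x0).erase x1, x ∉ E →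
        s + 1 ≤ Nat.card H + (outK (fun z => c x z) (outK (c w) (BK c w) H) H).card := by
  classical
  have hm1 := h.m1
  have hs5 := h.s5
  have hbig := h.big
  have hMne : (M : ZMod m) ≠ 0 := M_ne h.hM
  have hMK : (M : ZMod m) + (M : ZMod m) = 0 := M_add h.hM
  have h0A : x0 ∈ AK c w := mem_AK.2 ⟨h.x0w, by rw [h.c0, add_zero]⟩
  have h1A : x1 ∈ AK c w := mem_AK.2 ⟨h.x1w, by rw [h.c1]; exact hMK⟩
  have hH2 : 2 ≤ Nat.card H := by
    by_contra hcon
    have h1 : Nat.card H = 1 := by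
      have := Nat.card_pos (α := H)
      omega
    have h2 := AddSubgroup.card_eq_one.1 h1
    have h3 : (M : ZMod m) ∈ H := hK _ hMK
    rw [h2, AddSubgroup.mem_bot] at h3
    exact hMne h3
  have hall : (AK c w).card ≤ ((AK c w).filter (fun z => c w z = 0)).card +
      ((AK c w).filter (fun z => c w z = (M : ZMod m))).card := by
    refine le_trans (Finset.card_le_card ?_) (Finset.card_union_le _ _)
    intro z hz
    rw [Finset.mem_union, Finset.mem_filter, Finset.mem_filter]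
    rcases two_tor h.hM (mem_AK.1 hz).2 with h1 | h1
    · exact Or.inl ⟨hz, h1⟩
    · exact Or.inr ⟨hz, h1⟩
  have key := fun x hx hn => mc_key h H hK (by omega) (x := x) hx hn
  have hsub : ∀ v : ZMod m, ∀ z ∈ AK c w, c w z = v → (z = x0 ∨ z = x1) →
      ((((AK c w).erase x0).erase x1).filter (fun z => c w z = v)).card + 1 ≤
        ((AK c w).filter (fun z => c w z = v)).card := by
    intro v z hz hzv hz2
    have h1 : (((AK c w).erase x0).erase x1).filter (fun z => c w z = v) ⊆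
        ((AK c w).filter (fun z => c w z = v)).erase z := by
      intro t ht
      obtain ⟨ht1, ht2⟩ := Finset.mem_filter.1 ht
      obtain ⟨ht3, ht4⟩ := Finset.mem_erase.1 ht1
      obtain ⟨ht5, ht6⟩ := Finset.mem_erase.1 ht4
      refine Finset.mem_erase.2 ⟨?_, Finset.mem_filter.2 ⟨ht6, ht2⟩⟩
      rcases hz2 with h2 | h2
      · rw [h2]; exact ht5
      · rw [h2]; exact ht3
    have h2 := Finset.card_le_card h1
    have h3 := Finset.card_erase_add_one (Finset.mem_filter.2 ⟨hz, hzv⟩ :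
      z ∈ (AK c w).filter (fun z => c w z = v))
    omega
  have hA' : ∀ x ∈ ((AK c w).erase x0).erase x1, x ∈ AK c w := fun x hx =>
    Finset.mem_of_mem_erase (Finset.mem_of_mem_erase hx)
  by_cases ha0 : ((AK c w).filter (fun z => c w z = 0)).card + 1 ≤ Nat.card H
  · refine ⟨(((AK c w).erase x0).erase x1).filter (fun z => c w z = 0), Finset.filter_subset _ _,
      ?_, ?_⟩
    · have := hsub 0 x0 h0A h.c0 (Or.inl rfl)
      omega
    · intro x hx hxE
      by_contra hcon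
      have h1 := key x (hA' x hx) (by omega)
      rcases two_tor h.hM (mem_AK.1 (hA' x hx)).2 with h2 | h2
      · exact hxE (Finset.mem_filter.2 ⟨hx, h2⟩)
      · rw [h2] at h1
        omega
  · by_cases haM : ((AK c w).filter (fun z => c w z = (M : ZMod m))).card + 1 ≤ Nat.card H
    · refine ⟨(((AK c w).erase x0).erase x1).filter (fun z => c w z = (M : ZMod m)),
        Finset.filter_subset _ _, ?_, ?_⟩
      · have := hsub (M : ZMod m) x1 h1A h.c1 (Or.inr rfl)
        omega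
      · intro x hx hxE
        by_contra hcon
        have h1 := key x (hA' x hx) (by omega)
        rcases two_tor h.hM (mem_AK.1 (hA' x hx)).2 with h2 | h2
        · rw [h2] at h1
          omega
        · exact hxE (Finset.mem_filter.2 ⟨hx, h2⟩)
    · refine ⟨∅, Finset.empty_subset _, by rw [Finset.card_empty]; omega, ?_⟩
      intro x hx _
      by_contra hcon
      have h1 := key x (hA' x hx) (by omega)
      rcases two_tor h.hM (mem_AK.1 (hA' x hx)).2 with h2 | h2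
      · rw [h2] at h1
        omega
      · rw [h2] at h1
        omega

theorem mx_b [NeZero m] (h : MX c s M w x0 x1) {x : V} (hx : x ∈ ((AK c w).erase x0).erase x1) :
    s ≤ ((BK c w).filter (fun z => c x z + c x z ≠ 0)).card + 1 := by
  classical
  by_contra hcon
  obtain ⟨K, hK⟩ := exists_K h.hM
  have hmem := mem_of_card2 h.hM K hK
  obtain ⟨hx1, hx'⟩ := Finset.mem_erase.1 hx
  obtain ⟨hx0, hxA⟩ := Finset.mem_erase.1 hx'
  obtain ⟨hxw, hxK⟩ := mem_AK.1 hxA
  have hMne : (M : ZMod m) ≠ 0 := M_ne h.hM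
  have hMK : (M : ZMod m) + (M : ZMod m) = 0 := M_add h.hM
  have hs5 := h.s5
  have hm1 := h.m1
  have hnb : G.nb c w x K 0 ≤ ((BK c w).filter (fun z => c x z + c x z ≠ 0)).card := by
    unfold G.nb
    refine Finset.card_le_card fun z hz => ?_
    rw [Finset.mem_filter, G.mem_XX, sub_zero, sub_zero, hmem, hmem] at hz
    obtain ⟨⟨h1, h2⟩, h3, h4⟩ := hz
    exact Finset.mem_filter.2 ⟨mem_BK.2 ⟨h1, h3⟩, h4⟩
  obtain ⟨P1, r1, h1, h2, h3, h4⟩ := G.c1_exc c h.zsf h.card K (by rw [hK]; omega) w 0 (x := x)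
    (G.mem_cls.2 ⟨hxw, by rw [sub_zero, hmem]; exact hxK⟩) (by rw [hK]; omega)
  have hP1 : Nat.card P1 = 1 := by
    have h5 := AddSubgroup.card_dvd_of_le h1.le
    rw [hK] at h5
    rcases (Nat.dvd_prime Nat.prime_two).1 h5 with h6 | h6
    · exact h6
    · exfalso
      have h7 : P1 = K := AddSubgroup.eq_of_le_of_card_ge h1.le (by omega)
      exact h1.ne h7
  have hbot : P1 = ⊥ := AddSubgroup.card_eq_one.1 hP1
  rw [hP1, hK] at h4
  have h5 : ∀ z ∈ (G.cls c w K 0).erase x, c w z = r1 := by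
    intro z hz
    by_contra h6
    have h7 : z ∈ ((G.cls c w K 0).erase x).filter (fun z => c w z - r1 ∉ P1) := by
      refine Finset.mem_filter.2 ⟨hz, ?_⟩
      rw [hbot, AddSubgroup.mem_bot, sub_eq_zero]
      exact h6
    have h8 := Finset.card_pos.2 ⟨z, h7⟩
    omega
  have h6 := h5 x0 (Finset.mem_erase.2 ⟨hx0.symm, G.mem_cls.2 ⟨h.x0w, by
    rw [sub_zero, hmem, h.c0, add_zero]⟩⟩)
  have h7 := h5 x1 (Finset.mem_erase.2 ⟨hx1.symm, G.mem_cls.2 ⟨h.x1w, by
    rw [sub_zero, hmem, h.c1]; exact hMK⟩⟩)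
  rw [h.c0] at h6
  rw [h.c1] at h7
  exact hMne (h7.trans h6.symm)

private theorem mc_sum [NeZero m] (h : MX c s M w x0 x1) :
    (s - 1) * (((AK c w).erase x0).erase x1).card ≤ ∑ y ∈ BK c w, (PK c w x0 x1 y).card := by
  have h1 : ∑ y ∈ BK c w, (PK c w x0 x1 y).card =
      ∑ x ∈ ((AK c w).erase x0).erase x1,
        ((BK c w).filter (fun z => c x z + c x z ≠ 0)).card := by
    unfold PK
    simp only [Finset.card_filter]
    rw [Finset.sum_comm]
    refine Finset.sum_congr rfl fun x _ => Finset.sum_congr rfl fun y _ => ?_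
    rw [h.sym y x]
  rw [h1, mul_comm, ← smul_eq_mul]
  exact Finset.card_nsmul_le_sum _ _ _ fun x hx => by
    have := mx_b h hx
    omega

theorem mx_two [NeZero m] (h : MX c s M w x0 x1) : ∃ y1 ∈ BK c w, ∃ y2 ∈ BK c w, y1 ≠ y2 ∧
    M + 1 ≤ (PK c w x0 x1 y1).card + s ∧ M + 1 ≤ (PK c w x0 x1 y2).card + s := by
  classical
  by_contra hcon
  push Not at hcon
  have hsum := mc_sum h
  obtain ⟨hc1, hc2, hc3⟩ := mx_card h
  have hm1 := h.m1
  have hm2 := h.m2
  have hs5 := h.s5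
  have hM := h.hM
  have hMne : (M : ZMod m) ≠ 0 := M_ne h.hM
  have hMK : (M : ZMod m) + (M : ZMod m) = 0 := M_add h.hM
  have h0A : x0 ∈ AK c w := mem_AK.2 ⟨h.x0w, by rw [h.c0, add_zero]⟩
  have h1A : x1 ∈ AK c w := mem_AK.2 ⟨h.x1w, by rw [h.c1]; exact hMK⟩
  have hne : x1 ≠ x0 := by
    intro h1
    have h2 := h.c1
    rw [h1, h.c0] at h2
    exact hMne h2.symm
  have e1 := Finset.card_erase_add_one h0A
  have e2 := Finset.card_erase_add_one (Finset.mem_erase.2 ⟨hne, h1A⟩ : x1 ∈ (AK c w).erase x0)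
  have hPle : ∀ y, (PK c w x0 x1 y).card ≤ (((AK c w).erase x0).erase x1).card := fun y =>
    Finset.card_filter_le _ _
  -- the sum is small
  have hub : ∑ y ∈ BK c w, (PK c w x0 x1 y).card ≤
      (((AK c w).erase x0).erase x1).card + ((BK c w).card - 1) * (M - s) := by
    by_cases hex : ∃ y1 ∈ BK c w, M + 1 ≤ (PK c w x0 x1 y1).card + s
    · obtain ⟨y1, hy1, hy1c⟩ := hex
      rw [← Finset.add_sum_erase _ _ hy1]
      refine Nat.add_le_add (hPle y1) ?_
      have h2 := Finset.sum_le_card_nsmul ((BK c w).erase y1) (fun y => (PK c w x0 x1 y).card)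
        (M - s) (fun y hy => by
          obtain ⟨hy2, hy3⟩ := Finset.mem_erase.1 hy
          have h3 := hcon y1 hy1 y hy3 hy2.symm hy1c
          show (PK c w x0 x1 y).card ≤ M - s
          omega)
      rw [smul_eq_mul, Finset.card_erase_of_mem hy1] at h2
      exact h2
    · push Not at hex
      have h2 := Finset.sum_le_card_nsmul (BK c w) (fun y => (PK c w x0 x1 y).card) (M - s)
        (fun y hy => by
          have h3 := hex y hy
          show (PK c w x0 x1 y).card ≤ M - s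
          omega)
      rw [smul_eq_mul] at h2
      refine h2.trans ?_
      obtain ⟨k, hk⟩ : ∃ k, (BK c w).card = k + 1 := ⟨(BK c w).card - 1, by omega⟩
      rw [hk, Nat.add_sub_cancel, add_mul, one_mul]
      omega
  have hfin := hsum.trans hub
  obtain ⟨k, hk⟩ : ∃ k, (BK c w).card = k + 1 := ⟨(BK c w).card - 1, by omega⟩
  obtain ⟨q, hq⟩ : ∃ q, M = s + q := ⟨M - s, by omega⟩
  obtain ⟨r, hr⟩ : ∃ r, s = r + 1 := ⟨s - 1, by omega⟩
  have hq2 : M - s = q := by omega
  have hr2 : s - 1 = r := by omega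
  rw [hk, Nat.add_sub_cancel, hq2, hr2] at hfin
  have hAc : ((((AK c w).erase x0).erase x1).card : ℤ) + 2 = (AK c w).card := by omega
  have hc1' : ((AK c w).card : ℤ) + (k + 1) + 1 = 2 * (s + q) + s := by
    rw [hk] at hc1
    have h3 : (AK c w).card + (k + 1) + 1 = 2 * (s + q) + s := by omega
    exact_mod_cast h3
  have hfin' : (r : ℤ) * (((AK c w).erase x0).erase x1).card ≤
      (((AK c w).erase x0).erase x1).card + k * q := by exact_mod_cast hfin
  have hk2 : (k : ℤ) + 2 ≤ 2 * s := by omega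
  have hs5' : (5 : ℤ) ≤ s := by exact_mod_cast hs5
  have hr' : (s : ℤ) = r + 1 := by exact_mod_cast hr
  have hm2' : 2 * ((s : ℤ) + q) ≤ 3 * s + 2 := by omega
  have hq0 : (0 : ℤ) ≤ q := Int.natCast_nonneg _
  generalize ((((AK c w).erase x0).erase x1).card : ℤ) = a at *
  generalize ((AK c w).card : ℤ) = b at *
  have ha : a = 3 * s + 2 * q - k - 4 := by linarith
  have hrr : (r : ℤ) = s - 1 := by linarith
  rw [ha, hrr] at hfin'
  have h1 : (k : ℤ) * q ≤ (2 * s - 2) * q := mul_le_mul_of_nonneg_right (by linarith) hq0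
  have h2 : 0 ≤ ((s : ℤ) - 2) * (2 * s - 2 - k) := mul_nonneg (by linarith) (by linarith)
  nlinarith

end M2
end ZS44129
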