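import Mathlib
import Pool.Agent.Work.MP_44129c_co.W.PP

/-!
# MP_44129c_co/M2, Rho (size M): few elements of `Y` in a filling family

`P`, `Y` disjoint families, `F1` a family in `P ∪ Y` with all `d i ∈ H1` whose subset sums are all of `H1`.  There is a family `F` with the same properties, `|F| + 1 ≤ |H1|`, `F ∩ Y ⊆ F1 ∩ Y`, and `2 (|F ∩ Y| + 1) ≤ |H1|` or `|F ∩ Y| + 1 + |P ∩ H1| ≤ |H1|`.
PROOF.  Let `I = inK d P H1` (the `i ∈ P` with `d i ∈ H1`), `C = cube d I` (contained in `H1`), `S` = the stabiliser of `C` (a subgroup; as `0 ∈ C`, `S ⊆ C ⊆ H1`; `|C|` and the size of every union of cosets of `S` is a multiple of `|S|`).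
GREEDY (see `at_greedy` in W/AperT): (1) from `∅`: `F2 ⊆ I` with `cube d F2 = C` and `|F2| + 1 ≤ |C|`.  (2) add the elements of `F1 ∩ Y` one by one to `C` and keep only those which enlarge the cube: `F' ⊆ F1 ∩ Y` with `cube d (F2 ∪ F') = cube d (F2 ∪ (F1 ∩ Y))`; all the cubes
which occur contain `C` as a summand, so they are unions of cosets of `S`, and each kept element enlarges the cube by at least `|S|`: `|F'| |S| + |C| ≤ |cube d (F2 ∪ F')| ≤ |H1|`.
`F = F2 ∪ F'`: `cube d F = cube d (I ∪ (F1 ∩ Y)) ⊇ cube d F1` (`F1 ⊆ I ∪ (F1 ∩ Y)`), which is all of `H1` (`Gen d F1 ⊥ H1`), so `Gen d F ⊥ H1`.  `|F| ≤ (|C| - 1) + (|H1| - |C|) = |H1| - 1`.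
If `S ≠ ⊥`: `|S| ≥ 2`, `|C| ≥ |S|`: `(|F'| + 1) |S| ≤ |H1|`: the first alternative.  If `S = ⊥`: `C` is aperiodic, `cube_card_ge`: `|C| ≥ |I| + 1` (`d i ≠ 0` on `P`), `|F'| ≤ |H1| - |C|`: the second alternative.  (`F ∩ Y = F'` because `I ⊆ P` is disjoint from `Y`.)
-/

set_option autoImplicit false

namespace ZS44129
namespace M2

open Finset

private def rhoStab {G : Type*} [AddCommGroup G] (S : Finset G) : AddSubgroup G where
  carrier := {h | ∀ x ∈ S, x + h ∈ S}
  add_mem' {a b} ha hb := by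
    intro x hx
    rw [← add_assoc]
    exact hb _ (ha x hx)
  zero_mem' := by
    intro x hx
    rwa [add_zero]
  neg_mem' {a} ha := by
    classical
    intro x hx
    have h1 : S.image (fun y => y + a) ⊆ S := by
      intro z hz
      obtain ⟨y, hy, rfl⟩ := Finset.mem_image.1 hz
      exact ha y hy
    have h2 : S.image (fun y => y + a) = S := by
      apply Finset.eq_of_subset_of_card_le h1
      rw [Finset.card_image_of_injective _ (add_left_injective a)]
    rw [← h2] at hx
    obtain ⟨y, hy, hyx⟩ := Finset.mem_image.1 hx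
    have h3 : x + -a = y := by
      rw [← hyx]
      abel
    rw [h3]
    exact hy

private theorem rho_lt {m : ℕ} [NeZero m] (S : AddSubgroup (ZMod m)) {A B : Finset (ZMod m)} (hAB : A ⊂ B)
    (hA : ∀ h ∈ S, ∀ x ∈ A, x + h ∈ A) (hB : ∀ h ∈ S, ∀ x ∈ B, x + h ∈ B) :
    A.card + Nat.card S ≤ B.card := by
  classical
  obtain ⟨b, hb, hbA⟩ := Finset.exists_of_ssubset hAB
  have h1 : ((S : Set (ZMod m)).toFinset.image fun h => b + h) ⊆ B \ A := by
    intro x hx
    obtain ⟨h, hh, rfl⟩ := Finset.mem_image.1 hx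
    have hh' : h ∈ S := by simpa using hh
    refine Finset.mem_sdiff.2 ⟨hB h hh' b hb, fun h2 => hbA ?_⟩
    have h3 := hA (-h) (S.neg_mem hh') _ h2
    rwa [add_neg_cancel_right] at h3
  have h2 := Finset.card_le_card h1
  rw [Finset.card_image_of_injective _ (add_right_injective b)] at h2
  have h3 : (S : Set (ZMod m)).toFinset.card = Nat.card S := by
    rw [Set.toFinset_card, Nat.card_eq_fintype_card]
    rfl
  have h4 := Finset.card_sdiff_add_card_eq_card hAB.1
  omega

private theorem rho_inv {ι : Type} [DecidableEq ι] {m : ℕ} (d : ι → ZMod m) (S : AddSubgroup (ZMod m))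
    {I : Finset ι} {i : ι} (hi : i ∉ I) (h : ∀ g ∈ S, ∀ x ∈ cube d I, x + g ∈ cube d I) :
    ∀ g ∈ S, ∀ x ∈ cube d (insert i I), x + g ∈ cube d (insert i I) := by
  intro g hg x hx
  rw [mem_cube_insert hi] at hx ⊢
  rcases hx with h1 | h1
  · exact Or.inl (h g hg x h1)
  · right
    have h2 := h g hg _ h1
    have h3 : x + g - d i = x - d i + g := by abel
    rw [h3]
    exact h2

private theorem rho_greedy {ι : Type} [DecidableEq ι] {m : ℕ} [NeZero m] (d : ι → ZMod m)
    (S : AddSubgroup (ZMod m)) (F2 I : Finset ι) (hdis : Disjoint F2 I)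
    (hS : ∀ g ∈ S, ∀ x ∈ cube d F2, x + g ∈ cube d F2) :
    (∀ g ∈ S, ∀ x ∈ cube d (F2 ∪ I), x + g ∈ cube d (F2 ∪ I)) ∧
    ∃ F ⊆ I, cube d (F2 ∪ F) = cube d (F2 ∪ I) ∧
      F.card * Nat.card S + (cube d F2).card ≤ (cube d (F2 ∪ I)).card := by
  induction I using Finset.induction_on with
  | empty =>
    rw [Finset.union_empty]
    exact ⟨hS, ∅, subset_rfl, by rw [Finset.union_empty], by simp⟩
  | insert i I hi ih =>
    have hd1 : Disjoint F2 I := hdis.mono_right (Finset.subset_insert i I)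
    have hiF2 : i ∉ F2 := fun h => Finset.disjoint_left.1 hdis h (Finset.mem_insert_self i I)
    obtain ⟨hinv, F, hF, hc, hcard⟩ := ih hd1
    have hi1 : i ∉ F2 ∪ I := by
      rw [Finset.mem_union]
      rintro (h | h)
      · exact hiF2 h
      · exact hi h
    have hi2 : i ∉ F2 ∪ F := fun h => hi1 (Finset.union_subset_union_right hF h)
    have e1 : F2 ∪ insert i I = insert i (F2 ∪ I) := Finset.union_insert _ _ _
    have e2 : F2 ∪ insert i F = insert i (F2 ∪ F) := Finset.union_insert _ _ _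
    have e3 : cube d (insert i (F2 ∪ F)) = cube d (insert i (F2 ∪ I)) := by
      rw [cube_insert hi2, cube_insert hi1, hc]
    have hinv' := rho_inv d S hi1 hinv
    rw [e1]
    refine ⟨hinv', ?_⟩
    by_cases h : cube d (insert i (F2 ∪ F)) = cube d (F2 ∪ F)
    · refine ⟨F, hF.trans (Finset.subset_insert i I), ?_, ?_⟩
      · rw [← e3, h]
      · rw [← e3, h, hc]
        exact hcard
    · refine ⟨insert i F, Finset.insert_subset_insert i hF, ?_, ?_⟩
      · rw [e2, e3]
      · have hss : cube d (F2 ∪ I) ⊂ cube d (insert i (F2 ∪ I)) := by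
          refine (cube_mono d (Finset.subset_insert i _)).ssubset_of_ne (fun h1 => h ?_)
          rw [e3, ← h1, hc]
        have h1 := rho_lt S hss hinv hinv'
        rw [Finset.card_insert_of_notMem (fun h2 => hi (hF h2)), Nat.add_mul, Nat.one_mul]
        omega

private theorem rho_congr {ι : Type} [DecidableEq ι] {m : ℕ} (d : ι → ZMod m) {A A' B : Finset ι}
    (h : cube d A = cube d A') (hd' : Disjoint A' B) : cube d (A ∪ B) ⊆ cube d (A' ∪ B) := by
  intro x hx
  obtain ⟨T, hT, rfl⟩ := mem_cube.1 hx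
  have h1 : ∑ i ∈ T ∩ A, d i ∈ cube d A' := by
    rw [← h]
    exact mem_cube.2 ⟨T ∩ A, Finset.inter_subset_right, rfl⟩
  obtain ⟨T', hT', hs⟩ := mem_cube.1 h1
  have hTB : T \ A ⊆ B := by
    intro i hi
    rw [Finset.mem_sdiff] at hi
    rcases Finset.mem_union.1 (hT hi.1) with h2 | h2
    · exact absurd h2 hi.2
    · exact h2
  refine mem_cube.2 ⟨T' ∪ (T \ A), Finset.union_subset_union hT' hTB, ?_⟩
  rw [Finset.sum_union (Finset.disjoint_of_subset_left hT' (Finset.disjoint_of_subset_right hTB hd')), hs,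
    Finset.sum_inter_add_sum_sdiff]

theorem rho_bd {ι : Type} [DecidableEq ι] {m : ℕ} [NeZero m] (P Y : Finset ι) (hPY : Disjoint P Y)
    (d : ι → ZMod m) (hd : ∀ i ∈ P, d i ≠ 0) (H1 : AddSubgroup (ZMod m)) (F1 : Finset ι)
    (hF1 : F1 ⊆ P ∪ Y) (hF1H : ∀ i ∈ F1, d i ∈ H1) (hg : Gen d F1 ⊥ H1) :
    ∃ F ⊆ P ∪ Y, (∀ i ∈ F, d i ∈ H1) ∧ Gen d F ⊥ H1 ∧ F.card + 1 ≤ Nat.card H1 ∧ F ∩ Y ⊆ F1 ∩ Y ∧
      (2 * ((F ∩ Y).card + 1) ≤ Nat.card H1 ∨
        (F ∩ Y).card + 1 + (inK d P H1).card ≤ Nat.card H1) := by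
  classical
  set I := inK d P H1 with hI
  have hIP : I ⊆ P := inK_sub d P H1
  set S := rhoStab (cube d I) with hSdef
  have hSm : ∀ g ∈ S, ∀ x ∈ cube d I, x + g ∈ cube d I := fun g hg => hg
  -- first step
  obtain ⟨-, F2, hF2, hF2c, hF2n⟩ := rho_greedy d ⊥ ∅ I (Finset.disjoint_empty_left I) (by
    intro g hg x hx
    rw [AddSubgroup.mem_bot] at hg
    rw [hg, add_zero]
    exact hx)
  rw [Finset.empty_union, Finset.empty_union] at hF2c
  rw [Finset.empty_union, AddSubgroup.card_bot, Nat.mul_one, cube_empty, Finset.card_singleton] at hF2n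
  have hF2P : F2 ⊆ P := hF2.trans hIP
  have hB : F1 ∩ Y ⊆ Y := Finset.inter_subset_right
  have hdF2 : Disjoint F2 (F1 ∩ Y) := Finset.disjoint_of_subset_left hF2P (Finset.disjoint_of_subset_right hB hPY)
  have hdI : Disjoint I (F1 ∩ Y) := Finset.disjoint_of_subset_left hIP (Finset.disjoint_of_subset_right hB hPY)
  -- second step
  obtain ⟨-, F', hF', hF'c, hF'n⟩ := rho_greedy d S F2 (F1 ∩ Y) hdF2 (by
    rw [hF2c]
    exact hSm)
  rw [hF2c] at hF'n
  have hall : ∀ i ∈ F2 ∪ (F1 ∩ Y), d i ∈ H1 := by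
    intro i hi
    rcases Finset.mem_union.1 hi with h1 | h1
    · exact (mem_inK.1 (hF2 h1)).2
    · exact hF1H i (Finset.mem_inter.1 h1).1
  have hle : (cube d (F2 ∪ (F1 ∩ Y))).card ≤ Nat.card H1 := by
    have h1 : ((cube d (F2 ∪ (F1 ∩ Y)) : Finset (ZMod m)) : Set (ZMod m)).ncard ≤
        ((H1 : AddSubgroup (ZMod m)) : Set (ZMod m)).ncard := by
      refine Set.ncard_le_ncard ?_ (Set.toFinite _)
      intro x hx
      obtain ⟨T, hT, rfl⟩ := mem_cube.1 (Finset.mem_coe.1 hx)
      exact AddSubgroup.sum_mem _ fun i hi => hall i (hT hi)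
    rw [Set.ncard_coe_finset] at h1
    exact h1
  have hF'Y : F' ⊆ Y := hF'.trans hB
  have hdF : Disjoint F2 F' := Finset.disjoint_of_subset_right hF' hdF2
  have hFY : (F2 ∪ F') ∩ Y = F' := by
    ext i
    rw [Finset.mem_inter, Finset.mem_union]
    constructor
    · rintro ⟨h1 | h1, h2⟩
      · exact absurd h2 (Finset.disjoint_left.1 hPY (hF2P h1))
      · exact h1
    · intro h1
      exact ⟨Or.inr h1, hF'Y h1⟩
  have hS1 : 1 ≤ Nat.card S := Nat.card_pos
  have hmul : F'.card ≤ F'.card * Nat.card S := Nat.le_mul_of_pos_right _ hS1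
  refine ⟨F2 ∪ F', Finset.union_subset_union hF2P hF'Y, ?_, ?_, ?_, ?_, ?_⟩
  · intro i hi
    exact hall i (Finset.union_subset_union_right hF' hi)
  · intro x hx
    obtain ⟨g, hg, hxg⟩ := hg x hx
    rw [AddSubgroup.mem_bot, sub_eq_zero] at hxg
    refine ⟨x, ?_, by rw [sub_self]; exact zero_mem _⟩
    rw [hF'c, hxg]
    refine rho_congr d hF2c.symm hdF2 ?_
    refine cube_mono d ?_ hg
    intro i hi
    rcases Finset.mem_union.1 (hF1 hi) with h1 | h1
    · exact Finset.mem_union_left _ (mem_inK.2 ⟨h1, hF1H i hi⟩)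
    · exact Finset.mem_union_right _ (Finset.mem_inter.2 ⟨hi, h1⟩)
  · rw [Finset.card_union_of_disjoint hdF]
    omega
  · rw [hFY]
    exact hF'
  · rw [hFY]
    by_cases hSb : S = ⊥
    · right
      have hap : Aper (cube d I) := by
        intro h hh
        have h1 : h ∈ S := hh
        rw [hSb, AddSubgroup.mem_bot] at h1
        exact h1
      have h1 := cube_card_ge d I (fun i hi => hd i (hIP hi)) hap
      omega
    · left
      have hS2 : 2 ≤ Nat.card S := by
        by_contra hcon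
        have h1 : Nat.card S = 1 := by omega
        exact hSb (AddSubgroup.eq_bot_of_card_eq S h1)
      have hSC : Nat.card S ≤ (cube d I).card := by
        have h1 : ((S : AddSubgroup (ZMod m)) : Set (ZMod m)).ncard ≤
            ((cube d I : Finset (ZMod m)) : Set (ZMod m)).ncard := by
          refine Set.ncard_le_ncard ?_ (Set.toFinite _)
          intro x hx
          have h2 := hSm x hx 0 (zero_mem_cube d I)
          rw [zero_add] at h2
          exact h2
        rw [Set.ncard_coe_finset] at h1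
        exact h1
      have h1 : (F'.card + 1) * 2 ≤ (F'.card + 1) * Nat.card S := Nat.mul_le_mul_left _ hS2
      have h2 : (F'.card + 1) * Nat.card S = F'.card * Nat.card S + Nat.card S := by ring
      omega

end M2
end ZS44129
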