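import Pool.Agent.Work.MP_44129c_co.M2.Ker
import Pool.Agent.Work.MP_44129c_co.M2.Choose
import Pool.Agent.Work.MP_44129c_co.W.Struct

/-!
# MP_44129c_co/M2, T2L (size M): one odd colour at `w`: lifted roots

`H` = the subgroup of index 2; `c w y2 ∉ H` (odd), `c w b ∈ H` for the other `b ∈ BB`; `y ∈ BB`, `y ≠ y2`; a lift `RL (g * c) s μ w y z0 n` of the root `y`.  `Y = BB.erase y`, `Y' = Y.erase y2`, `e = |BB|`, `|Y'| = e - 2`.
PROOF of `t2_even`.  `n b ≡ g * c w b` (`RL.hb`; `BB (g * c) w = BB c w`: `ws0_scale`), which is in `H` for `b ∈ Y'` and not in `H` for `b = y2` (`unit_idx`): `n b` is even, `n y2` is odd (`int_idx`); `n b ≠ 0` (`n_ne`).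
PROOF of `t2_bound`.  `diff` (for the colouring `g * c`): `∑_{J1} n - ∑_{J2} n + μ + 2 ≤ m` for `J1, J2 ⊆ Y` with at most `s - 1` elements.  Let `Pos`, `Neg` be the `b ∈ Y` with `n b > 0`, `< 0`.
 * `|Pos|, |Neg| ≤ s - 1`: `J1 = Pos`, `J2 = Neg`: `∑_Y |n| ≥ 2 (e - 2) + 1`: `μ + 2 e ≤ m + 1`.
 * `|Pos| ≥ s`: at least `s - 1` elements of `Y'` are positive, so `≥ 2`: `J1` = `s - 1` of them, `J2 = ∅`: `2 (s - 1) + μ + 2 ≤ m`.   * `|Neg| ≥ s`: in the same way with `J1 = ∅`.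
So `μ + 2 s ≤ m`, or `μ + 2 e ≤ m + 1`.
PROOF of `t2_shape` (`e = 2 s - 1`, `m ≤ μ + 2 s + 1`).  `diff`: `∑_{J1} n - ∑_{J2} n ≤ m - 2 - μ ≤ 2 s - 1`.  `|Y| = 2 s - 2`, `|Y'| = 2 s - 3`.  If `|Pos|, |Neg| ≤ s - 1`: `∑_Y |n| ≥ 2 (2 s - 3) + 1 = 4 s - 5 > 2 s - 1`: contradiction (`s ≥ 5`).
Suppose `|Pos| ≥ s` (the other case is symmetric, `ε = -1`), so `|Neg| ≤ s - 2`; for every `J1 ⊆ Pos` with `s - 1` elements `∑_{J1} n + ∑_{Neg} |n| ≤ 2 s - 1`.  There is `J1 ⊆ Pos ∩ Y'` with `s - 1` elements, `∑_{J1} n ≥ 2 s - 2`: so `∑_{Neg} |n| ≤ 1`: `Neg ∩ Y' = ∅` and, if `y2 ∈ Neg`, `n y2 = -1`.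
So all `b ∈ Y'` are positive; if some `n b ≥ 4` (even, not 2), `J1 ∋ b` in `Y'`: `4 + 2 (s - 2) = 2 s > 2 s - 1`: contradiction: all `n b = 2` on `Y'`.  If `n y2 ≥ 5`: `J1 ∋ y2`: `5 + 2 (s - 2) > 2 s - 1`: contradiction; so `n y2 ≤ 3` (odd) and `n y2 ≥ -1`.
-/

set_option autoImplicit false

namespace ZS44129
namespace M2

open Finset E W

variable {V : Type} [Fintype V] [DecidableEq V] {m : ℕ} {c : V → V → ZMod m} {s M : ℕ} {w : V}

/-- all values on `Y` are at least `2` in absolute value, except at `y2` (at least `1`). -/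
private structure TL (Y : Finset V) (y2 : V) (n : V → ℤ) : Prop where
  y2Y : y2 ∈ Y
  ev : ∀ b ∈ Y.erase y2, (2 : ℤ) ∣ n b ∧ n b ≠ 0
  od : ¬ (2 : ℤ) ∣ n y2

private theorem tl_ne {Y : Finset V} {y2 : V} {n : V → ℤ} (h : TL Y y2 n) {b : V} (hb : b ∈ Y) :
    n b ≠ 0 := by
  by_cases he : b = y2
  · rw [he]
    intro h0
    exact h.od (h0 ▸ dvd_zero 2)
  · exact (h.ev b (Finset.mem_erase.2 ⟨he, hb⟩)).2

private theorem tl_neg {Y : Finset V} {y2 : V} {n : V → ℤ} (h : TL Y y2 n) :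
    TL Y y2 (fun b => - n b) := by
  refine ⟨h.y2Y, fun b hb => ⟨(dvd_neg).2 (h.ev b hb).1, neg_ne_zero.2 (h.ev b hb).2⟩, ?_⟩
  rw [dvd_neg]
  exact h.od

private theorem tl_sum2 {J : Finset V} {n : V → ℤ} (h : ∀ b ∈ J, 2 ≤ n b) :
    2 * (J.card : ℤ) ≤ ∑ b ∈ J, n b := by
  have := Finset.card_nsmul_le_sum J n 2 h
  rw [nsmul_eq_mul] at this
  linarith

private theorem tl_split {Y : Finset V} {y2 : V} {n : V → ℤ} (h : TL Y y2 n) :
    (Y.filter (fun b => 0 < n b)).card + (Y.filter (fun b => n b < 0)).card = Y.card ∧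
      2 * (Y.card : ℤ) ≤
        ∑ b ∈ Y.filter (fun b => 0 < n b), n b - ∑ b ∈ Y.filter (fun b => n b < 0), n b + 1 := by
  have h1 := Finset.card_filter_add_card_filter_not (s := Y) (fun b => 0 < n b)
  have h2 : Y.filter (fun b => n b < 0) = Y.filter (fun b => ¬ 0 < n b) := by
    refine Finset.filter_congr fun b hb => ?_
    have := tl_ne h hb
    omega
  refine ⟨by rw [h2]; exact h1, ?_⟩
  have h3 : ∑ b ∈ Y, |n b| =
      ∑ b ∈ Y.filter (fun b => 0 < n b), n b - ∑ b ∈ Y.filter (fun b => n b < 0), n b := by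
    rw [h2, ← Finset.sum_filter_add_sum_filter_not Y (fun b => 0 < n b), sub_eq_add_neg,
      ← Finset.sum_neg_distrib]
    congr 1
    · refine Finset.sum_congr rfl fun b hb => ?_
      exact abs_of_pos (Finset.mem_filter.1 hb).2
    · refine Finset.sum_congr rfl fun b hb => ?_
      exact abs_of_nonpos (not_lt.1 (Finset.mem_filter.1 hb).2)
  rw [← h3, ← Finset.sum_erase_add _ _ h.y2Y]
  have h4 : 2 * ((Y.erase y2).card : ℤ) ≤ ∑ b ∈ Y.erase y2, |n b| := by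
    refine tl_sum2 fun b hb => ?_
    obtain ⟨⟨k, hk⟩, h6⟩ := h.ev b hb
    rw [hk] at h6 ⊢
    rw [abs_mul]
    have h7 : k ≠ 0 := by
      rintro rfl
      exact h6 (mul_zero 2)
    have h8 := Int.one_le_abs h7
    have h9 : |(2 : ℤ)| = 2 := by norm_num
    rw [h9]
    omega
  have h5 := Int.one_le_abs (tl_ne h h.y2Y)
  have h6 := Finset.card_erase_add_one h.y2Y
  have h7 : ((Y.erase y2).card : ℤ) + 1 = Y.card := by exact_mod_cast h6
  linarith

private theorem tl_ge2 {Y : Finset V} {y2 : V} {n : V → ℤ} (h : TL Y y2 n) {b : V}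
    (hb : b ∈ Y.erase y2) (h0 : 0 < n b) : 2 ≤ n b := by
  obtain ⟨⟨k, hk⟩, -⟩ := h.ev b hb
  omega

private theorem tl_choose {Y : Finset V} {y2 : V} {n : V → ℤ} (h : TL Y y2 n) {s : ℕ} (hs : 1 ≤ s)
    (hP : s ≤ (Y.filter (fun b => 0 < n b)).card) :
    ∃ J ⊆ Y, J.card + 1 = s ∧ 2 * (s : ℤ) ≤ ∑ b ∈ J, n b + 2 := by
  have h1 := Finset.pred_card_le_card_erase (s := Y.filter (fun b => 0 < n b)) (a := y2)
  obtain ⟨J, hJ, hJc⟩ := Finset.exists_subset_card_eq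
    (show s - 1 ≤ ((Y.filter (fun b => 0 < n b)).erase y2).card by omega)
  have h2 : ∀ b ∈ J, 2 ≤ n b := by
    intro b hb
    obtain ⟨h3, h4⟩ := Finset.mem_erase.1 (hJ hb)
    obtain ⟨h5, h6⟩ := Finset.mem_filter.1 h4
    exact tl_ge2 h (Finset.mem_erase.2 ⟨h3, h5⟩) h6
  refine ⟨J, fun b hb => (Finset.mem_filter.1 (Finset.mem_of_mem_erase (hJ hb))).1, by omega, ?_⟩
  have h3 := tl_sum2 h2
  have h4 : (J.card : ℤ) + 1 = s := by
    have : J.card + 1 = s := by omega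
    exact_mod_cast this
  linarith

private theorem tl_pos {Y : Finset V} {y2 : V} {n : V → ℤ} (h : TL Y y2 n) {s : ℕ} (hs : 5 ≤ s)
    (hYc : Y.card + 2 = 2 * s)
    (D : ∀ J1 ⊆ Y, ∀ J2 ⊆ Y, J1.card + 1 ≤ s → J2.card + 1 ≤ s →
      ∑ b ∈ J1, n b - ∑ b ∈ J2, n b + 1 ≤ 2 * s)
    (hP : s ≤ (Y.filter (fun b => 0 < n b)).card) :
    (∀ b ∈ Y.erase y2, n b = 2) ∧ -1 ≤ n y2 ∧ n y2 ≤ 3 := by
  have hY2 := Finset.card_erase_add_one h.y2Y
  have hsp := (tl_split h).1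
  obtain ⟨J, hJ, hJc, hJs⟩ := tl_choose h (by omega) hP
  have h1 := D J hJ (Y.filter (fun b => n b < 0)) (Finset.filter_subset _ _) (by omega) (by omega)
  have hneg : ∀ b ∈ Y, -1 ≤ n b := by
    intro b hb
    by_contra hlt
    push Not at hlt
    have h2 : b ∈ Y.filter (fun b => n b < 0) := Finset.mem_filter.2 ⟨hb, by omega⟩
    have h3 : ∑ x ∈ Y.filter (fun b => n b < 0), n x ≤ n b := by
      have h4 : ∀ x ∈ Y.filter (fun b => n b < 0), 0 ≤ - n x := fun x hx => by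
        have := (Finset.mem_filter.1 hx).2
        omega
      have h5 := Finset.single_le_sum h4 h2
      rw [Finset.sum_neg_distrib] at h5
      linarith
    linarith
  have hge : ∀ b ∈ Y.erase y2, 2 ≤ n b := by
    intro b hb
    have h2 := hneg b (Finset.mem_of_mem_erase hb)
    obtain ⟨⟨k, hk⟩, h3⟩ := h.ev b hb
    omega
  refine ⟨fun b hb => ?_, hneg y2 h.y2Y, ?_⟩
  · by_contra hne
    have h4 : 4 ≤ n b := by
      have h5 := hge b hb
      obtain ⟨⟨k, hk⟩, -⟩ := h.ev b hb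
      omega
    have h6 := Finset.card_erase_add_one hb
    obtain ⟨J', hJ', hJ'c⟩ := Finset.exists_subset_card_eq
      (show s - 2 ≤ ((Y.erase y2).erase b).card by omega)
    have hbJ : b ∉ J' := fun hh => Finset.notMem_erase b _ (hJ' hh)
    have h7 := D (insert b J') (by
      intro x hx
      rcases Finset.mem_insert.1 hx with h8 | h8
      · rw [h8]; exact Finset.mem_of_mem_erase hb
      · exact Finset.mem_of_mem_erase (Finset.mem_of_mem_erase (hJ' h8))) ∅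
      (Finset.empty_subset _) (by rw [Finset.card_insert_of_notMem hbJ]; omega) (by simp; omega)
    rw [Finset.sum_insert hbJ, Finset.sum_empty] at h7
    have h8 := tl_sum2 (J := J') (n := n)
      (fun x hx => hge x (Finset.mem_of_mem_erase (hJ' hx)))
    have h9 : (J'.card : ℤ) + 2 = s := by
      have : J'.card + 2 = s := by omega
      exact_mod_cast this
    linarith
  · by_contra hlt
    push Not at hlt
    obtain ⟨J', hJ', hJ'c⟩ := Finset.exists_subset_card_eq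
      (show s - 2 ≤ (Y.erase y2).card by omega)
    have hbJ : y2 ∉ J' := fun hh => Finset.notMem_erase y2 _ (hJ' hh)
    have h7 := D (insert y2 J') (by
      intro x hx
      rcases Finset.mem_insert.1 hx with h8 | h8
      · rw [h8]; exact h.y2Y
      · exact Finset.mem_of_mem_erase (hJ' h8)) ∅
      (Finset.empty_subset _) (by rw [Finset.card_insert_of_notMem hbJ]; omega) (by simp; omega)
    rw [Finset.sum_insert hbJ, Finset.sum_empty] at h7
    have h8 := tl_sum2 (J := J') (n := n) (fun x hx => hge x (hJ' hx))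
    have h9 : (J'.card : ℤ) + 2 = s := by
      have : J'.card + 2 = s := by omega
      exact_mod_cast this
    linarith

private theorem tl_neg_filter {Y : Finset V} {n : V → ℤ} :
    Y.filter (fun b => 0 < - n b) = Y.filter (fun b => n b < 0) :=
  Finset.filter_congr fun b _ => by omega

theorem t2_even [NeZero m] (h : EW c s M w) (H : AddSubgroup (ZMod m)) (hH : H.index = 2) {y2 : V}
    (ho : c w y2 ∉ H) (hev : ∀ b ∈ (BB c w).erase y2, c w b ∈ H) {y : V} {μ : ℕ} {g : (ZMod m)ˣ} {z0 : ℤ}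
    {n : V → ℤ} (hy : y ∈ (BB c w).erase y2) (hy2 : y2 ∈ BB c w)
    (R : RL (fun a b => (g : ZMod m) * c a b) s μ w y z0 n) :
    (∀ b ∈ ((BB c w).erase y).erase y2, (2 : ℤ) ∣ n b ∧ n b ≠ 0) ∧ ¬ (2 : ℤ) ∣ n y2 := by
  obtain ⟨-, -, hB, -⟩ := ws0_scale h.toWS0 g
  obtain ⟨hyy2, hyB⟩ := Finset.mem_erase.1 hy
  have hb := R.hb
  have hn := (n_ne R).1
  rw [hB] at hb hn
  refine ⟨fun b hbm => ?_, ?_⟩
  · obtain ⟨h1, h2⟩ := Finset.mem_erase.1 hbm
    refine ⟨?_, hn b h2⟩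
    rw [← int_idx h.hM H hH, hb b h2, unit_idx h.hM H hH]
    exact hev b (Finset.mem_erase.2 ⟨h1, Finset.mem_of_mem_erase h2⟩)
  · rw [← int_idx h.hM H hH, hb y2 (Finset.mem_erase.2 ⟨hyy2.symm, hy2⟩), unit_idx h.hM H hH]
    exact ho

theorem t2_bound [NeZero m] (h : EW c s M w) (H : AddSubgroup (ZMod m)) (hH : H.index = 2) {y2 : V}
    (ho : c w y2 ∉ H) (hev : ∀ b ∈ (BB c w).erase y2, c w b ∈ H) {y : V} {μ : ℕ} {g : (ZMod m)ˣ} {z0 : ℤ}
    {n : V → ℤ} (hy : y ∈ (BB c w).erase y2) (hy2 : y2 ∈ BB c w)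
    (R : RL (fun a b => (g : ZMod m) * c a b) s μ w y z0 n) :
    μ + 2 * s ≤ m ∨ μ + 2 * (BB c w).card ≤ m + 1 := by
  obtain ⟨hW, -, hB, -⟩ := ws0_scale h.toWS0 g
  obtain ⟨hyy2, hyB⟩ := Finset.mem_erase.1 hy
  have hs5 := h.s5
  obtain ⟨he, ho'⟩ := t2_even h H hH ho hev hy hy2 R
  have T : TL ((BB c w).erase y) y2 n := ⟨Finset.mem_erase.2 ⟨hyy2.symm, hy2⟩, he, ho'⟩
  have D := fun J1 J2 h1 h2 h3 h4 => W.diff hW R J1 J2 h1 h2 h3 h4
  rw [hB] at D
  have hYc := Finset.card_erase_add_one hyB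
  obtain ⟨hsp, hsum⟩ := tl_split T
  generalize hY : (BB c w).erase y = Y at *
  have hYc' : (Y.card : ℤ) + 1 = (BB c w).card := by exact_mod_cast hYc
  rcases Nat.lt_or_ge (Y.filter (fun b => 0 < n b)).card s with hp | hp
  · rcases Nat.lt_or_ge (Y.filter (fun b => n b < 0)).card s with hq | hq
    · right
      have h1 := D _ _ (Finset.filter_subset _ _) (Finset.filter_subset _ _) hp hq
      have h2 : (μ : ℤ) + 2 * ((BB c w).card : ℤ) ≤ m + 1 := by linarith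
      exact_mod_cast h2
    · left
      obtain ⟨J, hJ, hJc, hJs⟩ := tl_choose (tl_neg T) (s := s) (by omega)
        (by rw [tl_neg_filter]; exact hq)
      have h1 := D ∅ J (Finset.empty_subset _) hJ (by simp; omega) hJc.le
      rw [Finset.sum_neg_distrib] at hJs
      rw [Finset.sum_empty] at h1
      have h2 : (μ : ℤ) + 2 * (s : ℤ) ≤ m := by linarith
      exact_mod_cast h2
  · left
    obtain ⟨J, hJ, hJc, hJs⟩ := tl_choose T (s := s) (by omega) hp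
    have h1 := D J ∅ hJ (Finset.empty_subset _) hJc.le (by simp; omega)
    rw [Finset.sum_empty] at h1
    have h2 : (μ : ℤ) + 2 * (s : ℤ) ≤ m := by linarith
    exact_mod_cast h2

theorem t2_shape [NeZero m] (h : EW c s M w) (H : AddSubgroup (ZMod m)) (hH : H.index = 2) {y2 : V}
    (ho : c w y2 ∉ H) (hev : ∀ b ∈ (BB c w).erase y2, c w b ∈ H) {y : V} {μ : ℕ} {g : (ZMod m)ˣ} {z0 : ℤ}
    {n : V → ℤ} (hy : y ∈ (BB c w).erase y2) (hy2 : y2 ∈ BB c w)
    (R : RL (fun a b => (g : ZMod m) * c a b) s μ w y z0 n) (he : (BB c w).card + 1 = 2 * s)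
    (hμ : m ≤ μ + 2 * s + 1) :
    ∃ ε : ℤ, (ε = 1 ∨ ε = -1) ∧ (∀ b ∈ ((BB c w).erase y).erase y2, ε * n b = 2) ∧
      -1 ≤ ε * n y2 ∧ ε * n y2 ≤ 3 := by
  obtain ⟨hW, -, hB, -⟩ := ws0_scale h.toWS0 g
  obtain ⟨hyy2, hyB⟩ := Finset.mem_erase.1 hy
  have hs5 := h.s5
  obtain ⟨hev', ho'⟩ := t2_even h H hH ho hev hy hy2 R
  have T : TL ((BB c w).erase y) y2 n := ⟨Finset.mem_erase.2 ⟨hyy2.symm, hy2⟩, hev', ho'⟩
  have D0 := fun J1 J2 h1 h2 h3 h4 => W.diff hW R J1 J2 h1 h2 h3 h4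
  rw [hB] at D0
  have hYc := Finset.card_erase_add_one hyB
  obtain ⟨hsp, hsum⟩ := tl_split T
  generalize hY : (BB c w).erase y = Y at *
  have hμ' : (m : ℤ) ≤ μ + 2 * s + 1 := by exact_mod_cast hμ
  have hY2 : Y.card + 2 = 2 * s := by omega
  have D : ∀ J1 ⊆ Y, ∀ J2 ⊆ Y, J1.card + 1 ≤ s → J2.card + 1 ≤ s →
      ∑ b ∈ J1, n b - ∑ b ∈ J2, n b + 1 ≤ 2 * s := by
    intro J1 h1 J2 h2 h3 h4
    have := D0 J1 J2 h1 h2 h3 h4
    linarith
  rcases Nat.lt_or_ge (Y.filter (fun b => 0 < n b)).card s with hp | hp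
  · rcases Nat.lt_or_ge (Y.filter (fun b => n b < 0)).card s with hq | hq
    · exfalso
      have h1 := D _ (Finset.filter_subset _ _) _ (Finset.filter_subset _ _) hp hq
      have h2 : (Y.card : ℤ) + 2 = 2 * s := by exact_mod_cast hY2
      have h3 : (5 : ℤ) ≤ s := by exact_mod_cast hs5
      linarith
    · obtain ⟨a1, a2, a3⟩ := tl_pos (tl_neg T) hs5 hY2 (fun J1 h1 J2 h2 h3 h4 => by
        have := D J2 h2 J1 h1 h4 h3
        rw [Finset.sum_neg_distrib, Finset.sum_neg_distrib]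
        linarith) (by rw [tl_neg_filter]; exact hq)
      refine ⟨-1, Or.inr rfl, fun b hb => ?_, by linarith, by linarith⟩
      have := a1 b hb
      linarith
  · obtain ⟨a1, a2, a3⟩ := tl_pos T hs5 hY2 D hp
    refine ⟨1, Or.inl rfl, fun b hb => ?_, by linarith, by linarith⟩
    have := a1 b hb
    linarith

end M2
end ZS44129
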