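import Pool.Agent.Work.MP_44129c_co.M2.Ker
import Pool.Agent.Work.MP_44129c_co.G.C1K

/-!
# MP_44129c_co/M2, XlA (size M): an edge of colour `M` between `AA` and `BB`: the double stars

`e = |BB|`, `x ∈ AA c w` (so `c w x = 0`), `y1 ∈ BB c w`, `c x y1 = M`.  `RR` = the `b ∈ BB` with `c x b ∈ K` (`y1 ∈ RR`), `OA` = the `x' ∈ AA.erase x` with `c x x' ∉ K`.
PROOFS.  `ew_card`: as `W.cardAB`, and `e1`, `e2`.
`b_ge'`: `G.c1_exc` with `K` of order 2 (`exists_K`, `mem_of_card2`), `u = w`, `r = 0`: if `G.nb c w x K 0 + 2 ≤ s`: `P1 < K`, so `P1 = ⊥`, `#{z ∈ (cls c w K 0).erase x : c w z - r1 ∉ ⊥} + 2 ≤ 2`, so all `z ∈ AA.erase x` have `c w z = r1`, and `c w x - r1 ∉ ⊥`; but `c w z = 0 = c w x`, and `AA.erase x` is not empty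
(`|AA| = m + s - 1 - e ≥ m - s ≥ 2`): contradiction.  The `z` counted in `nb` are in `BB` (`c w z ∉ K`) and have `c x z ∉ K`.
`xl_av`: suppose `S0 = ∑_{(BB.erase y1) \ J} c w b + ∑_Q c x x'` has `pr S0 = 0`, i.e. `S0 + S0 = 0`.  Double stars with centre edge `w x` (colour `0`): leaves at `x`: `J ∩ RR` (colours in `K`), `Q`, and `y1` (first star) or not (second star); leaves at `w`: `(BB.erase y1) \ J`, and a subset `A1`, resp. `insert a A1`, of `(AA.erase x) \ Q` (colours `0`).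
`J \ RR` is left out.  `|A1| = m - 1 - e - |Q| + |J \ RR|` (`≥ 0` by `hQc`; `1 + |J ∩ RR| + |Q| + 1 + (e - 1 - |J|) + |A1| = m`), and `|(AA.erase x) \ Q| = m + s - 2 - e - |Q| ≥ |A1| + 1` because `|J \ RR| + 2 ≤ s`.  The colour sums are `T + M` and `T` with `T = S0 + ∑_{J ∩ RR} c x b`, `T + T = 0`: one of them is `0` (`two_tor`, `M_add`).
`xl_nc`: `D x' := if c w x' = 0 then - pr (c x x') else pr (c w x')`; `F ⊆ Q ∪ BB.erase y1`, `Gen D F ⊥ H1`, `J ⊆ BB.erase y1` disjoint from `F`, `pr (∑_{(BB.erase y1) \ J} c w b) ∈ H1`: there is `T ⊆ F` with `∑_T D = pr (∑_{(BB.erase y1) \ J} c w b)`; `J' = J ∪ (T ∩ BB)`, `Q' = T ∩ Q`: contradiction to `xl_av`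
(`(J' \ RR) ⊆ (J \ RR) ∪ (F \ RR) ∩ BB`).
-/

set_option autoImplicit false

namespace ZS44129
namespace M2

open Finset E W

variable {V : Type} [Fintype V] [DecidableEq V] {m : ℕ} {c : V → V → ZMod m} {s M : ℕ} {w : V}

/-- the vertices of `BB` with colour in `K` at `x`. -/
def RR (c : V → V → ZMod m) (w x : V) : Finset V := (BB c w).filter (fun b => c x b + c x b = 0)

/-- the vertices of `AA.erase x` with colour not in `K` at `x`. -/
def OA (c : V → V → ZMod m) (w x : V) : Finset V :=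
  ((AA c w).erase x).filter (fun z => c x z + c x z ≠ 0)

/-- the differences modulo `M` (centre edge `w x`). -/
def dX {M : ℕ} (hM : m = 2 * M) (c : V → V → ZMod m) (w x : V) : V → ZMod M :=
  fun z => if c w z = 0 then - pr hM (c x z) else pr hM (c w z)

theorem ew_card (h : EW c s M w) : (AA c w).card + (BB c w).card + 1 = m + s ∧
    m ≤ (AA c w).card + s ∧ s + 1 ≤ M := by
  have h1 := cardAB h.toWS0
  have h2 := h.e2
  have h3 := h.m1
  have h4 := h.s5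
  have h5 := h.hM
  refine ⟨h1, ?_, ?_⟩
  · omega
  · omega

private theorem xla_mem_RR {x b : V} : b ∈ RR c w x ↔ b ∈ BB c w ∧ c x b + c x b = 0 := by
  unfold RR
  rw [Finset.mem_filter]

private theorem xla_mem_OA {x b : V} : b ∈ OA c w x ↔ (b ≠ x ∧ b ∈ AA c w) ∧ c x b + c x b ≠ 0 := by
  unfold OA
  rw [Finset.mem_filter, Finset.mem_erase]

theorem b_ge' [NeZero m] (h : EW c s M w) {x : V} (hx : x ∈ AA c w) :
    s ≤ ((BB c w).filter (fun z => c x z + c x z ≠ 0)).card + 1 := by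
  classical
  by_contra hcon
  obtain ⟨hA1, hA2, hA3⟩ := ew_card h
  have hs5 := h.s5
  have hm1 := h.m1
  obtain ⟨K, hK⟩ := exists_K h.hM
  obtain ⟨hxw, hx0⟩ := mem_AA'.1 hx
  have hnb : G.nb c w x K 0 ≤ ((BB c w).filter (fun z => c x z + c x z ≠ 0)).card := by
    unfold G.nb
    refine Finset.card_le_card fun z hz => ?_
    rw [Finset.mem_filter, G.mem_XX, sub_zero, sub_zero] at hz
    obtain ⟨⟨h1, h2⟩, h3, h4⟩ := hz
    rw [Finset.mem_filter]
    refine ⟨mem_BB'.2 ⟨h1, fun h7 => h3 (h7 ▸ K.zero_mem)⟩, fun h7 => h4 ?_⟩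
    exact (mem_of_card2 h.hM K hK _).2 h7
  obtain ⟨P1, r1, h1, h2, h3, h4⟩ := G.c1_exc c h.zsf h.card K (by rw [hK]; omega) w 0 (x := x)
    (G.mem_cls.2 ⟨hxw, by rw [hx0, sub_zero]; exact K.zero_mem⟩) (by rw [hK]; omega)
  rw [hx0] at h3
  have hne : 0 < ((AA c w).erase x).card := by
    rw [Finset.card_erase_of_mem hx]
    omega
  obtain ⟨z, hz⟩ := Finset.card_pos.1 hne
  obtain ⟨hzx, hzA⟩ := Finset.mem_erase.1 hz
  obtain ⟨hzw, hz0⟩ := mem_AA'.1 hzA
  have hzF : z ∈ ((G.cls c w K 0).erase x).filter (fun z => c w z - r1 ∉ P1) := by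
    rw [Finset.mem_filter, Finset.mem_erase, G.mem_cls, hz0]
    exact ⟨⟨hzx, hzw, by rw [sub_zero]; exact K.zero_mem⟩, h3⟩
  have hpos := Finset.card_pos.2 ⟨z, hzF⟩
  have h7 : 0 < Nat.card P1 := Nat.card_pos
  have h8 := Nat.le_mul_of_pos_right
    ((((G.cls c w K 0).erase x).filter (fun z => c w z - r1 ∉ P1)).card + 2) h7
  rw [hK] at h4
  omega

private theorem xla_star (h : EW c s M w) {x y1 : V} (hx : x ∈ AA c w) (J : Finset V)
    (Z : Finset V) (hZB : Z ⊆ BB c w) (hZ : Disjoint Z ((BB c w).erase y1 \ J))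
    (Q : Finset V) (hQ : Q ⊆ (AA c w).erase x)
    (h1 : Q.card + Z.card + ((BB c w).erase y1 \ J).card + 1 ≤ m)
    (h2 : m ≤ Q.card + Z.card + ((BB c w).erase y1 \ J).card + 1 + ((AA c w).erase x \ Q).card) :
    (∑ b ∈ (BB c w).erase y1 \ J, c w b) + (∑ b ∈ Z, c x b + ∑ z ∈ Q, c x z) ≠ 0 := by
  obtain ⟨hxw, hx0⟩ := mem_AA'.1 hx
  obtain ⟨A', hA', hA'c⟩ := Finset.exists_subset_card_eq
    (show m - (Q.card + Z.card + ((BB c w).erase y1 \ J).card + 1) ≤ ((AA c w).erase x \ Q).card by omega)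
  have hA1 : ∀ z ∈ A', z ≠ x ∧ z ∈ AA c w ∧ z ∉ Q := fun z hz => by
    have h3 := Finset.mem_sdiff.1 (hA' hz)
    have h4 := Finset.mem_erase.1 h3.1
    exact ⟨h4.1, h4.2, h3.2⟩
  have hB1 : ∀ z ∈ (BB c w).erase y1 \ J, z ∈ BB c w := fun z hz =>
    (Finset.mem_erase.1 (Finset.mem_sdiff.1 hz).1).2
  have hQ1 : ∀ z ∈ Q, z ≠ x ∧ z ∈ AA c w := fun z hz => Finset.mem_erase.1 (hQ hz)
  have hAB : ∀ z, z ∈ AA c w → z ∈ BB c w → False := fun z h3 h4 =>
    (mem_BB'.1 h4).2 (mem_AA'.1 h3).2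
  have hdis : Disjoint ((BB c w).erase y1 \ J) A' := by
    rw [Finset.disjoint_left]
    intro z h3 h4
    exact hAB z (hA1 z h4).2.1 (hB1 z h3)
  have hdis2 : Disjoint Z Q := by
    rw [Finset.disjoint_left]
    intro z h3 h4
    exact hAB z (hQ1 z h4).2 (hZB h3)
  have hz := h.zsf w x hxw.symm (((BB c w).erase y1 \ J) ∪ A') (Z ∪ Q) (by
    rw [Finset.disjoint_left]
    intro z h3 h4
    rcases Finset.mem_union.1 h3 with h5 | h5
    · rcases Finset.mem_union.1 h4 with h6 | h6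
      · exact Finset.disjoint_left.1 hZ h6 h5
      · exact hAB z (hQ1 z h6).2 (hB1 z h5)
    · rcases Finset.mem_union.1 h4 with h6 | h6
      · exact hAB z (hA1 z h5).2.1 (hZB h6)
      · exact (hA1 z h5).2.2 h6) (by
    intro h3
    rcases Finset.mem_union.1 h3 with h5 | h5
    · exact (mem_BB'.1 (hB1 w h5)).1 rfl
    · exact (mem_AA'.1 (hA1 w h5).2.1).1 rfl) (by
    intro h3
    rcases Finset.mem_union.1 h3 with h5 | h5
    · exact hAB x hx (hB1 x h5)
    · exact (hA1 x h5).1 rfl) (by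
    intro h3
    rcases Finset.mem_union.1 h3 with h5 | h5
    · exact (mem_BB'.1 (hZB h5)).1 rfl
    · exact (mem_AA'.1 (hQ1 w h5).2).1 rfl) (by
    intro h3
    rcases Finset.mem_union.1 h3 with h5 | h5
    · exact hAB x hx (hZB h5)
    · exact (hQ1 x h5).1 rfl) (by
    rw [Finset.card_union_of_disjoint hdis, Finset.card_union_of_disjoint hdis2, hA'c]
    omega)
  rw [Finset.sum_union hdis, Finset.sum_union hdis2, hx0,
    Finset.sum_eq_zero (s := A') (fun z hz => (mem_AA'.1 (hA1 z hz).2.1).2), add_zero, zero_add] at hz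
  exact hz

theorem xl_av [NeZero m] (h : EW c s M w) {x y1 : V} (hx : x ∈ AA c w) (hy1 : y1 ∈ BB c w)
    (hc : c x y1 = (M : ZMod m)) (J : Finset V) (hJ : J ⊆ (BB c w).erase y1)
    (hJc : (J \ RR c w x).card + 2 ≤ s) (Q : Finset V) (hQ : Q ⊆ OA c w x)
    (hQc : Q.card + (BB c w).card + 1 ≤ m) :
    pr h.hM (∑ b ∈ (BB c w).erase y1 \ J, c w b + ∑ z ∈ Q, c x z) ≠ 0 := by
  intro hpr
  rw [pr_zero h.hM] at hpr
  obtain ⟨hA1, hA2, hA3⟩ := ew_card h
  have hs5 := h.s5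
  have hQA : Q ⊆ (AA c w).erase x := fun z hz =>
    Finset.mem_erase.2 (xla_mem_OA.1 (hQ hz)).1
  have hZB : J ∩ RR c w x ⊆ BB c w := fun z hz =>
    (xla_mem_RR.1 (Finset.mem_inter.1 hz).2).1
  have hc1 := Finset.card_sdiff_add_card_eq_card hJ
  have hc2 := Finset.card_erase_add_one hy1
  have hc3 := Finset.card_sdiff_add_card_eq_card hQA
  have hc4 := Finset.card_erase_add_one hx
  have hc5 := Finset.card_sdiff_add_card_inter J (RR c w x)
  have hy1J : y1 ∉ J ∩ RR c w x := fun h3 =>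
    (Finset.mem_erase.1 (hJ (Finset.mem_inter.1 h3).1)).1 rfl
  have hdZ : Disjoint (J ∩ RR c w x) ((BB c w).erase y1 \ J) := by
    rw [Finset.disjoint_left]
    intro z h3 h4
    exact (Finset.mem_sdiff.1 h4).2 (Finset.mem_inter.1 h3).1
  have hdZ' : Disjoint (insert y1 (J ∩ RR c w x)) ((BB c w).erase y1 \ J) := by
    rw [Finset.disjoint_insert_left]
    refine ⟨fun h4 => ?_, hdZ⟩
    exact (Finset.mem_erase.1 (Finset.mem_sdiff.1 h4).1).1 rfl
  have hc6 : (insert y1 (J ∩ RR c w x)).card = (J ∩ RR c w x).card + 1 :=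
    Finset.card_insert_of_notMem hy1J
  have hs1 := xla_star h hx J (J ∩ RR c w x) hZB hdZ Q hQA (by omega) (by omega)
  have hs2 := xla_star h hx J (insert y1 (J ∩ RR c w x)) (Finset.insert_subset hy1 hZB) hdZ' Q hQA
    (by omega) (by omega)
  rw [Finset.sum_insert hy1J, hc] at hs2
  have hR0 : (∑ b ∈ J ∩ RR c w x, c x b) + (∑ b ∈ J ∩ RR c w x, c x b) = 0 := by
    rw [← Finset.sum_add_distrib]
    exact Finset.sum_eq_zero fun z hz => (xla_mem_RR.1 (Finset.mem_inter.1 hz).2).2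
  have hT : ((∑ b ∈ (BB c w).erase y1 \ J, c w b) + (∑ b ∈ J ∩ RR c w x, c x b + ∑ z ∈ Q, c x z)) +
      ((∑ b ∈ (BB c w).erase y1 \ J, c w b) + (∑ b ∈ J ∩ RR c w x, c x b + ∑ z ∈ Q, c x z)) = 0 := by
    linear_combination hpr + hR0
  rcases two_tor h.hM hT with h3 | h3
  · exact hs1 h3
  · apply hs2
    have hM := M_add h.hM
    linear_combination h3 + hM

private theorem xla_dX_AA {hM : m = 2 * M} {x z : V} (hz : z ∈ AA c w) : dX hM c w x z = - pr hM (c x z) := by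
  unfold dX
  rw [if_pos (mem_AA'.1 hz).2]

private theorem xla_dX_BB {hM : m = 2 * M} {x z : V} (hz : z ∈ BB c w) : dX hM c w x z = pr hM (c w z) := by
  unfold dX
  rw [if_neg (mem_BB'.1 hz).2]

theorem xl_nc [NeZero m] (h : EW c s M w) {x y1 : V} (hx : x ∈ AA c w) (hy1 : y1 ∈ BB c w)
    (hc : c x y1 = (M : ZMod m)) (Q : Finset V) (hQ : Q ⊆ OA c w x)
    (hQc : Q.card + (BB c w).card + 1 ≤ m) (F : Finset V) (hF : F ⊆ Q ∪ (BB c w).erase y1)
    (J : Finset V) (hJ : J ⊆ (BB c w).erase y1) (hJF : Disjoint J F)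
    (hc2 : (J \ RR c w x).card + (F ∩ (BB c w \ RR c w x)).card + 2 ≤ s)
    (H1 : AddSubgroup (ZMod M)) (hG : Gen (dX h.hM c w x) F ⊥ H1)
    (h0 : pr h.hM (∑ b ∈ (BB c w).erase y1 \ J, c w b) ∈ H1) : False := by
  obtain ⟨g, hg, hg0⟩ := hG _ h0
  rw [AddSubgroup.mem_bot, sub_eq_zero] at hg0
  obtain ⟨T, hT, hTs⟩ := mem_cube.1 hg
  have hAB : ∀ z, z ∈ AA c w → z ∈ BB c w → False := fun z h3 h4 =>
    (mem_BB'.1 h4).2 (mem_AA'.1 h3).2
  have hQA : ∀ z ∈ Q, z ∈ AA c w := fun z hz => (xla_mem_OA.1 (hQ hz)).1.2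
  have hTsplit : T = (T ∩ (BB c w).erase y1) ∪ (T ∩ Q) := by
    ext z
    simp only [Finset.mem_union, Finset.mem_inter]
    constructor
    · intro h1
      rcases Finset.mem_union.1 (hF (hT h1)) with h2 | h2
      · exact Or.inr ⟨h1, h2⟩
      · exact Or.inl ⟨h1, h2⟩
    · rintro (h1 | h1)
      · exact h1.1
      · exact h1.1
  have hTdis : Disjoint (T ∩ (BB c w).erase y1) (T ∩ Q) := by
    rw [Finset.disjoint_left]
    intro z h1 h2
    exact hAB z (hQA z (Finset.mem_inter.1 h2).2) (Finset.mem_erase.1 (Finset.mem_inter.1 h1).2).2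
  have hsumT : ∑ i ∈ T, dX h.hM c w x i = pr h.hM (∑ b ∈ T ∩ (BB c w).erase y1, c w b) -
      pr h.hM (∑ z ∈ T ∩ Q, c x z) := by
    rw [hTsplit, Finset.sum_union hTdis, ← hTsplit, map_sum, map_sum, sub_eq_add_neg,
      ← Finset.sum_neg_distrib]
    congr 1
    · exact Finset.sum_congr rfl fun z hz =>
        xla_dX_BB (Finset.mem_erase.1 (Finset.mem_inter.1 hz).2).2
    · exact Finset.sum_congr rfl fun z hz => xla_dX_AA (hQA z (Finset.mem_inter.1 hz).2)
  have hJT : Disjoint J (T ∩ (BB c w).erase y1) := by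
    rw [Finset.disjoint_left]
    intro z h1 h2
    exact Finset.disjoint_left.1 hJF h1 (hT (Finset.mem_inter.1 h2).1)
  have hsd : ((BB c w).erase y1 \ J) = ((BB c w).erase y1 \ (J ∪ (T ∩ (BB c w).erase y1))) ∪
      (T ∩ (BB c w).erase y1) := by
    ext z
    simp only [Finset.mem_union, Finset.mem_inter, Finset.mem_sdiff]
    constructor
    · rintro ⟨h1, h2⟩
      by_cases h3 : z ∈ T
      · exact Or.inr ⟨h3, h1⟩
      · exact Or.inl ⟨h1, fun h4 => h4.elim h2 (fun h5 => h3 h5.1)⟩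
    · rintro (⟨h1, h2⟩ | ⟨h1, h2⟩)
      · exact ⟨h1, fun h3 => h2 (Or.inl h3)⟩
      · exact ⟨h2, fun h3 => Finset.disjoint_left.1 hJF h3 (hT h1)⟩
  have hsdd : Disjoint ((BB c w).erase y1 \ (J ∪ (T ∩ (BB c w).erase y1))) (T ∩ (BB c w).erase y1) := by
    rw [Finset.disjoint_left]
    intro z h1 h2
    exact (Finset.mem_sdiff.1 h1).2 (Finset.mem_union_right _ h2)
  refine xl_av h hx hy1 hc (J ∪ (T ∩ (BB c w).erase y1)) ?_ ?_ (T ∩ Q) ?_ ?_ ?_
  · exact Finset.union_subset hJ Finset.inter_subset_right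
  · have hsub : (J ∪ (T ∩ (BB c w).erase y1)) \ RR c w x ⊆ (J \ RR c w x) ∪ (F ∩ (BB c w \ RR c w x)) := by
      intro z hz
      obtain ⟨h1, h2⟩ := Finset.mem_sdiff.1 hz
      rcases Finset.mem_union.1 h1 with h3 | h3
      · exact Finset.mem_union_left _ (Finset.mem_sdiff.2 ⟨h3, h2⟩)
      · obtain ⟨h4, h5⟩ := Finset.mem_inter.1 h3
        exact Finset.mem_union_right _ (Finset.mem_inter.2 ⟨hT h4,
          Finset.mem_sdiff.2 ⟨(Finset.mem_erase.1 h5).2, h2⟩⟩)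
    have h3 := Finset.card_le_card hsub
    have h4 := Finset.card_union_le (J \ RR c w x) (F ∩ (BB c w \ RR c w x))
    omega
  · exact Finset.inter_subset_right.trans hQ
  · have h3 := Finset.card_le_card (Finset.inter_subset_right (s₁ := T) (s₂ := Q))
    omega
  · have h5 : pr h.hM (∑ b ∈ (BB c w).erase y1 \ J, c w b) =
        pr h.hM (∑ b ∈ (BB c w).erase y1 \ (J ∪ (T ∩ (BB c w).erase y1)), c w b) +
          pr h.hM (∑ b ∈ T ∩ (BB c w).erase y1, c w b) := by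
      rw [← map_add, ← Finset.sum_union hsdd, ← hsd]
    rw [map_add]
    rw [h5, ← hTs, hsumT] at hg0
    linear_combination hg0

end M2
end ZS44129
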